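import Mathlib
import Pool.Agent.Helper472.Lat_CST1
import Pool.Agent.Helper472.Lat_CST2

/-!
# Calculus on `E → G`, `G` a compact group of unitary matrices
-/

open MeasureTheory Matrix Filter Topology
open scoped Matrix.Norms.Frobenius ContDiff

namespace Pool.Agent.X168.NA

set_option linter.unusedSectionVars false

noncomputable section

/-- square complex matrices -/
abbrev Mat (N : ℕ) := Matrix (Fin N) (Fin N) ℂ

/-- the unitary group -/
abbrev UU (N : ℕ) := Matrix.unitaryGroup (Fin N) ℂ

/-- A faithful unitary representation of `G`, a basis `X` of the Lie algebra (as matrices), and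
the corresponding one-parameter subgroups; `nb`: exponential coordinates near the identity. -/
structure GD (G : Type) [Group G] [TopologicalSpace G] (N n : ℕ) where
  rho : G →* UU N
  cont : Continuous rho
  inj : Function.Injective rho
  X : Fin n → Mat N
  ex : Fin n → ℝ → G
  ex_eq : ∀ a t, (rho (ex a t) : Mat N) = NormedSpace.exp (t • X a)
  nb : ∀ δ : ℝ, 0 < δ → ∀ᶠ g in 𝓝 (1 : G), ∃ (c : Fin n → ℝ) (γ : ℝ → G), (∀ a, |c a| ≤ δ) ∧
    (∀ t, (rho (γ t) : Mat N) = NormedSpace.exp (t • ∑ a, c a • X a)) ∧ γ 1 = g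

variable {G : Type} [Group G] [TopologicalSpace G] {N n : ℕ} (L : GD G N n)
  {E : Type} [Fintype E] [DecidableEq E]
  {V : Type} [NormedAddCommGroup V] [NormedSpace ℝ V]

/-- the matrices of a configuration -/
def mats (U : E → G) : E → Mat N := fun e => (L.rho (U e) : Mat N)

omit [Fintype E] [DecidableEq E] in
lemma mats_cont : Continuous (mats L : (E → G) → (E → Mat N)) :=
  continuous_pi fun e => continuous_subtype_val.comp (L.cont.comp (continuous_apply e))

/-- continuously differentiable functions: restrictions of `C¹` functions of the matrices -/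
def C1 (F : (E → G) → V) : Prop :=
  ∃ f : (E → Mat N) → V, ContDiff ℝ 1 f ∧ ∀ U, F U = f (mats L U)

/-- the derivative of `F` at `U` when the variable of the link `e` moves as `exp (t X_a) U_e` -/
def dl (e : E) (a : Fin n) (F : (E → G) → V) (U : E → G) : V :=
  deriv (fun t => F (Pi.mulSingle e (L.ex a t) * U)) 0

variable {L}

lemma C1.cont {F : (E → G) → V} (hF : C1 L F) : Continuous F := by
  obtain ⟨f, hf, h⟩ := hF
  have : F = fun U => f (mats L U) := funext h
  rw [this]
  exact hf.continuous.comp (mats_cont L)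

lemma exp_deriv (Y : Mat N) (t : ℝ) :
    HasDerivAt (fun s : ℝ => NormedSpace.exp (s • Y)) (Y * NormedSpace.exp (t • Y)) t := by
  have : CompleteSpace (Mat N) := FiniteDimensional.complete ℝ (Mat N)
  exact hasDerivAt_exp_smul_const' Y t

/-- the configuration with `u s` at the links `e s` and `1` elsewhere -/
def hat {ι : Type} (e : ι → E) (u : ι → G) : E → G := Function.extend e u 1

omit [TopologicalSpace G] [Fintype E] [DecidableEq E] in
lemma hat_mem {ι : Type} {e : ι → E} (he : Function.Injective e) (u : ι → G) (s : ι) :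
    hat e u (e s) = u s := he.extend_apply _ _ _

omit [TopologicalSpace G] [Fintype E] [DecidableEq E] in
lemma hat_not {ι : Type} {e : ι → E} (u : ι → G) {x : E} (hx : ∀ s, e s ≠ x) :
    hat e u x = 1 := Function.extend_apply' _ _ _ (by rintro ⟨s, hs⟩; exact hx s hs)

omit [TopologicalSpace G] [Fintype E] [DecidableEq E] in
lemma hat_mul {ι : Type} {e : ι → E} (he : Function.Injective e) (u v : ι → G) :
    hat e (u * v) = hat e u * hat e v := by
  funext x
  by_cases hx : ∃ s, e s = x
  · obtain ⟨s, rfl⟩ := hx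
    rw [Pi.mul_apply, hat_mem he, hat_mem he, hat_mem he, Pi.mul_apply]
  · push Not at hx
    rw [Pi.mul_apply, hat_not _ hx, hat_not _ hx, hat_not _ hx, one_mul]

omit [TopologicalSpace G] [Fintype E] [DecidableEq E] in
lemma hat_one {ι : Type} {e : ι → E} : hat e (1 : ι → G) = 1 := by
  funext x
  by_cases hx : ∃ s, e s = x
  · unfold hat
    classical
    rw [Function.extend_def, dif_pos hx]
    rfl
  · push Not at hx
    rw [hat_not _ hx]; rfl

omit [TopologicalSpace G] [Fintype E] [DecidableEq E] in
lemma hat_inv {ι : Type} {e : ι → E} (he : Function.Injective e) (u : ι → G) :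
    hat e u⁻¹ = (hat e u)⁻¹ := by
  rw [eq_inv_iff_mul_eq_one, ← hat_mul he, inv_mul_cancel, hat_one]

omit [Fintype E] [DecidableEq E] in
lemma hat_cont {ι : Type} {e : ι → E} (he : Function.Injective e) :
    Continuous (hat e : (ι → G) → (E → G)) := by
  refine continuous_pi fun x => ?_
  by_cases hx : ∃ s, e s = x
  · obtain ⟨s, rfl⟩ := hx
    simp only [hat_mem he]
    exact continuous_apply s
  · push Not at hx
    simp only [hat_not _ hx]
    exact continuous_const

omit [TopologicalSpace G] [Fintype E] in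
lemma hat_single (e : E) (g : G) : hat (fun _ : Unit => e) (fun _ => g) = Pi.mulSingle e g := by
  have he : Function.Injective fun _ : Unit => e := fun _ _ _ => rfl
  funext x
  by_cases hx : x = e
  · subst hx
    rw [Pi.mulSingle_eq_same]
    exact hat_mem he (fun _ => g) ()
  · rw [Pi.mulSingle_eq_of_ne hx]
    exact hat_not _ fun _ h => hx h.symm

/-- the derivative of the matrices along a curve -/
lemma mats_deriv {ι : Type} [Fintype ι] {e : ι → E} (he : Function.Injective e) (Y : ι → Mat N)
    (γ : ι → ℝ → G) (hγ : ∀ s t, (L.rho (γ s t) : Mat N) = NormedSpace.exp (t • Y s)) (U : E → G)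
    (t : ℝ) : HasDerivAt (fun t => mats L (hat e (fun s => γ s t) * U))
      (∑ s, Pi.single (e s) (Y s * mats L (hat e (fun s => γ s t) * U) (e s))) t := by
  refine hasDerivAt_pi.2 fun x => ?_
  by_cases hx : ∃ s, e s = x
  · obtain ⟨s, rfl⟩ := hx
    have h1 : (fun t => mats L (hat e (fun s => γ s t) * U) (e s)) =
        fun t => NormedSpace.exp (t • Y s) * (L.rho (U (e s)) : Mat N) := by
      funext t
      unfold mats
      rw [Pi.mul_apply, hat_mem he, map_mul, ← hγ]
      rfl
    rw [h1]
    have h2 : (∑ s', Pi.single (e s') (Y s' * mats L (hat e (fun s => γ s t) * U) (e s')) :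
        E → Mat N) (e s) = Y s * NormedSpace.exp (t • Y s) * (L.rho (U (e s)) : Mat N) := by
      rw [Finset.sum_apply, Finset.sum_eq_single s]
      · rw [Pi.single_eq_same, mul_assoc]
        congr 1
        exact congrFun h1 t
      · intro s' _ hs
        exact Pi.single_eq_of_ne (fun h => hs (he h.symm)) _
      · simp
    rw [h2]
    exact (exp_deriv (Y s) t).mul_const _
  · push Not at hx
    have h1 : (fun t => mats L (hat e (fun s => γ s t) * U) x) = fun _ => mats L U x := by
      funext t
      unfold mats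
      rw [Pi.mul_apply, hat_not _ hx, one_mul]
    rw [h1]
    have h2 : (∑ s', Pi.single (e s') (Y s' * mats L (hat e (fun s => γ s t) * U) (e s')) :
        E → Mat N) x = 0 := by
      rw [Finset.sum_apply]
      exact Finset.sum_eq_zero fun s' _ => Pi.single_eq_of_ne (fun h => hx s' h.symm) _
    rw [h2]
    exact hasDerivAt_const _ _

lemma ex_zero (a : Fin n) : L.ex a 0 = 1 := by
  apply L.inj
  apply Subtype.ext
  rw [L.ex_eq, zero_smul, NormedSpace.exp_zero, map_one]
  rfl

lemma hasDerivAt_ext {f : (E → Mat N) → V} (hf : ContDiff ℝ 1 f) {F : (E → G) → V}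
    (h : ∀ U, F U = f (mats L U)) (e : E) (a : Fin n) (U : E → G) :
    HasDerivAt (fun t => F (Pi.mulSingle e (L.ex a t) * U))
      (fderiv ℝ f (mats L U) (Pi.single e (L.X a * mats L U e))) 0 := by
  have he : Function.Injective fun _ : Unit => e := fun _ _ _ => rfl
  have h1 := mats_deriv (L := L) he (fun _ => L.X a) (fun _ t => L.ex a t)
    (fun _ t => L.ex_eq a t) U 0
  simp only [hat_single, ex_zero, Pi.mulSingle_one, one_mul, Finset.univ_unique,
    Finset.sum_singleton] at h1
  have h2 : (fun t => F (Pi.mulSingle e (L.ex a t) * U)) =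
      fun t => f (mats L (Pi.mulSingle e (L.ex a t) * U)) := funext fun t => h _
  rw [h2]
  have h3 : HasFDerivAt f (fderiv ℝ f (mats L U)) (mats L (Pi.mulSingle e (L.ex a 0) * U)) := by
    rw [ex_zero, Pi.mulSingle_one, one_mul]
    exact (hf.differentiable (by simp)).differentiableAt.hasFDerivAt
  exact h3.comp_hasDerivAt (0 : ℝ) h1

lemma dl_ext {f : (E → Mat N) → V} (hf : ContDiff ℝ 1 f) {F : (E → G) → V}
    (h : ∀ U, F U = f (mats L U)) (e : E) (a : Fin n) (U : E → G) :
    dl L e a F U = fderiv ℝ f (mats L U) (Pi.single e (L.X a * mats L U e)) :=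
  (hasDerivAt_ext hf h e a U).deriv

lemma C1.hasDerivAt {F : (E → G) → V} (hF : C1 L F) (e : E) (a : Fin n) (U : E → G) :
    HasDerivAt (fun t => F (Pi.mulSingle e (L.ex a t) * U)) (dl L e a F U) 0 := by
  obtain ⟨f, hf, h⟩ := hF
  rw [dl_ext hf h]
  exact hasDerivAt_ext hf h e a U

lemma C1.dl_cont {F : (E → G) → V} (hF : C1 L F) (e : E) (a : Fin n) :
    Continuous (dl L e a F) := by
  obtain ⟨f, hf, h⟩ := hF
  have : dl L e a F = fun U => fderiv ℝ f (mats L U) (Pi.single e (L.X a * mats L U e)) :=
    funext fun U => dl_ext hf h e a U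
  rw [this]
  have h1 : Continuous fun U : E → G => fderiv ℝ f (mats L U) :=
    (hf.continuous_fderiv (by simp)).comp (mats_cont L)
  have h2 : Continuous fun U : E → G => (Pi.single e (L.X a * mats L U e) : E → Mat N) := by
    refine (continuous_single e).comp (continuous_const.mul ?_)
    exact (continuous_apply e).comp (mats_cont L)
  exact h1.clm_apply h2

/-- the derivative along a curve -/
lemma C1.curve {F : (E → G) → V} (hF : C1 L F) {ι : Type} [Fintype ι] {e : ι → E}
    (he : Function.Injective e) (c : ι → Fin n → ℝ) (γ : ι → ℝ → G)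
    (hγ : ∀ s t, (L.rho (γ s t) : Mat N) = NormedSpace.exp (t • ∑ a, c s a • L.X a)) (U : E → G)
    (t : ℝ) : HasDerivAt (fun t => F (hat e (fun s => γ s t) * U))
      (∑ s, ∑ a, c s a • dl L (e s) a F (hat e (fun s => γ s t) * U)) t := by
  obtain ⟨f, hf, h⟩ := hF
  have h1 := mats_deriv (L := L) he (fun s => ∑ a, c s a • L.X a) γ hγ U t
  have h2 : (fun t => F (hat e (fun s => γ s t) * U)) =
      fun t => f (mats L (hat e (fun s => γ s t) * U)) := funext fun t => h _
  rw [h2]
  have h3 : HasFDerivAt f (fderiv ℝ f (mats L (hat e (fun s => γ s t) * U)))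
      (mats L (hat e (fun s => γ s t) * U)) :=
    (hf.differentiable (by simp)).differentiableAt.hasFDerivAt
  have h4 := h3.comp_hasDerivAt t h1
  refine h4.congr_deriv ?_
  have key : ∀ (T : (E → Mat N) →L[ℝ] V) (W : E → Mat N),
      T (∑ s, Pi.single (e s) ((∑ a, c s a • L.X a) * W (e s))) =
        ∑ s, ∑ a, c s a • T (Pi.single (e s) (L.X a * W (e s))) := by
    intro T W
    refine (map_sum T _ _).trans (Finset.sum_congr rfl fun s _ => ?_)
    have h5 : (Pi.single (e s) ((∑ a, c s a • L.X a) * W (e s)) : E → Mat N) =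
        ∑ a, c s a • Pi.single (e s) (L.X a * W (e s)) := by
      rw [Finset.sum_mul]
      have h6 : ∀ a, c s a • (Pi.single (e s) (L.X a * W (e s)) : E → Mat N) =
          Pi.single (e s) (c s a • L.X a * W (e s)) := by
        intro a
        rw [← Pi.single_smul, smul_mul_assoc]
      simp only [h6]
      exact map_sum (AddMonoidHom.single (fun _ : E => Mat N) (e s)) _ Finset.univ
    rw [h5]
    refine (map_sum T _ _).trans (Finset.sum_congr rfl fun a _ => ?_)
    exact map_smul T _ _
  refine (key (fderiv ℝ f (mats L (hat e (fun s => γ s t) * U))) _).trans ?_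
  refine Finset.sum_congr rfl fun s _ => Finset.sum_congr rfl fun a _ => ?_
  rw [dl_ext hf h]

/-! ### rules -/

lemma C1.const (v : V) : C1 L (fun _ : E → G => v) := ⟨fun _ => v, contDiff_const, fun _ => rfl⟩

lemma C1.add {F H : (E → G) → V} (hF : C1 L F) (hH : C1 L H) : C1 L fun U => F U + H U := by
  obtain ⟨f, hf, h⟩ := hF
  obtain ⟨f', hf', h'⟩ := hH
  exact ⟨fun M => f M + f' M, hf.add hf', fun U => by simp only [h, h']⟩

lemma C1.sum {κ : Type} (s : Finset κ) {F : κ → (E → G) → V} (hF : ∀ i ∈ s, C1 L (F i)) :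
    C1 L fun U => ∑ i ∈ s, F i U := by
  classical
  induction s using Finset.induction_on with
  | empty => simpa using C1.const (L := L) (E := E) (0 : V)
  | insert i s hi ih =>
    simp only [Finset.sum_insert hi]
    exact (hF i (Finset.mem_insert_self i s)).add
      (ih fun j hj => hF j (Finset.mem_insert_of_mem hj))

lemma C1.mul {F H : (E → G) → ℂ} (hF : C1 L F) (hH : C1 L H) : C1 L fun U => F U * H U := by
  obtain ⟨f, hf, h⟩ := hF
  obtain ⟨f', hf', h'⟩ := hH
  exact ⟨fun M => f M * f' M, hf.mul hf', fun U => by simp only [h, h']⟩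

lemma C1.comp {W : Type} [NormedAddCommGroup W] [NormedSpace ℝ W] {F : (E → G) → V}
    (hF : C1 L F) {φ : V → W} (hφ : ContDiff ℝ 1 φ) : C1 L fun U => φ (F U) := by
  obtain ⟨f, hf, h⟩ := hF
  exact ⟨fun M => φ (f M), hφ.comp hf, fun U => by simp only [h]⟩

lemma C1.conj {F : (E → G) → ℂ} (hF : C1 L F) : C1 L fun U => (starRingEnd ℂ) (F U) :=
  hF.comp (φ := fun z => (starRingEnd ℂ) z) Complex.conjCLE.contDiff

/-- the matrix entries are `C¹` -/
lemma C1.entry (e : E) (i j : Fin N) : C1 L fun U : E → G => (L.rho (U e) : Mat N) i j := by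
  refine ⟨fun M => M e i j, ?_, fun U => rfl⟩
  let T : (E → Mat N) →ₗ[ℝ] ℂ :=
    { toFun := fun M => M e i j
      map_add' := fun _ _ => rfl
      map_smul' := fun _ _ => rfl }
  have : (fun M : E → Mat N => M e i j) = fun M => LinearMap.toContinuousLinearMap T M := rfl
  rw [this]
  exact (LinearMap.toContinuousLinearMap T).contDiff

lemma dl_add {F H : (E → G) → V} (hF : C1 L F) (hH : C1 L H) (e : E) (a : Fin n) (U : E → G) :
    dl L e a (fun U => F U + H U) U = dl L e a F U + dl L e a H U :=
  ((hF.hasDerivAt e a U).add (hH.hasDerivAt e a U)).deriv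

lemma dl_const (v : V) (e : E) (a : Fin n) (U : E → G) : dl L e a (fun _ => v) U = 0 := by
  unfold dl
  exact deriv_const _ _

lemma dl_sum {κ : Type} (s : Finset κ) {F : κ → (E → G) → V} (hF : ∀ i ∈ s, C1 L (F i)) (e : E)
    (a : Fin n) (U : E → G) :
    dl L e a (fun U => ∑ i ∈ s, F i U) U = ∑ i ∈ s, dl L e a (F i) U := by
  have h := HasDerivAt.fun_sum (u := s) (A := fun i t => F i (Pi.mulSingle e (L.ex a t) * U))
    (A' := fun i => dl L e a (F i) U) (x := (0 : ℝ)) fun i hi => (hF i hi).hasDerivAt e a U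
  exact h.deriv

lemma dl_mul {F H : (E → G) → ℂ} (hF : C1 L F) (hH : C1 L H) (e : E) (a : Fin n) (U : E → G) :
    dl L e a (fun U => F U * H U) U = dl L e a F U * H U + F U * dl L e a H U := by
  have h := ((hF.hasDerivAt e a U).mul (hH.hasDerivAt e a U)).deriv
  rw [ex_zero, Pi.mulSingle_one, one_mul] at h
  exact h

lemma dl_conj {F : (E → G) → ℂ} (hF : C1 L F) (e : E) (a : Fin n) (U : E → G) :
    dl L e a (fun U => (starRingEnd ℂ) (F U)) U = (starRingEnd ℂ) (dl L e a F U) := by
  have h := (hF.hasDerivAt e a U)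
  exact (Complex.conjCLE.toContinuousLinearMap.hasFDerivAt.comp_hasDerivAt (0 : ℝ) h).deriv

/-- a function that does not depend on the link -/
lemma dl_zero {F : (E → G) → V} {e : E} (h : ∀ (g : G) U, F (Pi.mulSingle e g * U) = F U)
    (a : Fin n) (U : E → G) : dl L e a F U = 0 := by
  unfold dl
  simp only [h]
  exact deriv_const _ _

/-- a Lipschitz bound gives a bound of the derivative -/
lemma norm_dl_le {F : (E → G) → V} {e : E} {a : Fin n} {U : E → G} {C : ℝ} (hC : 0 ≤ C)
    (h : ∀ t : ℝ, ‖F (Pi.mulSingle e (L.ex a t) * U) - F U‖ ≤ C * |t|) :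
    ‖dl L e a F U‖ ≤ C := by
  unfold dl
  refine norm_deriv_le_of_lip' hC (Eventually.of_forall fun t => ?_)
  have := h t
  simpa [ex_zero] using this

end

end Pool.Agent.X168.NA
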