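import Mathlib
import Pool.Agent.X168.NA.Base

/-!
# A function of bounded kinetic energy does not concentrate on small sets
-/

open MeasureTheory Matrix Filter Topology
open scoped Matrix.Norms.Frobenius ContDiff

namespace Pool.Agent.X168.NA

set_option linter.unusedSectionVars false

noncomputable section

variable {G : Type} [Group G] [TopologicalSpace G] {N n : ℕ} {L : GD G N n}
  {E : Type} [Fintype E] [DecidableEq E]
  {V : Type} [NormedAddCommGroup V] [NormedSpace ℝ V]
  [IsTopologicalGroup G] [CompactSpace G] [SecondCountableTopology G]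
  [MeasurableSpace G] [BorelSpace G] (μ : Measure G) [IsProbabilityMeasure μ]

/-- product measure -/
abbrev ME (E : Type) [Fintype E] : Measure (E → G) := Measure.pi fun _ => μ

omit [DecidableEq E] [Group G] [IsTopologicalGroup G] in
lemma int_cont {W : Type} [NormedAddCommGroup W] {F : (E → G) → W} (hF : Continuous F) :
    Integrable F (ME μ E) :=
  hF.integrable_of_hasCompactSupport (HasCompactSupport.of_compactSpace _)

omit [DecidableEq E] [Group G] [IsTopologicalGroup G] [SecondCountableTopology G]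
  [MeasurableSpace G] [BorelSpace G] in
lemma bdd_cont {W : Type} [NormedAddCommGroup W] {F : (E → G) → W} (hF : Continuous F) :
    ∃ C : ℝ, 0 ≤ C ∧ ∀ U, ‖F U‖ ≤ C := by
  obtain ⟨C, hC⟩ := (isCompact_univ.image hF.norm).bddAbove
  exact ⟨max C 0, le_max_right _ _, fun U => (hC ⟨U, trivial, rfl⟩).trans (le_max_left _ _)⟩

lemma sq_int {g : ℝ → V} (hg : Continuous g) :
    ‖∫ t in (0:ℝ)..1, g t‖ ^ 2 ≤ ∫ t in (0:ℝ)..1, ‖g t‖ ^ 2 := by
  have h1 : ‖∫ t in (0:ℝ)..1, g t‖ ≤ ∫ t in (0:ℝ)..1, ‖g t‖ :=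
    intervalIntegral.norm_integral_le_integral_norm zero_le_one
  obtain ⟨a, ha⟩ : ∃ a : ℝ, a = ∫ t in (0:ℝ)..1, ‖g t‖ := ⟨_, rfl⟩
  have h2 : 0 ≤ ∫ t in (0:ℝ)..1, (‖g t‖ - a) ^ 2 :=
    intervalIntegral.integral_nonneg zero_le_one fun t _ => sq_nonneg _
  have h3 : (fun t => (‖g t‖ - a) ^ 2) = fun t => ‖g t‖ ^ 2 - 2 * a * ‖g t‖ + a ^ 2 := by
    funext t; ring
  have i1 : IntervalIntegrable (fun t => ‖g t‖ ^ 2) volume 0 1 :=
    (hg.norm.pow 2).intervalIntegrable _ _
  have i2 : IntervalIntegrable (fun t => 2 * a * ‖g t‖) volume 0 1 :=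
    (continuous_const.mul hg.norm).intervalIntegrable _ _
  rw [h3, intervalIntegral.integral_add (i1.sub i2) (by simp),
    intervalIntegral.integral_sub i1 i2, intervalIntegral.integral_const_mul, ← ha,
    intervalIntegral.integral_const] at h2
  rw [← ha] at h1
  have h4 : ‖∫ t in (0:ℝ)..1, g t‖ ^ 2 ≤ a ^ 2 := pow_le_pow_left₀ (norm_nonneg _) h1 2
  simp at h2
  nlinarith

lemma cs_aux {ι : Type} [Fintype ι] (c : ι → Fin n → ℝ) (v : ι → Fin n → V) {δ : ℝ}
    (hc : ∀ s a, |c s a| ≤ δ) :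
    ‖∑ s, ∑ a, c s a • v s a‖ ^ 2 ≤ (Fintype.card ι * n) * δ ^ 2 * ∑ s, ∑ a, ‖v s a‖ ^ 2 := by
  have h0 : ∑ s, ∑ a, c s a • v s a = ∑ p : ι × Fin n, c p.1 p.2 • v p.1 p.2 :=
    (Fintype.sum_prod_type (fun p : ι × Fin n => c p.1 p.2 • v p.1 p.2)).symm
  have h0' : ∑ s, ∑ a, ‖v s a‖ ^ 2 = ∑ p : ι × Fin n, ‖v p.1 p.2‖ ^ 2 :=
    (Fintype.sum_prod_type (fun p : ι × Fin n => ‖v p.1 p.2‖ ^ 2)).symm
  rw [h0, h0']
  have h1 : ‖∑ p : ι × Fin n, c p.1 p.2 • v p.1 p.2‖ ≤
      ∑ p : ι × Fin n, |c p.1 p.2| * ‖v p.1 p.2‖ := by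
    refine (norm_sum_le _ _).trans (le_of_eq ?_)
    refine Finset.sum_congr rfl fun p _ => ?_
    rw [norm_smul, Real.norm_eq_abs]
  refine (pow_le_pow_left₀ (norm_nonneg _) h1 2).trans ?_
  refine (Finset.sum_mul_sq_le_sq_mul_sq _ _ _).trans ?_
  refine mul_le_mul_of_nonneg_right ?_ (Finset.sum_nonneg fun _ _ => sq_nonneg _)
  refine (Finset.sum_le_card_nsmul _ _ (δ ^ 2) fun p _ => ?_).trans (le_of_eq ?_)
  · exact pow_le_pow_left₀ (abs_nonneg _) (hc _ _) 2
  · simp [Finset.card_univ]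

variable [CompleteSpace V] [μ.IsMulLeftInvariant]

/-- translations -/
lemma trans_est {ι : Type} [Fintype ι] {e : ι → E} (he : Function.Injective e)
    {F : (E → G) → V} (hF : C1 L F) {δ : ℝ} (c : ι → Fin n → ℝ) (hc : ∀ s a, |c s a| ≤ δ)
    (γ : ι → ℝ → G)
    (hγ : ∀ s t, (L.rho (γ s t) : Mat N) = NormedSpace.exp (t • ∑ a, c s a • L.X a)) :
    ∫ U, ‖F (hat e (fun s => γ s 1) * U) - F U‖ ^ 2 ∂(ME μ E) ≤
      (Fintype.card ι * n) * δ ^ 2 * ∑ s, ∑ a, ∫ U, ‖dl L (e s) a F U‖ ^ 2 ∂(ME μ E) := by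
  have hemb : IsClosedEmbedding L.rho := L.cont.isClosedEmbedding L.inj
  have hγc : ∀ s, Continuous (γ s) := by
    intro s
    refine hemb.isEmbedding.continuous_iff.2 (continuous_induced_rng.2 ?_)
    have : (Subtype.val ∘ ⇑L.rho ∘ γ s) = fun t : ℝ =>
        NormedSpace.exp (t • ∑ a, c s a • L.X a) := funext fun t => hγ s t
    rw [this]
    exact continuous_iff_continuousAt.2 fun t => (exp_deriv _ t).continuousAt
  have hγ0 : ∀ s, γ s 0 = 1 := by
    intro s
    apply L.inj
    apply Subtype.ext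
    rw [hγ, zero_smul, NormedSpace.exp_zero, map_one]
    rfl
  set cur : ℝ → (E → G) := fun t => hat e (fun s => γ s t) with hcur
  have hcurc : Continuous cur := (hat_cont he).comp (continuous_pi fun s => hγc s)
  have hcur0 : cur 0 = 1 := by
    simp only [hcur, hγ0]
    exact hat_one
  set S : (E → G) → ℝ := fun U => ∑ s, ∑ a, ‖dl L (e s) a F U‖ ^ 2 with hS
  have hSc : Continuous S := continuous_finsetSum _ fun s _ => continuous_finsetSum _ fun a _ =>
    ((hF.dl_cont (e s) a).norm.pow 2)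
  have hS0 : ∀ U, 0 ≤ S U := fun U => Finset.sum_nonneg fun s _ => Finset.sum_nonneg fun a _ =>
    sq_nonneg _
  obtain ⟨C, hC0, hC⟩ := bdd_cont hSc
  -- the pointwise estimate
  have h1 : ∀ U, ‖F (cur 1 * U) - F U‖ ^ 2 ≤
      (Fintype.card ι * n) * δ ^ 2 * ∫ t in (0:ℝ)..1, S (cur t * U) := by
    intro U
    have hg : Continuous fun t => ∑ s, ∑ a, c s a • dl L (e s) a F (cur t * U) :=
      continuous_finsetSum _ fun s _ => continuous_finsetSum _ fun a _ =>
        continuous_const.smul ((hF.dl_cont (e s) a).comp (hcurc.mul continuous_const))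
    have h2 := intervalIntegral.integral_eq_sub_of_hasDerivAt (a := (0:ℝ)) (b := 1)
      (fun t _ => hF.curve he c γ hγ U t) (hg.intervalIntegrable _ _)
    have h3 : F (cur 1 * U) - F U =
        ∫ t in (0:ℝ)..1, ∑ s, ∑ a, c s a • dl L (e s) a F (cur t * U) := by
      rw [h2]
      show _ = F (cur 1 * U) - F (cur 0 * U)
      rw [hcur0, one_mul]
    rw [h3]
    refine (sq_int hg).trans ?_
    rw [← intervalIntegral.integral_const_mul]
    refine intervalIntegral.integral_mono_on zero_le_one ((hg.norm.pow 2).intervalIntegrable _ _)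
      ((continuous_const.mul (hSc.comp (hcurc.mul continuous_const))).intervalIntegrable _ _)
      fun t _ => ?_
    exact cs_aux c (fun s a => dl L (e s) a F (cur t * U)) hc
  -- integration
  have hm : AEStronglyMeasurable (fun p : (E → G) × ℝ => S (cur p.2 * p.1))
      ((ME μ E).prod (volume.restrict (Set.Ioc (0:ℝ) 1))) := by
    refine Continuous.aestronglyMeasurable ?_
    exact hSc.comp ((hcurc.comp continuous_snd).mul continuous_fst)
  have hint : Integrable (fun p : (E → G) × ℝ => S (cur p.2 * p.1))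
      ((ME μ E).prod (volume.restrict (Set.Ioc (0:ℝ) 1))) :=
    Integrable.of_bound hm C (Eventually.of_forall fun p => hC _)
  have h4 : ∫ U, (∫ t in (0:ℝ)..1, S (cur t * U)) ∂(ME μ E) = ∫ U, S U ∂(ME μ E) := by
    have h5 : ∀ U, (∫ t in (0:ℝ)..1, S (cur t * U)) =
        ∫ t, S (cur t * U) ∂(volume.restrict (Set.Ioc (0:ℝ) 1)) := fun U =>
      intervalIntegral.integral_of_le zero_le_one
    simp only [h5]
    rw [integral_integral_swap (f := fun U t => S (cur t * U)) hint]
    have h6 : ∀ t, ∫ U, S (cur t * U) ∂(ME μ E) = ∫ U, S U ∂(ME μ E) := fun t =>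
      integral_mul_left_eq_self (μ := ME μ E) S (cur t)
    simp only [h6]
    simp
  have h7 : ∫ U, S U ∂(ME μ E) = ∑ s, ∑ a, ∫ U, ‖dl L (e s) a F U‖ ^ 2 ∂(ME μ E) := by
    simp only [hS]
    rw [integral_finsetSum]
    · refine Finset.sum_congr rfl fun s _ => ?_
      rw [integral_finsetSum]
      intro a _
      exact int_cont μ ((hF.dl_cont (e s) a).norm.pow 2)
    · intro s _
      exact int_cont μ (continuous_finsetSum _ fun a _ => (hF.dl_cont (e s) a).norm.pow 2)
  rw [← h7, ← h4, ← integral_const_mul]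
  refine integral_mono (int_cont μ ?_) ?_ h1
  · exact ((hF.cont.comp (continuous_const.mul continuous_id)).sub hF.cont).norm.pow 2
  · refine Integrable.const_mul ?_ _
    have h8 := hint.integral_prod_left
    refine h8.congr (Eventually.of_forall fun U => ?_)
    exact (intervalIntegral.integral_of_le zero_le_one).symm

/-- **No concentration.** -/
theorem nonc [μ.IsOpenPosMeasure] [μ.IsInvInvariant] (L : GD G N n) (k : ℕ) {δ : ℝ}
    (hδ : 0 < δ) : ∃ ε : ℝ, 0 < ε ∧
    ∀ (E : Type) [Fintype E] [DecidableEq E] (e : Fin k → E), Function.Injective e →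
      ∀ (F : (E → G) → V), C1 L F → ∀ Bd : Set (E → G), MeasurableSet Bd →
      (∀ U, (Measure.pi fun _ : Fin k => μ).real {u | hat e u * U ∈ Bd} ≤ ε) →
      ∫ U in Bd, ‖F U‖ ^ 2 ∂(ME μ E) ≤ 1 / 2 * ∫ U, ‖F U‖ ^ 2 ∂(ME μ E) +
        δ * ∑ s, ∑ a, ∫ U, ‖dl L (e s) a F U‖ ^ 2 ∂(ME μ E) := by
  classical
  obtain ⟨d, hd, hd2⟩ : ∃ d : ℝ, 0 < d ∧ 2 * ((k : ℝ) * n * d ^ 2) ≤ δ := by
    refine ⟨√(δ / (2 * (k * n + 1))), Real.sqrt_pos.2 (by positivity), ?_⟩
    rw [Real.sq_sqrt (by positivity)]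
    have h0 : (0:ℝ) ≤ (k:ℝ) * n := by positivity
    have h1 : 2 * ((k:ℝ) * n * (δ / (2 * (k * n + 1)))) = δ * ((k * n) / (k * n + 1)) := by
      field_simp
    rw [h1]
    have h2 : ((k:ℝ) * n) / (k * n + 1) ≤ 1 := by
      rw [div_le_one (by positivity)]; linarith
    nlinarith
  obtain ⟨O, hO, hOo, hO1⟩ := eventually_nhds_iff.1 (L.nb d hd)
  set mO : ℝ := (Measure.pi fun _ : Fin k => μ).real (Set.pi Set.univ fun _ => O) with hmO
  have hmO0 : 0 < mO := by
    rw [hmO, measureReal_def, ENNReal.toReal_pos_iff]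
    refine ⟨?_, measure_lt_top _ _⟩
    rw [Measure.pi_pi]
    refine pos_iff_ne_zero.2 (Finset.prod_ne_zero_iff.2 fun _ _ => ?_)
    exact (hOo.measure_pos μ ⟨1, hO1⟩).ne'
  refine ⟨mO / 4, by positivity, ?_⟩
  intro E _ _ e he F hF Bd hBd hBdε
  set φ : (E → G) → ℝ := fun U => ‖F U‖ ^ 2 with hφ
  have hφc : Continuous φ := hF.cont.norm.pow 2
  have hφ0 : ∀ U, 0 ≤ φ U := fun U => sq_nonneg _
  obtain ⟨C, hC0, hC⟩ := bdd_cont hφc
  set T : ℝ := ∑ s, ∑ a, ∫ U, ‖dl L (e s) a F U‖ ^ 2 ∂(ME μ E) with hT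
  set π := (Measure.pi fun _ : Fin k => μ) with hπ
  have hhc : Continuous (hat e : (Fin k → G) → (E → G)) := hat_cont he
  -- the estimate for one translation
  have h1 : ∀ y ∈ Set.pi Set.univ (fun _ : Fin k => O),
      ∫ U in Bd, φ U ∂(ME μ E) ≤ δ * T + 2 * ∫ U in Bd, φ (hat e y * U) ∂(ME μ E) := by
    intro y hy
    choose c γ hc hγ hγ1 using fun s => hO (y s) (hy s trivial)
    have h2 := trans_est μ he hF c hc γ hγ
    have h3 : (fun s => γ s 1) = y := funext hγ1
    rw [h3, ← hT, Fintype.card_fin] at h2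
    have hdiffc : Continuous fun U : E → G => ‖F (hat e y * U) - F U‖ ^ 2 :=
      ((hF.cont.comp (continuous_const.mul continuous_id)).sub hF.cont).norm.pow 2
    have hyc : Continuous fun U : E → G => φ (hat e y * U) :=
      hφc.comp (continuous_const.mul continuous_id)
    have h4 : ∫ U in Bd, φ U ∂(ME μ E) ≤
        ∫ U in Bd, (2 * ‖F (hat e y * U) - F U‖ ^ 2 + 2 * φ (hat e y * U)) ∂(ME μ E) := by
      refine integral_mono (int_cont μ hφc).integrableOn (int_cont μ
        ((continuous_const.mul hdiffc).add (continuous_const.mul hyc))).integrableOn fun U => ?_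
      show ‖F U‖ ^ 2 ≤ 2 * ‖F (hat e y * U) - F U‖ ^ 2 + 2 * ‖F (hat e y * U)‖ ^ 2
      have h5 : ‖F U‖ ≤ ‖F (hat e y * U) - F U‖ + ‖F (hat e y * U)‖ := by
        have := norm_sub_le (F (hat e y * U)) (F (hat e y * U) - F U)
        rw [sub_sub_cancel] at this
        linarith
      nlinarith [norm_nonneg (F U), sq_nonneg (‖F (hat e y * U) - F U‖ - ‖F (hat e y * U)‖)]
    refine h4.trans ?_
    have i1 : IntegrableOn (fun U => 2 * ‖F (hat e y * U) - F U‖ ^ 2) Bd (ME μ E) :=
      (int_cont μ (continuous_const.mul hdiffc)).integrableOn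
    have i2 : IntegrableOn (fun U => 2 * φ (hat e y * U)) Bd (ME μ E) :=
      (int_cont μ (continuous_const.mul hyc)).integrableOn
    rw [integral_add i1 i2, integral_const_mul, integral_const_mul]
    have h6 : ∫ U in Bd, ‖F (hat e y * U) - F U‖ ^ 2 ∂(ME μ E) ≤
        ∫ U, ‖F (hat e y * U) - F U‖ ^ 2 ∂(ME μ E) :=
      setIntegral_le_integral (int_cont μ hdiffc) (Eventually.of_forall fun U => sq_nonneg _)
    have hT0 : 0 ≤ T := Finset.sum_nonneg fun s _ => Finset.sum_nonneg fun a _ =>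
      integral_nonneg fun U => sq_nonneg _
    nlinarith
  -- Fubini
  have hΨm : Measurable fun p : (Fin k → G) × (E → G) => Bd.indicator (fun U => φ (hat e p.1 * U)) p.2 := by
    have : (fun p : (Fin k → G) × (E → G) => Bd.indicator (fun U => φ (hat e p.1 * U)) p.2) =
        (Prod.snd ⁻¹' Bd).indicator fun p => φ (hat e p.1 * p.2) := by
      funext p
      by_cases hp : p.2 ∈ Bd
      · rw [Set.indicator_of_mem hp, Set.indicator_of_mem (by exact hp)]
      · rw [Set.indicator_of_notMem hp, Set.indicator_of_notMem (by exact hp)]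
    rw [this]
    exact (hφc.comp ((hhc.comp continuous_fst).mul continuous_snd)).measurable.indicator
      (measurable_snd hBd)
  have hΨ'm : Measurable fun p : (Fin k → G) × (E → G) =>
      {p : (Fin k → G) × (E → G) | (hat e p.1)⁻¹ * p.2 ∈ Bd}.indicator (fun p => φ p.2) p := by
    refine (hφc.comp continuous_snd).measurable.indicator ?_
    exact ((hhc.comp continuous_fst).inv.mul continuous_snd).measurable hBd
  have hΨ'i : Integrable (fun p : (Fin k → G) × (E → G) =>
      {p : (Fin k → G) × (E → G) | (hat e p.1)⁻¹ * p.2 ∈ Bd}.indicator (fun p => φ p.2) p)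
      (π.prod (ME μ E)) := by
    refine Integrable.of_bound hΨ'm.aestronglyMeasurable C (Eventually.of_forall fun p => ?_)
    rw [Set.indicator_apply]
    split_ifs
    · exact hC _
    · simpa using hC0
  have hΨi : Integrable (fun p : (Fin k → G) × (E → G) =>
      Bd.indicator (fun U => φ (hat e p.1 * U)) p.2) (π.prod (ME μ E)) := by
    refine Integrable.of_bound hΨm.aestronglyMeasurable C (Eventually.of_forall fun p => ?_)
    rw [Set.indicator_apply]
    split_ifs
    · exact hC _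
    · simpa using hC0
  have h7 : ∀ y, ∫ U in Bd, φ (hat e y * U) ∂(ME μ E) =
      ∫ U, {p : (Fin k → G) × (E → G) | (hat e p.1)⁻¹ * p.2 ∈ Bd}.indicator (fun p => φ p.2) (y, U)
        ∂(ME μ E) := by
    intro y
    rw [← integral_indicator hBd, ← integral_mul_left_eq_self (μ := ME μ E)
      (fun U => {p : (Fin k → G) × (E → G) | (hat e p.1)⁻¹ * p.2 ∈ Bd}.indicator (fun p => φ p.2)
        (y, U)) (hat e y)]
    congr 1
    funext U
    by_cases hU : U ∈ Bd
    · rw [Set.indicator_of_mem hU, Set.indicator_of_mem]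
      show (hat e y)⁻¹ * (hat e y * U) ∈ Bd
      rwa [inv_mul_cancel_left]
    · rw [Set.indicator_of_notMem hU, Set.indicator_of_notMem]
      show (hat e y)⁻¹ * (hat e y * U) ∉ Bd
      rwa [inv_mul_cancel_left]
  have h8 : ∫ y, (∫ U in Bd, φ (hat e y * U) ∂(ME μ E)) ∂π ≤ mO / 4 * ∫ U, φ U ∂(ME μ E) := by
    simp only [h7]
    rw [integral_integral_swap hΨ'i, ← integral_const_mul]
    refine integral_mono hΨ'i.integral_prod_right (int_cont μ (continuous_const.mul hφc))
      fun U => ?_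
    have h9 : ∀ y, {p : (Fin k → G) × (E → G) | (hat e p.1)⁻¹ * p.2 ∈ Bd}.indicator
        (fun p => φ p.2) (y, U) = {y | (hat e y)⁻¹ * U ∈ Bd}.indicator (fun _ => φ U) y := by
      intro y
      by_cases hy : (hat e y)⁻¹ * U ∈ Bd
      · rw [Set.indicator_of_mem (by exact hy), Set.indicator_of_mem (by exact hy)]
      · rw [Set.indicator_of_notMem (by exact hy), Set.indicator_of_notMem (by exact hy)]
    have hm : MeasurableSet {y | (hat e y)⁻¹ * U ∈ Bd} :=
      (hhc.inv.mul continuous_const).measurable hBd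
    show ∫ y, {p : (Fin k → G) × (E → G) | (hat e p.1)⁻¹ * p.2 ∈ Bd}.indicator
        (fun p => φ p.2) (y, U) ∂π ≤ mO / 4 * φ U
    simp only [h9]
    rw [integral_indicator hm, setIntegral_const, smul_eq_mul]
    refine mul_le_mul_of_nonneg_right ?_ (hφ0 U)
    have h10 : π.real {y | (hat e y)⁻¹ * U ∈ Bd} = π.real {y | hat e y * U ∈ Bd} := by
      have h11 : {y | (hat e y)⁻¹ * U ∈ Bd} = (fun y : Fin k → G => y⁻¹) ⁻¹' {y | hat e y * U ∈ Bd} := by
        ext y
        show (hat e y)⁻¹ * U ∈ Bd ↔ hat e y⁻¹ * U ∈ Bd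
        rw [hat_inv he]
      rw [h11, measureReal_def, measureReal_def]
      congr 1
      exact Measure.measure_preimage_inv π _
    rw [h10]
    exact hBdε U
  have hDi : Integrable (fun y => ∫ U in Bd, φ (hat e y * U) ∂(ME μ E)) π := by
    refine hΨi.integral_prod_left.congr (Eventually.of_forall fun y => ?_)
    exact integral_indicator hBd
  have hD0 : ∀ y, 0 ≤ ∫ U in Bd, φ (hat e y * U) ∂(ME μ E) := fun y =>
    integral_nonneg fun U => hφ0 _
  have hOm : MeasurableSet (Set.pi Set.univ fun _ : Fin k => O) :=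
    MeasurableSet.pi Set.countable_univ fun _ _ => hOo.measurableSet
  have h12 : ∫ y in Set.pi Set.univ (fun _ : Fin k => O), (∫ U in Bd, φ U ∂(ME μ E)) ∂π ≤
      ∫ y in Set.pi Set.univ (fun _ : Fin k => O),
        (δ * T + 2 * ∫ U in Bd, φ (hat e y * U) ∂(ME μ E)) ∂π := by
    refine setIntegral_mono_on (integrable_const _).integrableOn
      ((integrable_const _).add (hDi.const_mul 2)).integrableOn hOm fun y hy => h1 y hy
  rw [setIntegral_const, smul_eq_mul,
    integral_add (integrable_const _).integrableOn (hDi.const_mul 2).integrableOn,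
    setIntegral_const, smul_eq_mul, integral_const_mul] at h12
  have h13 : ∫ y in Set.pi Set.univ (fun _ : Fin k => O), (∫ U in Bd, φ (hat e y * U) ∂(ME μ E)) ∂π ≤
      ∫ y, (∫ U in Bd, φ (hat e y * U) ∂(ME μ E)) ∂π :=
    setIntegral_le_integral hDi (Eventually.of_forall hD0)
  have h14 : mO * ∫ U in Bd, φ U ∂(ME μ E) ≤ mO * (δ * T + 1 / 2 * ∫ U, φ U ∂(ME μ E)) := by
    have : π.real (Set.pi Set.univ fun _ : Fin k => O) = mO := rfl
    rw [this] at h12
    nlinarith
  have := le_of_mul_le_mul_left h14 hmO0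
  linarith

end

end Pool.Agent.X168.NA
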