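import Mathlib
import Pool.Agent.X168.NA.Nonc

/-!
# The kinetic energy on a set of links
-/

open MeasureTheory Matrix Filter Topology
open scoped Matrix.Norms.Frobenius ContDiff

namespace Pool.Agent.X168.NA

set_option linter.unusedSectionVars false

noncomputable section

variable {G : Type} [Group G] [TopologicalSpace G] {N n : ℕ} {L : GD G N n}
  {E : Type} [Fintype E] [DecidableEq E]
  {V : Type} [NormedAddCommGroup V] [NormedSpace ℝ V]
  [IsTopologicalGroup G] [CompactSpace G] [SecondCountableTopology G]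
  [MeasurableSpace G] [BorelSpace G] (μ : Measure G) [IsProbabilityMeasure μ]

/-- parametric integrals -/
lemma param_aux {𝔸 : Type} [NormedRing 𝔸] [NormedAlgebra ℝ 𝔸] [FiniteDimensional ℝ 𝔸]
    {Y : Type} [TopologicalSpace Y] [CompactSpace Y] [SecondCountableTopology Y]
    [MeasurableSpace Y] [BorelSpace Y] (ν : Measure Y) [IsFiniteMeasure ν]
    {h : 𝔸 → ℝ} (hh : ContDiff ℝ 1 h) {A : Y → 𝔸} (hA : Continuous A) :
    ContDiff ℝ 1 fun M => ∫ y, h (A y * M) ∂ν := by
  have hprop : ProperSpace 𝔸 := FiniteDimensional.proper ℝ _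
  set T : 𝔸 →L[ℝ] 𝔸 →L[ℝ] 𝔸 := ContinuousLinearMap.mul ℝ 𝔸 with hT
  set D : 𝔸 → Y → (𝔸 →L[ℝ] ℝ) := fun M y =>
    (fderiv ℝ h (A y * M)).comp (T (A y)) with hD
  have hDc : Continuous (Function.uncurry D) := by
    have h1 : Continuous fun p : 𝔸 × Y => fderiv ℝ h (A p.2 * p.1) :=
      (hh.continuous_fderiv (by simp)).comp ((hA.comp continuous_snd).mul continuous_fst)
    exact h1.clm_comp (T.continuous.comp (hA.comp continuous_snd))
  have hder : ∀ M y, HasFDerivAt (fun M => h (A y * M)) (D M y) M := by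
    intro M y
    have h1 : HasFDerivAt h (fderiv ℝ h (A y * M)) (T (A y) M) :=
      (hh.differentiable (by simp)).differentiableAt.hasFDerivAt
    exact h1.comp M (T (A y)).hasFDerivAt
  have hcont : Continuous (Function.uncurry fun (M : 𝔸) (y : Y) => h (A y * M)) :=
    hh.continuous.comp ((hA.comp continuous_snd).mul continuous_fst)
  have hmain : ∀ M, HasFDerivAt (fun M => ∫ y, h (A y * M) ∂ν) (∫ y, D M y ∂ν) M := by
    intro M
    obtain ⟨C, hC⟩ := (((isCompact_closedBall M 1).prod (isCompact_univ (X := Y))).image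
      hDc.norm).bddAbove
    refine hasFDerivAt_integral_of_dominated_of_fderiv_le (bound := fun _ => C)
      (Metric.closedBall_mem_nhds M one_pos)
      (Eventually.of_forall fun M' => ?_) ?_ ?_ ?_ (integrable_const _) ?_
    · exact (hcont.comp (Continuous.prodMk_right M')).aestronglyMeasurable
    · exact (hcont.comp (Continuous.prodMk_right M)).integrable_of_hasCompactSupport
        (HasCompactSupport.of_compactSpace _)
    · exact (hDc.comp (Continuous.prodMk_right M)).aestronglyMeasurable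
    · exact Eventually.of_forall fun y M' hM' => hC ⟨(M', y), ⟨hM', trivial⟩, rfl⟩
    · exact Eventually.of_forall fun y M' _ => hder M' y
  rw [contDiff_one_iff_fderiv]
  refine ⟨fun M => (hmain M).differentiableAt, ?_⟩
  have h2 : (fderiv ℝ fun M => ∫ y, h (A y * M) ∂ν) = fun M => ∫ y, D M y ∂ν :=
    funext fun M => (hmain M).fderiv
  rw [h2]
  have h3 := continuous_parametric_integral_of_continuous (μ := ν) hDc (isCompact_univ (X := Y))
  simpa using h3

lemma param_contDiff {Y : Type} [TopologicalSpace Y] [CompactSpace Y] [SecondCountableTopology Y]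
    [MeasurableSpace Y] [BorelSpace Y] (ν : Measure Y) [IsFiniteMeasure ν]
    {h : (E → Mat N) → ℝ} (hh : ContDiff ℝ 1 h) {A : Y → E → Mat N} (hA : Continuous A) :
    ContDiff ℝ 1 fun M => ∫ y, h (A y * M) ∂ν :=
  param_aux (𝔸 := E → Mat N) ν hh hA

lemma mats_mul (U W : E → G) : mats L (U * W) = mats L U * mats L W := by
  funext e
  unfold mats
  rw [Pi.mul_apply, Pi.mul_apply, map_mul]
  rfl

lemma mulSingle_comm_hat {ι : Type} {e : ι → E} {x : E} (hx : ∀ s, e s ≠ x) (g : G) (u : ι → G) :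
    Pi.mulSingle x g * hat e u = hat e u * Pi.mulSingle x g := by
  funext y
  by_cases hy : y = x
  · subst hy
    rw [Pi.mul_apply, Pi.mul_apply, hat_not _ hx, one_mul, mul_one]
  · rw [Pi.mul_apply, Pi.mul_apply, Pi.mulSingle_eq_of_ne hy, one_mul, mul_one]

/-- derivative along the one-parameter subgroup at all times -/
lemma C1.hasDerivAt_t {F : (E → G) → V} (hF : C1 L F) (e : E) (a : Fin n) (U : E → G) (t : ℝ) :
    HasDerivAt (fun t => F (Pi.mulSingle e (L.ex a t) * U))
      (dl L e a F (Pi.mulSingle e (L.ex a t) * U)) t := by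
  have he : Function.Injective fun _ : Unit => e := fun _ _ _ => rfl
  have h := hF.curve he (fun _ => Pi.single a 1) (fun _ t => L.ex a t) (fun _ t => by
    rw [L.ex_eq]
    congr 2
    rw [Finset.sum_eq_single a]
    · simp
    · intro b _ hb
      simp [Pi.single_eq_of_ne hb]
    · simp) U t
  simp only [hat_single, Finset.univ_unique, Finset.sum_singleton] at h
  rw [Finset.sum_eq_single a] at h
  · simpa using h
  · intro b _ hb
    simp [Pi.single_eq_of_ne hb]
  · simp

variable {K : Type} [Fintype K]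

/-- the norm squared -/
def nrm (ψ : K → (E → G) → ℂ) : ℝ := ∑ κ, ∫ U, ‖ψ κ U‖ ^ 2 ∂(ME μ E)

variable (L) in
/-- the kinetic energy of the link `e` -/
def kin (e : E) (ψ : K → (E → G) → ℂ) : ℝ :=
  ∑ a, ∑ κ, ∫ U, ‖dl L e a (ψ κ) U‖ ^ 2 ∂(ME μ E)

/-- the potential energy -/
def pot (mg : (E → G) → ℝ) (ψ : K → (E → G) → ℂ) : ℝ :=
  ∫ U, mg U * ∑ κ, ‖ψ κ U‖ ^ 2 ∂(ME μ E)

variable (L) in
/-- the energy -/
def en (g : ℝ) (mg : (E → G) → ℝ) (ψ : K → (E → G) → ℂ) : ℝ :=
  g ^ 2 / 2 * ∑ e, kin L μ e ψ + 1 / g ^ 2 * pot μ mg ψ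

lemma kin_nonneg (e : E) (ψ : K → (E → G) → ℂ) : 0 ≤ kin L μ e ψ :=
  Finset.sum_nonneg fun _ _ => Finset.sum_nonneg fun _ _ => integral_nonneg fun _ => sq_nonneg _

lemma nrm_nonneg (ψ : K → (E → G) → ℂ) : 0 ≤ nrm μ ψ :=
  Finset.sum_nonneg fun _ _ => integral_nonneg fun _ => sq_nonneg _


lemma cs_int {Y : Type} [MeasurableSpace Y] (ν : Measure Y) {p q : Y → ℝ}
    (hp : Integrable (fun y => p y ^ 2) ν) (hq : Integrable (fun y => q y ^ 2) ν)
    (hpq : Integrable (fun y => p y * q y) ν) :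
    (∫ y, p y * q y ∂ν) ^ 2 ≤ (∫ y, p y ^ 2 ∂ν) * ∫ y, q y ^ 2 ∂ν := by
  have h1 : ∀ t : ℝ, 0 ≤ (∫ y, p y ^ 2 ∂ν) * (t * t) + (-2 * ∫ y, p y * q y ∂ν) * t +
      ∫ y, q y ^ 2 ∂ν := by
    intro t
    have h2 : 0 ≤ ∫ y, (t * p y - q y) ^ 2 ∂ν := integral_nonneg fun _ => sq_nonneg _
    have h3 : (fun y => (t * p y - q y) ^ 2) =
        fun y => t ^ 2 * p y ^ 2 - 2 * t * (p y * q y) + q y ^ 2 := by funext y; ring
    have i1 : Integrable (fun y => t ^ 2 * p y ^ 2) ν := hp.const_mul _
    have i2 : Integrable (fun y => 2 * t * (p y * q y)) ν := hpq.const_mul _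
    have i3 : Integrable (fun y => t ^ 2 * p y ^ 2 - 2 * t * (p y * q y)) ν := i1.sub i2
    rw [h3, integral_add i3 hq, integral_sub i1 i2, integral_const_mul, integral_const_mul] at h2
    nlinarith
  have h4 := discrim_le_zero h1
  unfold discrim at h4
  nlinarith

variable [μ.IsMulLeftInvariant]

/-- the average of `F` over the translations of the links `e s` -/
def avg {ι : Type} [Fintype ι] (e : ι → E) (F : (E → G) → ℝ) (U : E → G) : ℝ :=
  ∫ u, F (hat e u * U) ∂(Measure.pi fun _ : ι => μ)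

lemma avg_C1 {ι : Type} [Fintype ι] {e : ι → E} (he : Function.Injective e) {F : (E → G) → ℝ}
    {f : (E → Mat N) → ℝ} (hf : ContDiff ℝ 1 f) (h : ∀ U, F U = f (mats L U)) :
    ContDiff ℝ 1 (fun M => ∫ u, f (mats L (hat e u) * M) ∂(Measure.pi fun _ : ι => μ)) ∧
      ∀ U, avg μ e F U = ∫ u, f (mats L (hat e u) * mats L U) ∂(Measure.pi fun _ : ι => μ) := by
  refine ⟨param_contDiff _ hf ((mats_cont L).comp (hat_cont he)), fun U => ?_⟩
  unfold avg
  simp only [h, mats_mul]

lemma deriv_int {Y : Type} [TopologicalSpace Y] [CompactSpace Y] [SecondCountableTopology Y]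
    [MeasurableSpace Y] [BorelSpace Y] (ν : Measure Y) [IsFiniteMeasure ν] (F F' : ℝ → Y → ℝ)
    (hF : ∀ t, Continuous (F t)) (hF' : ∀ t, Continuous (F' t)) (C : ℝ)
    (hC : ∀ t y, ‖F' t y‖ ≤ C) (hd : ∀ y t, HasDerivAt (fun t => F t y) (F' t y) t) :
    HasDerivAt (fun t => ∫ y, F t y ∂ν) (∫ y, F' 0 y ∂ν) 0 := by
  have h := hasDerivAt_integral_of_dominated_loc_of_deriv_le (𝕜 := ℝ) (μ := ν)
    (F := F) (F' := F') (x₀ := (0:ℝ)) (s := Set.univ) (bound := fun _ => C) Filter.univ_mem
    (Eventually.of_forall fun t => (hF t).aestronglyMeasurable)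
    ((hF 0).integrable_of_hasCompactSupport (HasCompactSupport.of_compactSpace _))
    (hF' 0).aestronglyMeasurable (Eventually.of_forall fun u t _ => hC _ _)
    (integrable_const _) (Eventually.of_forall fun u t _ => hd u t)
  exact h.2

lemma hasDerivAt_avg {ι : Type} [Fintype ι] {e : ι → E} (he : Function.Injective e)
    {F : (E → G) → ℝ} (hF : C1 L F) {x : E} (hx : ∀ s, e s ≠ x) (a : Fin n) (U : E → G) :
    HasDerivAt (fun t => avg μ e F (Pi.mulSingle x (L.ex a t) * U))
      (avg μ e (dl L x a F) U) 0 := by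
  obtain ⟨C, hC0, hC⟩ := bdd_cont (hF.dl_cont x a)
  have hhc : Continuous (hat e : (ι → G) → (E → G)) := hat_cont he
  have hcu : ∀ t : ℝ, Continuous fun u : ι → G => Pi.mulSingle x (L.ex a t) * (hat e u * U) :=
    fun t => continuous_const.mul (hhc.mul continuous_const)
  have h := deriv_int (Measure.pi fun _ : ι => μ)
    (fun t (u : ι → G) => F (Pi.mulSingle x (L.ex a t) * (hat e u * U)))
    (fun t u => dl L x a F (Pi.mulSingle x (L.ex a t) * (hat e u * U)))
    (fun t => hF.cont.comp (hcu t)) (fun t => (hF.dl_cont x a).comp (hcu t)) C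
    (fun t u => hC _) (fun u t => hF.hasDerivAt_t x a (hat e u * U) t)
  have h1 : (fun t => avg μ e F (Pi.mulSingle x (L.ex a t) * U)) = fun t =>
      ∫ u, F (Pi.mulSingle x (L.ex a t) * (hat e u * U)) ∂(Measure.pi fun _ : ι => μ) := by
    funext t
    unfold avg
    congr 1
    funext u
    rw [← mul_assoc, ← mul_assoc, mulSingle_comm_hat hx]
  have h2 : avg μ e (dl L x a F) U =
      ∫ u, dl L x a F (Pi.mulSingle x (L.ex a 0) * (hat e u * U)) ∂(Measure.pi fun _ : ι => μ) := by
    unfold avg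
    congr 1
    funext u
    rw [ex_zero, Pi.mulSingle_one, one_mul]
  rw [h1, h2]
  exact h

lemma avg_hat {ι : Type} [Fintype ι] {e : ι → E} (he : Function.Injective e)
    [μ.IsMulRightInvariant] (F : (E → G) → ℝ) (v : ι → G) (U : E → G) :
    avg μ e F (hat e v * U) = avg μ e F U := by
  unfold avg
  have h := integral_mul_right_eq_self (μ := Measure.pi fun _ : ι => μ)
    (fun u => F (hat e u * U)) v
  rw [← h]
  refine integral_congr_ae (Eventually.of_forall fun u => ?_)
  simp only [hat_mul he, mul_assoc]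

lemma int_avg {ι : Type} [Fintype ι] {e : ι → E} (he : Function.Injective e)
    {F : (E → G) → ℝ} (hF : Continuous F) {w : (E → G) → ℝ} (hw : Continuous w) :
    ∫ U, w U * avg μ e F U ∂(ME μ E) =
      ∫ u, ∫ U, w ((hat e u)⁻¹ * U) * F U ∂(ME μ E) ∂(Measure.pi fun _ : ι => μ) := by
  have hhc : Continuous (hat e : (ι → G) → (E → G)) := hat_cont he
  unfold avg
  have h1 : ∀ U, w U * ∫ u, F (hat e u * U) ∂(Measure.pi fun _ : ι => μ) =
      ∫ u, w U * F (hat e u * U) ∂(Measure.pi fun _ : ι => μ) := fun U =>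
    (integral_const_mul _ _).symm
  simp only [h1]
  rw [integral_integral_swap (f := fun U u => w U * F (hat e u * U))]
  · refine integral_congr_ae (Eventually.of_forall fun u => ?_)
    show ∫ U, w U * F (hat e u * U) ∂(ME μ E) = ∫ U, w ((hat e u)⁻¹ * U) * F U ∂(ME μ E)
    rw [← integral_mul_left_eq_self (μ := ME μ E) (fun U => w ((hat e u)⁻¹ * U) * F U) (hat e u)]
    simp only [inv_mul_cancel_left]
  · have hc : Continuous (Function.uncurry fun (U : E → G) (u : ι → G) => w U * F (hat e u * U)) :=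
      (hw.comp continuous_fst).mul
        (hF.comp ((hhc.comp continuous_snd).mul continuous_fst))
    exact hc.integrable_of_hasCompactSupport (HasCompactSupport.of_compactSpace _)

lemma int_avg_one {ι : Type} [Fintype ι] {e : ι → E} (he : Function.Injective e)
    {F : (E → G) → ℝ} (hF : Continuous F) :
    ∫ U, avg μ e F U ∂(ME μ E) = ∫ U, F U ∂(ME μ E) := by
  have h := int_avg μ he hF (w := fun _ => 1) continuous_const
  simp only [one_mul] at h
  rw [h]
  simp

lemma avg_cont {ι : Type} [Fintype ι] {e : ι → E} (he : Function.Injective e)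
    {F : (E → G) → ℝ} (hF : Continuous F) : Continuous (avg μ e F) := by
  have hhc : Continuous (hat e : (ι → G) → (E → G)) := hat_cont he
  unfold avg
  have h3 := continuous_parametric_integral_of_continuous (μ := Measure.pi fun _ : ι => μ)
    (f := fun U u => F (hat e u * U))
    (hF.comp ((hhc.comp continuous_snd).mul continuous_fst)) (isCompact_univ (X := ι → G))
  simpa using h3

end

end Pool.Agent.X168.NA
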