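import Mathlib
import Pool.Agent.X168.NA.Kin

/-!
# The kinetic lemma
-/

open MeasureTheory Matrix Filter Topology
open scoped Matrix.Norms.Frobenius ContDiff

namespace Pool.Agent.X168.NA

set_option linter.unusedSectionVars false

noncomputable section

variable {G : Type} [Group G] [TopologicalSpace G] {N n : ℕ} {L : GD G N n}
  {E : Type} [Fintype E] [DecidableEq E]
  {V : Type} [NormedAddCommGroup V] [NormedSpace ℝ V]
  [IsTopologicalGroup G] [CompactSpace G] [SecondCountableTopology G]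
  [MeasurableSpace G] [BorelSpace G] (μ : Measure G) [IsProbabilityMeasure μ]
  {K : Type} [Fintype K] {X : Type}

/-- gauge transformations -/
def gt (src tgt : E → X) (γ : X → G) (U : E → G) : E → G :=
  fun e => γ (src e) * U e * (γ (tgt e))⁻¹

lemma gt_hat (src tgt : E → X) (γ : X → G) (U : E → G) {ι : Type} {e : ι → E}
    (he : Function.Injective e) (u : ι → G) :
    hat e u * gt src tgt γ U =
      gt src tgt γ (hat e ((fun s => (γ (src (e s)))⁻¹) * (u * fun s => γ (src (e s)))) * U) := by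
  funext x
  unfold gt
  by_cases hx : ∃ s, e s = x
  · obtain ⟨s, rfl⟩ := hx
    simp only [Pi.mul_apply, hat_mem he]
    group
  · push Not at hx
    simp only [Pi.mul_apply, hat_not _ hx, one_mul]

lemma avg_gt [μ.IsMulLeftInvariant] [μ.IsMulRightInvariant] {src tgt : E → X}
    {ι : Type} [Fintype ι] {e : ι → E} (he : Function.Injective e) {F : (E → G) → ℝ}
    (hF : ∀ γ U, F (gt src tgt γ U) = F U) (γ : X → G) (U : E → G) :
    avg μ e F (gt src tgt γ U) = avg μ e F U := by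
  unfold avg
  simp only [gt_hat src tgt γ U he, hF]
  rw [integral_mul_right_eq_self (μ := Measure.pi fun _ : ι => μ)
    (fun u => F (hat e ((fun s => (γ (src (e s)))⁻¹) * u) * U)) (fun s => γ (src (e s))),
    integral_mul_left_eq_self (μ := Measure.pi fun _ : ι => μ) (fun u => F (hat e u * U))
      (fun s => (γ (src (e s)))⁻¹)]

/-- derivative of the density -/
lemma dl_sq {ψ : K → (E → G) → ℂ} (hψ : ∀ κ, C1 L (ψ κ)) (x : E) (a : Fin n) (U : E → G) :
    |dl L x a (fun U => ∑ κ, ‖ψ κ U‖ ^ 2) U| ≤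
      2 * (√(∑ κ, ‖ψ κ U‖ ^ 2) * √(∑ κ, ‖dl L x a (ψ κ) U‖ ^ 2)) := by
  have h1 : ∀ κ, HasDerivAt (fun t => ‖ψ κ (Pi.mulSingle x (L.ex a t) * U)‖ ^ 2)
      (2 * inner ℝ (ψ κ U) (dl L x a (ψ κ) U)) 0 := by
    intro κ
    have h := ((hψ κ).hasDerivAt x a U).norm_sq
    rw [ex_zero, Pi.mulSingle_one, one_mul] at h
    exact h
  have h2 : dl L x a (fun U => ∑ κ, ‖ψ κ U‖ ^ 2) U =
      ∑ κ, 2 * inner ℝ (ψ κ U) (dl L x a (ψ κ) U) :=
    (HasDerivAt.fun_sum fun κ _ => h1 κ).deriv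
  rw [h2]
  refine (Finset.abs_sum_le_sum_abs _ _).trans ?_
  have h3 : ∀ κ ∈ Finset.univ, |2 * inner ℝ (ψ κ U) (dl L x a (ψ κ) U)| ≤
      2 * (‖ψ κ U‖ * ‖dl L x a (ψ κ) U‖) := by
    intro κ _
    rw [abs_mul, abs_two]
    exact mul_le_mul_of_nonneg_left (abs_real_inner_le_norm _ _) zero_le_two
  refine (Finset.sum_le_sum h3).trans ?_
  rw [← Finset.mul_sum]
  refine mul_le_mul_of_nonneg_left ?_ zero_le_two
  exact Real.sum_mul_le_sqrt_mul_sqrt _ _ _

lemma C1.sq_sum {ψ : K → (E → G) → ℂ} (hψ : ∀ κ, C1 L (ψ κ)) :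
    ∃ f : (E → Mat N) → ℝ, ContDiff ℝ 1 f ∧ (∀ M, 0 ≤ f M) ∧
      ∀ U, ∑ κ, ‖ψ κ U‖ ^ 2 = f (mats L U) := by
  choose f hf h using hψ
  refine ⟨fun M => ∑ κ, ‖f κ M‖ ^ 2, ContDiff.sum fun κ _ => (hf κ).norm_sq ℝ,
    fun M => Finset.sum_nonneg fun _ _ => sq_nonneg _, fun U => ?_⟩
  simp only [h]

/-- the trial function -/
def tri {ι : Type} [Fintype ι] (e : ι → E) (ψ : K → (E → G) → ℂ) (ε : ℝ) (U : E → G) : ℝ :=
  √(ε + avg μ e (fun U => ∑ κ, ‖ψ κ U‖ ^ 2) U)

lemma avg_nonneg {ι : Type} [Fintype ι] (e : ι → E) {F : (E → G) → ℝ} (hF : ∀ U, 0 ≤ F U)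
    (U : E → G) : 0 ≤ avg μ e F U := integral_nonneg fun _ => hF _

lemma C1.ofReal {F : (E → G) → ℝ} (hF : C1 L F) : C1 L fun U => (F U : ℂ) :=
  hF.comp (φ := fun r : ℝ => (r : ℂ)) Complex.ofRealCLM.contDiff

lemma dl_ofReal {F : (E → G) → ℝ} (hF : C1 L F) (e : E) (a : Fin n) (U : E → G) :
    dl L e a (fun U => (F U : ℂ)) U = ((dl L e a F U : ℝ) : ℂ) :=
  (hF.hasDerivAt e a U).ofReal_comp.deriv

variable [μ.IsMulLeftInvariant] [μ.IsMulRightInvariant]

lemma tri_C1 {ι : Type} [Fintype ι] {e : ι → E} (he : Function.Injective e)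
    {ψ : K → (E → G) → ℂ} (hψ : ∀ κ, C1 L (ψ κ)) {ε : ℝ} (hε : 0 < ε) :
    C1 L (tri μ e ψ ε) := by
  obtain ⟨f, hf, hf0, h⟩ := C1.sq_sum hψ
  obtain ⟨h1, h2⟩ := avg_C1 (L := L) μ he hf h
  refine ⟨fun M => √(ε + ∫ u, f (mats L (hat e u) * M) ∂(Measure.pi fun _ : ι => μ)), ?_, ?_⟩
  · refine ContDiff.sqrt (contDiff_const.add h1) fun M => ?_
    have : 0 ≤ ∫ u, f (mats L (hat e u) * M) ∂(Measure.pi fun _ : ι => μ) :=
      integral_nonneg fun _ => hf0 _
    positivity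
  · intro U
    unfold tri
    rw [h2]

lemma tri_dl_mem {ι : Type} [Fintype ι] {e : ι → E} (he : Function.Injective e)
    (ψ : K → (E → G) → ℂ) (ε : ℝ) (s : ι) (a : Fin n) (U : E → G) :
    dl L (e s) a (tri μ e ψ ε) U = 0 := by
  classical
  refine dl_zero (fun g U => ?_) a U
  have h1 : (Pi.mulSingle (e s) g : E → G) = hat e (Pi.mulSingle s g) := by
    funext x
    by_cases hx : ∃ s', e s' = x
    · obtain ⟨s', rfl⟩ := hx
      rw [hat_mem he]
      by_cases hs : s' = s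
      · subst hs
        rw [Pi.mulSingle_eq_same, Pi.mulSingle_eq_same]
      · rw [Pi.mulSingle_eq_of_ne hs, Pi.mulSingle_eq_of_ne fun h => hs (he h)]
    · push Not at hx
      rw [hat_not _ hx, Pi.mulSingle_eq_of_ne fun h => hx s h.symm]
  unfold tri
  rw [h1, avg_hat μ he]

lemma tri_dl_not {ι : Type} [Fintype ι] {e : ι → E} (he : Function.Injective e)
    {ψ : K → (E → G) → ℂ} (hψ : ∀ κ, C1 L (ψ κ)) {ε : ℝ} (hε : 0 < ε) {x : E}
    (hx : ∀ s, e s ≠ x) (a : Fin n) (U : E → G) :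
    dl L x a (tri μ e ψ ε) U ^ 2 ≤ avg μ e (fun U => ∑ κ, ‖dl L x a (ψ κ) U‖ ^ 2) U := by
  obtain ⟨f, hf, hf0, h⟩ := C1.sq_sum hψ
  set F : (E → G) → ℝ := fun U => ∑ κ, ‖ψ κ U‖ ^ 2 with hF
  set D : (E → G) → ℝ := fun U => ∑ κ, ‖dl L x a (ψ κ) U‖ ^ 2 with hD
  have hFC : C1 L F := ⟨f, hf, h⟩
  have hF0 : ∀ U, 0 ≤ F U := fun U => Finset.sum_nonneg fun _ _ => sq_nonneg _
  have hD0 : ∀ U, 0 ≤ D U := fun U => Finset.sum_nonneg fun _ _ => sq_nonneg _
  have hDc : Continuous D := continuous_finsetSum _ fun κ _ => ((hψ κ).dl_cont x a).norm.pow 2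
  have hA : 0 ≤ avg μ e F U := avg_nonneg μ e hF0 U
  have hB : 0 ≤ avg μ e D U := avg_nonneg μ e hD0 U
  have h1 := (hasDerivAt_avg (L := L) μ he hFC hx a U).const_add ε
  have h2 : HasDerivAt (fun t => tri μ e ψ ε (Pi.mulSingle x (L.ex a t) * U))
      (avg μ e (dl L x a F) U / (2 * √(ε + avg μ e F U))) 0 := by
    have h3 := h1.sqrt (by
      rw [ex_zero, Pi.mulSingle_one, one_mul]
      positivity)
    rw [ex_zero, Pi.mulSingle_one, one_mul] at h3
    exact h3
  have h3 : dl L x a (tri μ e ψ ε) U = avg μ e (dl L x a F) U / (2 * √(ε + avg μ e F U)) :=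
    h2.deriv
  rw [h3, div_pow, mul_pow, Real.sq_sqrt (by positivity), div_le_iff₀ (by positivity)]
  -- Cauchy–Schwarz
  have hhc : Continuous (hat e : (ι → G) → (E → G)) := hat_cont he
  have hc : Continuous fun u : ι → G => hat e u * U := hhc.mul continuous_const
  have hint : ∀ {H : (E → G) → ℝ}, Continuous H →
      Integrable (fun u : ι → G => H (hat e u * U)) (Measure.pi fun _ : ι => μ) := fun hH =>
    (hH.comp hc).integrable_of_hasCompactSupport (HasCompactSupport.of_compactSpace _)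
  have h4 : |avg μ e (dl L x a F) U| ≤ 2 * ∫ u, √(F (hat e u * U)) * √(D (hat e u * U))
      ∂(Measure.pi fun _ : ι => μ) := by
    rw [← integral_const_mul]
    unfold avg
    refine (abs_integral_le_integral_abs).trans ?_
    refine integral_mono (hint (hFC.dl_cont x a)).abs ?_ fun u => ?_
    · exact hint (H := fun U => 2 * (√(F U) * √(D U)))
        (continuous_const.mul (hFC.cont.sqrt.mul hDc.sqrt))
    · exact dl_sq hψ x a (hat e u * U)
  have h5 := cs_int (Measure.pi fun _ : ι => μ) (p := fun u => √(F (hat e u * U)))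
    (q := fun u => √(D (hat e u * U)))
    (hint (H := fun U => √(F U) ^ 2) (hFC.cont.sqrt.pow 2))
    (hint (H := fun U => √(D U) ^ 2) (hDc.sqrt.pow 2))
    (hint (H := fun U => √(F U) * √(D U)) (hFC.cont.sqrt.mul hDc.sqrt))
  have h6 : ∫ u, √(F (hat e u * U)) ^ 2 ∂(Measure.pi fun _ : ι => μ) = avg μ e F U := by
    unfold avg
    congr 1
    funext u
    exact Real.sq_sqrt (hF0 _)
  have h7 : ∫ u, √(D (hat e u * U)) ^ 2 ∂(Measure.pi fun _ : ι => μ) = avg μ e D U := by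
    unfold avg
    congr 1
    funext u
    exact Real.sq_sqrt (hD0 _)
  rw [h6, h7] at h5
  have h8 : avg μ e (dl L x a F) U ^ 2 ≤ 4 * (avg μ e F U * avg μ e D U) := by
    rw [← sq_abs]
    have := pow_le_pow_left₀ (abs_nonneg _) h4 2
    nlinarith
  nlinarith


lemma int_add' {F H : (E → G) → ℝ} (hF : Continuous F) (hH : Continuous H) :
    ∫ U, (F U + H U) ∂(ME μ E) = ∫ U, F U ∂(ME μ E) + ∫ U, H U ∂(ME μ E) :=
  integral_add (int_cont μ hF) (int_cont μ hH)

/-- **The kinetic energy on a set of links is at most the energy above the ground state energy,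
plus a constant.** -/
theorem kinetic {src tgt : E → X} {g : ℝ} {mg : (E → G) → ℝ} (hmg : Continuous mg)
    {E0 : ℝ} (hE0 : ∀ F : (E → G) → ℂ, C1 L F → (∀ γ U, F (gt src tgt γ U) = F U) →
      E0 * nrm μ (fun _ : Unit => F) ≤ en L μ g mg (fun _ : Unit => F))
    {ι : Type} [Fintype ι] {e : ι → E} (he : Function.Injective e) {CS : ℝ}
    (hCS : ∀ (u : ι → G) (U : E → G), mg U ≤ mg (hat e u * U) + CS)
    {ψ : K → (E → G) → ℂ} (hψ : ∀ κ, C1 L (ψ κ))
    (hinv : ∀ γ U, ∑ κ, ‖ψ κ (gt src tgt γ U)‖ ^ 2 = ∑ κ, ‖ψ κ U‖ ^ 2) :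
    g ^ 2 / 2 * ∑ s, kin L μ (e s) ψ ≤
      en L μ g mg ψ - E0 * nrm μ ψ + 1 / g ^ 2 * CS * nrm μ ψ := by
  classical
  obtain ⟨f, hf, hf0, h⟩ := C1.sq_sum hψ
  set F : (E → G) → ℝ := fun U => ∑ κ, ‖ψ κ U‖ ^ 2 with hF
  have hFC : C1 L F := ⟨f, hf, h⟩
  have hF0 : ∀ U, 0 ≤ F U := fun U => Finset.sum_nonneg fun _ _ => sq_nonneg _
  have hnrm : nrm μ ψ = ∫ U, F U ∂(ME μ E) := by
    unfold nrm
    rw [hF, integral_finsetSum]
    intro κ _
    exact int_cont μ ((hψ κ).cont.norm.pow 2)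
  have hpot : pot μ mg ψ = ∫ U, mg U * F U ∂(ME μ E) := rfl
  -- the kinetic energy of the trial state
  have hk1 : ∀ ε : ℝ, 0 < ε → ∑ x, kin L μ x (fun _ : Unit => fun U => ((tri μ e ψ ε U : ℝ) : ℂ)) ≤
      ∑ x, kin L μ x ψ - ∑ s, kin L μ (e s) ψ := by
    intro ε hε
    have hC := tri_C1 μ he hψ hε
    have h1 : ∑ s, kin L μ (e s) ψ = ∑ x ∈ Finset.univ.image e, kin L μ x ψ := by
      rw [Finset.sum_image fun _ _ _ _ h => he h]
    rw [h1]
    have h2 := Finset.sum_sdiff (f := fun x => kin L μ x ψ) (Finset.subset_univ (Finset.univ.image e))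
    have h3 := Finset.sum_sdiff
      (f := fun x => kin L μ x (fun _ : Unit => fun U => ((tri μ e ψ ε U : ℝ) : ℂ)))
      (Finset.subset_univ (Finset.univ.image e))
    have h4 : ∑ x ∈ Finset.univ.image e,
        kin L μ x (fun _ : Unit => fun U => ((tri μ e ψ ε U : ℝ) : ℂ)) = 0 := by
      refine Finset.sum_eq_zero fun x hx => ?_
      obtain ⟨s, _, rfl⟩ := Finset.mem_image.1 hx
      unfold kin
      refine Finset.sum_eq_zero fun a _ => Finset.sum_eq_zero fun _ _ => ?_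
      simp only [dl_ofReal hC, tri_dl_mem μ he]
      simp
    have h5 : ∑ x ∈ Finset.univ \ Finset.univ.image e,
        kin L μ x (fun _ : Unit => fun U => ((tri μ e ψ ε U : ℝ) : ℂ)) ≤
        ∑ x ∈ Finset.univ \ Finset.univ.image e, kin L μ x ψ := by
      refine Finset.sum_le_sum fun x hx => ?_
      have hx' : ∀ s, e s ≠ x := by
        intro s hs
        refine (Finset.mem_sdiff.1 hx).2 (Finset.mem_image.2 ⟨s, Finset.mem_univ _, hs⟩)
      unfold kin
      refine Finset.sum_le_sum fun a _ => ?_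
      rw [Finset.univ_unique, Finset.sum_singleton]
      have hDc : Continuous fun U => ∑ κ, ‖dl L x a (ψ κ) U‖ ^ 2 :=
        continuous_finsetSum _ fun κ _ => ((hψ κ).dl_cont x a).norm.pow 2
      have h6 : ∑ κ, ∫ U, ‖dl L x a (ψ κ) U‖ ^ 2 ∂(ME μ E) =
          ∫ U, avg μ e (fun U => ∑ κ, ‖dl L x a (ψ κ) U‖ ^ 2) U ∂(ME μ E) := by
        rw [int_avg_one μ he hDc, integral_finsetSum]
        intro κ _
        exact int_cont μ (((hψ κ).dl_cont x a).norm.pow 2)
      rw [h6]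
      refine integral_mono (int_cont μ ?_) (int_cont μ (avg_cont μ he hDc)) fun U => ?_
      · exact ((hC.ofReal.dl_cont x a).norm.pow 2)
      · show ‖dl L x a (fun U => ((tri μ e ψ ε U : ℝ) : ℂ)) U‖ ^ 2 ≤ _
        rw [dl_ofReal hC, Complex.norm_real, Real.norm_eq_abs, sq_abs]
        exact tri_dl_not μ he hψ hε hx' a U
    linarith
  -- norm and potential energy
  have hsq : ∀ ε : ℝ, 0 < ε → ∀ U, ‖((tri μ e ψ ε U : ℝ) : ℂ)‖ ^ 2 = ε + avg μ e F U := by
    intro ε hε U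
    rw [Complex.norm_real, Real.norm_eq_abs, sq_abs]
    refine Real.sq_sqrt ?_
    have := avg_nonneg μ e hF0 U
    exact add_nonneg hε.le this
  have hn1 : ∀ ε : ℝ, 0 < ε →
      nrm μ (fun _ : Unit => fun U => ((tri μ e ψ ε U : ℝ) : ℂ)) = ε + nrm μ ψ := by
    intro ε hε
    rw [hnrm, ← int_avg_one μ he hFC.cont]
    unfold nrm
    rw [Finset.univ_unique, Finset.sum_singleton]
    simp only [hsq ε hε]
    rw [integral_add (integrable_const _) (int_cont μ (avg_cont μ he hFC.cont))]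
    simp
  have hp1 : ∀ ε : ℝ, 0 < ε →
      pot μ mg (fun _ : Unit => fun U => ((tri μ e ψ ε U : ℝ) : ℂ)) ≤
        ε * (∫ U, mg U ∂(ME μ E)) + (pot μ mg ψ + CS * nrm μ ψ) := by
    intro ε hε
    unfold pot
    simp only [Finset.univ_unique, Finset.sum_singleton, hsq ε hε]
    have h1 : (fun U => mg U * (ε + avg μ e F U)) = fun U => ε * mg U + mg U * avg μ e F U := by
      funext U; ring
    have c1 : Continuous fun U => ε * mg U := continuous_const.mul hmg
    have c2 : Continuous fun U => mg U * avg μ e F U := hmg.mul (avg_cont μ he hFC.cont)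
    rw [h1, int_add' μ c1 c2, integral_const_mul]
    refine add_le_add le_rfl ?_
    rw [int_avg μ he hFC.cont hmg]
    have h2 : pot μ mg ψ + CS * nrm μ ψ = ∫ _u : ι → G, ∫ U, (mg U + CS) * F U ∂(ME μ E)
        ∂(Measure.pi fun _ : ι => μ) := by
      rw [hpot, hnrm]
      have h3 : (fun U => (mg U + CS) * F U) = fun U => mg U * F U + CS * F U := by
        funext U; ring
      have c3 : Continuous fun U => mg U * F U := hmg.mul hFC.cont
      have c4 : Continuous fun U => CS * F U := continuous_const.mul hFC.cont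
      rw [h3, int_add' μ c3 c4, integral_const_mul]
      simp
    rw [hpot] at h2
    show _ ≤ ∫ U, mg U * F U ∂(ME μ E) + CS * nrm μ ψ
    rw [h2]
    have hhc : Continuous (hat e : (ι → G) → (E → G)) := hat_cont he
    refine integral_mono ?_ (integrable_const _) fun u => ?_
    · have hc : Continuous (Function.uncurry fun (u : ι → G) (U : E → G) =>
          mg ((hat e u)⁻¹ * U) * F U) :=
        (hmg.comp ((hhc.comp continuous_fst).inv.mul continuous_snd)).mul
          (hFC.cont.comp continuous_snd)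
      have h4 : Integrable (Function.uncurry fun (u : ι → G) (U : E → G) =>
          mg ((hat e u)⁻¹ * U) * F U) ((Measure.pi fun _ : ι => μ).prod (ME μ E)) :=
        hc.integrable_of_hasCompactSupport (HasCompactSupport.of_compactSpace _)
      exact h4.integral_prod_left
    · refine integral_mono (int_cont μ ?_) (int_cont μ ((hmg.add continuous_const).mul hFC.cont))
        fun U => ?_
      · exact (hmg.comp (continuous_const.mul continuous_id)).mul hFC.cont
      · refine mul_le_mul_of_nonneg_right ?_ (hF0 U)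
        have := hCS u ((hat e u)⁻¹ * U)
        rwa [mul_inv_cancel_left] at this
  have hinv' : ∀ ε γ U, ((tri μ e ψ ε (gt src tgt γ U) : ℝ) : ℂ) = ((tri μ e ψ ε U : ℝ) : ℂ) := by
    intro ε γ U
    unfold tri
    rw [avg_gt μ he hinv]
  -- conclusion
  have hmain : ∀ ε : ℝ, 0 < ε → E0 * nrm μ ψ ≤
      g ^ 2 / 2 * (∑ x, kin L μ x ψ - ∑ s, kin L μ (e s) ψ) +
        1 / g ^ 2 * (pot μ mg ψ + CS * nrm μ ψ) +
        ε * (1 / g ^ 2 * (∫ U, mg U ∂(ME μ E)) - E0) := by
    intro ε hε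
    have h1 := hE0 _ (tri_C1 μ he hψ hε).ofReal (hinv' ε)
    rw [hn1 ε hε] at h1
    unfold en at h1
    have h2 := mul_le_mul_of_nonneg_left (hk1 ε hε) (by positivity : 0 ≤ g ^ 2 / 2)
    have h3 := mul_le_mul_of_nonneg_left (hp1 ε hε) (by positivity : 0 ≤ 1 / g ^ 2)
    linarith
  have hlim : E0 * nrm μ ψ ≤ g ^ 2 / 2 * (∑ x, kin L μ x ψ - ∑ s, kin L μ (e s) ψ) +
        1 / g ^ 2 * (pot μ mg ψ + CS * nrm μ ψ) := by
    set B : ℝ := 1 / g ^ 2 * (∫ U, mg U ∂(ME μ E)) - E0 with hB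
    refine le_of_forall_pos_le_add fun δ hδ => ?_
    have h1 := hmain (δ / (|B| + 1)) (by positivity)
    have h2 : δ / (|B| + 1) * B ≤ δ := by
      have h3 : δ / (|B| + 1) * B ≤ δ / (|B| + 1) * (|B| + 1) := by
        refine mul_le_mul_of_nonneg_left ?_ (by positivity)
        linarith [le_abs_self B]
      rwa [div_mul_cancel₀ _ (by positivity : |B| + 1 ≠ 0)] at h3
    linarith
  unfold en
  linarith

end

end Pool.Agent.X168.NA
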