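import Mathlib
import Pool.Agent.X168.NA.Kin2

/-!
# Commutator estimate
-/

open MeasureTheory Matrix Filter Topology
open scoped Matrix.Norms.Frobenius ContDiff

namespace Pool.Agent.X168.NA

set_option linter.unusedSectionVars false

noncomputable section

section algebra

variable {K K' : Type} [Fintype K] [Fintype K']

lemma re_sum_le (x y : K → ℂ) :
    ∑ κ, ((starRingEnd ℂ) (x κ) * y κ).re ≤ √(∑ κ, ‖x κ‖ ^ 2) * √(∑ κ, ‖y κ‖ ^ 2) := by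
  refine le_trans (Finset.sum_le_sum fun κ _ => ?_) (Real.sum_mul_le_sqrt_mul_sqrt _ _ _)
  refine (Complex.re_le_norm _).trans ?_
  rw [norm_mul, Complex.norm_conj]

lemma vec_bound (a : K' → K → ℂ) (v : K → ℂ) :
    ∑ κ', ‖∑ κ, a κ' κ * v κ‖ ^ 2 ≤ (∑ κ', ∑ κ, ‖a κ' κ‖ ^ 2) * ∑ κ, ‖v κ‖ ^ 2 := by
  rw [Finset.sum_mul]
  refine Finset.sum_le_sum fun κ' _ => ?_
  have h1 : ‖∑ κ, a κ' κ * v κ‖ ≤ ∑ κ, ‖a κ' κ‖ * ‖v κ‖ := by
    refine (norm_sum_le _ _).trans (le_of_eq ?_)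
    exact Finset.sum_congr rfl fun κ _ => norm_mul _ _
  exact (pow_le_pow_left₀ (norm_nonneg _) h1 2).trans (Finset.sum_mul_sq_le_sq_mul_sq _ _ _)

lemma swap_aux (a a' : K' → K → ℂ) (v' : K → ℂ) (u w z y : K' → ℂ)
    (hy : y = fun κ' => ∑ κ, a' κ' κ * v' κ) (hz : z = fun κ' => ∑ κ, a κ' κ * v' κ) :
    ∑ κ, (starRingEnd ℂ) (v' κ) * ∑ κ', ((starRingEnd ℂ) (a' κ' κ) * u κ' +
        (starRingEnd ℂ) (a κ' κ) * (w κ' + z κ')) =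
      ∑ κ', ((starRingEnd ℂ) (y κ') * u κ' + (starRingEnd ℂ) (z κ') * (w κ' + z κ')) := by
  simp only [Finset.mul_sum]
  rw [Finset.sum_comm]
  refine Finset.sum_congr rfl fun κ' _ => ?_
  have h2d : (starRingEnd ℂ) (y κ') * u κ' =
      ∑ κ, (starRingEnd ℂ) (a' κ' κ) * (starRingEnd ℂ) (v' κ) * u κ' := by
    rw [← Finset.sum_mul]
    congr 1
    simp only [hy, map_sum, map_mul]
  have h2b : (starRingEnd ℂ) (z κ') * (w κ' + z κ') =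
      ∑ κ, (starRingEnd ℂ) (a κ' κ) * (starRingEnd ℂ) (v' κ) * (w κ' + z κ') := by
    rw [← Finset.sum_mul]
    congr 1
    simp only [hz, map_sum, map_mul]
  rw [h2b, h2d, ← Finset.sum_add_distrib]
  refine Finset.sum_congr rfl fun κ _ => ?_
  ring

/-- the pointwise inequality behind the commutator estimate -/
lemma comm_pt (a a' : K' → K → ℂ) (v v' : K → ℂ) {c0 c1 l : ℝ} (hc0 : 0 ≤ c0) (hc1 : 0 ≤ c1)
    (hl : 0 < l) (ha : ∑ κ', ∑ κ, ‖a κ' κ‖ ^ 2 ≤ c0 ^ 2)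
    (ha' : ∑ κ', ∑ κ, ‖a' κ' κ‖ ^ 2 ≤ c1 ^ 2) :
    ∑ κ', ‖∑ κ, (a' κ' κ * v κ + a κ' κ * v' κ)‖ ^ 2 ≤
      ∑ κ, ((starRingEnd ℂ) (v' κ) * ∑ κ', ((starRingEnd ℂ) (a' κ' κ) * (∑ κ, a κ' κ * v κ) +
        (starRingEnd ℂ) (a κ' κ) * ∑ κ, (a' κ' κ * v κ + a κ' κ * v' κ))).re +
      ((c1 ^ 2 + c1 * c0 * l) * ∑ κ, ‖v κ‖ ^ 2 + c1 * c0 / l * ∑ κ, ‖v' κ‖ ^ 2) := by
  set u : K' → ℂ := fun κ' => ∑ κ, a κ' κ * v κ with hu
  set w : K' → ℂ := fun κ' => ∑ κ, a' κ' κ * v κ with hw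
  set z : K' → ℂ := fun κ' => ∑ κ, a κ' κ * v' κ with hz
  set y : K' → ℂ := fun κ' => ∑ κ, a' κ' κ * v' κ with hy
  set A := ∑ κ, ‖v κ‖ ^ 2 with hA
  set B := ∑ κ, ‖v' κ‖ ^ 2 with hB
  have hA0 : 0 ≤ A := Finset.sum_nonneg fun _ _ => sq_nonneg _
  have hB0 : 0 ≤ B := Finset.sum_nonneg fun _ _ => sq_nonneg _
  have h1 : ∀ κ', ∑ κ, (a' κ' κ * v κ + a κ' κ * v' κ) = w κ' + z κ' := fun κ' => by
    simp only [hw, hz, Finset.sum_add_distrib]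
  simp only [h1]
  have h2 : ∑ κ, ((starRingEnd ℂ) (v' κ) * ∑ κ', ((starRingEnd ℂ) (a' κ' κ) * u κ' +
        (starRingEnd ℂ) (a κ' κ) * (w κ' + z κ'))).re =
      ∑ κ', ((starRingEnd ℂ) (y κ') * u κ' + (starRingEnd ℂ) (z κ') * (w κ' + z κ')).re := by
    have h2a := swap_aux a a' v' u w z y hy hz
    have h2c := congrArg Complex.re h2a
    rw [Complex.re_sum, Complex.re_sum] at h2c
    exact h2c
  show _ ≤ ∑ κ, ((starRingEnd ℂ) (v' κ) * ∑ κ', ((starRingEnd ℂ) (a' κ' κ) * u κ' +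
        (starRingEnd ℂ) (a κ' κ) * (w κ' + z κ'))).re + _
  rw [h2]
  have h3 : ∑ κ', ‖w κ' + z κ'‖ ^ 2 = ∑ κ', ((starRingEnd ℂ) (y κ') * u κ' +
      (starRingEnd ℂ) (z κ') * (w κ' + z κ')).re + (∑ κ', ‖w κ'‖ ^ 2 +
      ∑ κ', ((starRingEnd ℂ) (w κ') * z κ').re + ∑ κ', ((starRingEnd ℂ) (-y κ') * u κ').re) := by
    rw [← Finset.sum_add_distrib, ← Finset.sum_add_distrib, ← Finset.sum_add_distrib]
    refine Finset.sum_congr rfl fun κ' _ => ?_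
    rw [← Complex.normSq_eq_norm_sq, ← Complex.normSq_eq_norm_sq]
    simp [Complex.normSq_apply]
    ring
  rw [h3]
  refine add_le_add le_rfl ?_
  have hw2 : ∑ κ', ‖w κ'‖ ^ 2 ≤ c1 ^ 2 * A :=
    (vec_bound a' v).trans (mul_le_mul_of_nonneg_right ha' hA0)
  have hz2 : ∑ κ', ‖z κ'‖ ^ 2 ≤ c0 ^ 2 * B :=
    (vec_bound a v').trans (mul_le_mul_of_nonneg_right ha hB0)
  have hy2 : ∑ κ', ‖-y κ'‖ ^ 2 ≤ c1 ^ 2 * B := by
    simp only [norm_neg]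
    exact (vec_bound a' v').trans (mul_le_mul_of_nonneg_right ha' hB0)
  have hu2 : ∑ κ', ‖u κ'‖ ^ 2 ≤ c0 ^ 2 * A :=
    (vec_bound a v).trans (mul_le_mul_of_nonneg_right ha hA0)
  have hs : ∀ {c q : ℝ}, 0 ≤ c → √(c ^ 2 * q) = c * √q := by
    intro c q hc
    rw [Real.sqrt_mul (sq_nonneg _), Real.sqrt_sq hc]
  have h4 : ∑ κ', ((starRingEnd ℂ) (w κ') * z κ').re ≤ c1 * √A * (c0 * √B) := by
    refine (re_sum_le _ _).trans ?_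
    rw [← hs hc1, ← hs hc0]
    exact mul_le_mul (Real.sqrt_le_sqrt hw2) (Real.sqrt_le_sqrt hz2) (Real.sqrt_nonneg _)
      (Real.sqrt_nonneg _)
  have h5 : ∑ κ', ((starRingEnd ℂ) (-y κ') * u κ').re ≤ c1 * √B * (c0 * √A) := by
    refine (re_sum_le _ _).trans ?_
    rw [← hs hc1, ← hs hc0]
    exact mul_le_mul (Real.sqrt_le_sqrt hy2) (Real.sqrt_le_sqrt hu2) (Real.sqrt_nonneg _)
      (Real.sqrt_nonneg _)
  have h6 : 2 * (√A * √B) ≤ l * A + B / l := by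
    have e1 : √A ^ 2 = A := Real.sq_sqrt hA0
    have e2 : √B ^ 2 = B := Real.sq_sqrt hB0
    have h7 : 0 ≤ (l * √A - √B) ^ 2 := sq_nonneg _
    have h7' : (l * √A - √B) ^ 2 = l ^ 2 * A - 2 * l * (√A * √B) + B := by
      rw [sub_sq, mul_pow, e1, e2]; ring
    have h8 : l * (2 * (√A * √B)) ≤ l * (l * A + B / l) := by
      rw [mul_add, mul_div_cancel₀ _ hl.ne']
      rw [h7'] at h7
      linarith
    exact le_of_mul_le_mul_left h8 hl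
  have h9 : c1 * c0 * (2 * (√A * √B)) ≤ c1 * c0 * (l * A + B / l) :=
    mul_le_mul_of_nonneg_left h6 (by positivity)
  have h10 : c1 * c0 / l * B = c1 * c0 * (B / l) := by ring
  rw [h10]
  nlinarith

end algebra

variable {G : Type} [Group G] [TopologicalSpace G] {N n : ℕ} {L : GD G N n}
  {E : Type} [Fintype E] [DecidableEq E]
  [IsTopologicalGroup G] [CompactSpace G] [SecondCountableTopology G]
  [MeasurableSpace G] [BorelSpace G] (μ : Measure G) [IsProbabilityMeasure μ]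
  {K K' : Type} [Fintype K] [Fintype K']

/-- real part of the scalar product -/
def ip (ψ χ : K → (E → G) → ℂ) : ℝ :=
  ∑ κ, ∫ U, ((starRingEnd ℂ) (ψ κ U) * χ κ U).re ∂(ME μ E)

variable (L) in
/-- the kinetic form -/
def kin2 (e : E) (ψ χ : K → (E → G) → ℂ) : ℝ :=
  ∑ a, ∑ κ, ∫ U, ((starRingEnd ℂ) (dl L e a (ψ κ) U) * dl L e a (χ κ) U).re ∂(ME μ E)

/-- the potential form -/
def pot2 (mg : (E → G) → ℝ) (ψ χ : K → (E → G) → ℂ) : ℝ :=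
  ∑ κ, ∫ U, mg U * ((starRingEnd ℂ) (ψ κ U) * χ κ U).re ∂(ME μ E)

variable (L) in
/-- the energy form -/
def en2 (g : ℝ) (mg : (E → G) → ℝ) (ψ χ : K → (E → G) → ℂ) : ℝ :=
  g ^ 2 / 2 * ∑ e, kin2 L μ e ψ χ + 1 / g ^ 2 * pot2 μ mg ψ χ

lemma int_add2 {F H : (E → G) → ℝ} (hF : Continuous F) (hH : Continuous H) :
    ∫ U, (F U + H U) ∂(ME μ E) = ∫ U, F U ∂(ME μ E) + ∫ U, H U ∂(ME μ E) :=
  integral_add (int_cont μ hF) (int_cont μ hH)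

lemma int_expand {a b : (E → G) → ℂ} (ha : Continuous a) (hb : Continuous b) (t : ℝ)
    {w : (E → G) → ℝ} (hw : Continuous w) :
    ∫ U, w U * ‖a U + t * b U‖ ^ 2 ∂(ME μ E) = ∫ U, w U * ‖a U‖ ^ 2 ∂(ME μ E) +
      2 * t * ∫ U, w U * ((starRingEnd ℂ) (a U) * b U).re ∂(ME μ E) +
      t ^ 2 * ∫ U, w U * ‖b U‖ ^ 2 ∂(ME μ E) := by
  have h1 : (fun U => w U * ‖a U + t * b U‖ ^ 2) = fun U => (w U * ‖a U‖ ^ 2 +
      2 * t * (w U * ((starRingEnd ℂ) (a U) * b U).re)) + t ^ 2 * (w U * ‖b U‖ ^ 2) := by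
    funext U
    rw [← Complex.normSq_eq_norm_sq, ← Complex.normSq_eq_norm_sq, ← Complex.normSq_eq_norm_sq]
    simp [Complex.normSq_apply]
    ring
  have c1 : Continuous fun U => w U * ‖a U‖ ^ 2 := hw.mul (ha.norm.pow 2)
  have c2 : Continuous fun U => w U * ((starRingEnd ℂ) (a U) * b U).re :=
    hw.mul (Complex.continuous_re.comp ((Complex.continuous_conj.comp ha).mul hb))
  have c3 : Continuous fun U => w U * ‖b U‖ ^ 2 := hw.mul (hb.norm.pow 2)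
  have c2' : Continuous fun U => 2 * t * (w U * ((starRingEnd ℂ) (a U) * b U).re) :=
    continuous_const.mul c2
  have c3' : Continuous fun U => t ^ 2 * (w U * ‖b U‖ ^ 2) := continuous_const.mul c3
  have c12 : Continuous fun U => w U * ‖a U‖ ^ 2 +
      2 * t * (w U * ((starRingEnd ℂ) (a U) * b U).re) := c1.add c2'
  rw [h1, int_add2 μ c12 c3', int_add2 μ c1 c2', integral_const_mul, integral_const_mul]

lemma pot_sum {mg : (E → G) → ℝ} (hmg : Continuous mg) {ψ : K → (E → G) → ℂ}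
    (hψ : ∀ κ, Continuous (ψ κ)) : pot μ mg ψ = ∑ κ, ∫ U, mg U * ‖ψ κ U‖ ^ 2 ∂(ME μ E) := by
  unfold pot
  rw [← integral_finsetSum]
  · simp only [Finset.mul_sum]
  · intro κ _
    exact int_cont μ (hmg.mul ((hψ κ).norm.pow 2))

/-- `ψ + t χ` -/
def lin (ψ χ : K → (E → G) → ℂ) (t : ℝ) : K → (E → G) → ℂ := fun κ U => ψ κ U + t * χ κ U

lemma lin_C1 {ψ χ : K → (E → G) → ℂ} (hψ : ∀ κ, C1 L (ψ κ)) (hχ : ∀ κ, C1 L (χ κ)) (t : ℝ)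
    (κ : K) : C1 L (lin ψ χ t κ) := (hψ κ).add ((C1.const (t : ℂ)).mul (hχ κ))

lemma dl_lin {ψ χ : K → (E → G) → ℂ} (hψ : ∀ κ, C1 L (ψ κ)) (hχ : ∀ κ, C1 L (χ κ)) (t : ℝ)
    (κ : K) (e : E) (a : Fin n) (U : E → G) :
    dl L e a (lin ψ χ t κ) U = dl L e a (ψ κ) U + t * dl L e a (χ κ) U := by
  have h := dl_add (hψ κ) ((C1.const (t : ℂ)).mul (hχ κ)) e a U
  rw [dl_mul (C1.const (t : ℂ)) (hχ κ), dl_const, zero_mul, zero_add] at h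
  exact h

lemma nrm_lin {ψ χ : K → (E → G) → ℂ} (hψ : ∀ κ, C1 L (ψ κ)) (hχ : ∀ κ, C1 L (χ κ)) (t : ℝ) :
    nrm μ (lin ψ χ t) = nrm μ ψ + 2 * t * ip μ ψ χ + t ^ 2 * nrm μ χ := by
  unfold nrm ip lin
  rw [Finset.mul_sum, Finset.mul_sum, ← Finset.sum_add_distrib, ← Finset.sum_add_distrib]
  refine Finset.sum_congr rfl fun κ _ => ?_
  have h := int_expand μ (hψ κ).cont (hχ κ).cont t (w := fun _ => 1) continuous_const
  simpa only [one_mul] using h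

lemma kin_lin {ψ χ : K → (E → G) → ℂ} (hψ : ∀ κ, C1 L (ψ κ)) (hχ : ∀ κ, C1 L (χ κ)) (t : ℝ)
    (e : E) :
    kin L μ e (lin ψ χ t) = kin L μ e ψ + 2 * t * kin2 L μ e ψ χ + t ^ 2 * kin L μ e χ := by
  unfold kin kin2
  rw [Finset.mul_sum, Finset.mul_sum, ← Finset.sum_add_distrib, ← Finset.sum_add_distrib]
  refine Finset.sum_congr rfl fun a _ => ?_
  rw [Finset.mul_sum, Finset.mul_sum, ← Finset.sum_add_distrib, ← Finset.sum_add_distrib]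
  refine Finset.sum_congr rfl fun κ _ => ?_
  simp only [dl_lin hψ hχ]
  have h := int_expand μ ((hψ κ).dl_cont e a) ((hχ κ).dl_cont e a) t (w := fun _ => 1)
    continuous_const
  simpa only [one_mul] using h

lemma pot_lin {mg : (E → G) → ℝ} (hmg : Continuous mg) {ψ χ : K → (E → G) → ℂ}
    (hψ : ∀ κ, C1 L (ψ κ)) (hχ : ∀ κ, C1 L (χ κ)) (t : ℝ) :
    pot μ mg (lin ψ χ t) = pot μ mg ψ + 2 * t * pot2 μ mg ψ χ + t ^ 2 * pot μ mg χ := by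
  rw [pot_sum μ hmg fun κ => (lin_C1 hψ hχ t κ).cont, pot_sum μ hmg fun κ => (hψ κ).cont,
    pot_sum μ hmg fun κ => (hχ κ).cont]
  unfold pot2 lin
  rw [Finset.mul_sum, Finset.mul_sum, ← Finset.sum_add_distrib, ← Finset.sum_add_distrib]
  refine Finset.sum_congr rfl fun κ _ => ?_
  exact int_expand μ (hψ κ).cont (hχ κ).cont t hmg

lemma en_lin {g : ℝ} {mg : (E → G) → ℝ} (hmg : Continuous mg) {ψ χ : K → (E → G) → ℂ}
    (hψ : ∀ κ, C1 L (ψ κ)) (hχ : ∀ κ, C1 L (χ κ)) (t : ℝ) :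
    en L μ g mg (lin ψ χ t) = en L μ g mg ψ + 2 * t * en2 L μ g mg ψ χ +
      t ^ 2 * en L μ g mg χ := by
  unfold en en2
  rw [pot_lin μ hmg hψ hχ t]
  simp only [kin_lin μ hψ hχ t, Finset.sum_add_distrib, ← Finset.mul_sum]
  ring

/-- Cauchy–Schwarz for a near minimiser -/
lemma form_le {g : ℝ} {mg : (E → G) → ℝ} (hmg : Continuous mg) {ψ χ : K → (E → G) → ℂ}
    (hψ : ∀ κ, C1 L (ψ κ)) (hχ : ∀ κ, C1 L (χ κ)) {E1 : ℝ}
    (h : ∀ t : ℝ, E1 * nrm μ (lin ψ χ t) ≤ en L μ g mg (lin ψ χ t)) {t : ℝ} (ht : 0 < t) :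
    en2 L μ g mg ψ χ - E1 * ip μ ψ χ ≤
      (en L μ g mg ψ - E1 * nrm μ ψ) / (2 * t) + t / 2 * (en L μ g mg χ - E1 * nrm μ χ) := by
  have h1 := h (-t)
  rw [en_lin μ hmg hψ hχ, nrm_lin μ hψ hχ] at h1
  have h2 : 2 * t * (en2 L μ g mg ψ χ - E1 * ip μ ψ χ) ≤
      2 * t * ((en L μ g mg ψ - E1 * nrm μ ψ) / (2 * t) +
        t / 2 * (en L μ g mg χ - E1 * nrm μ χ)) := by
    rw [mul_add, mul_div_cancel₀ _ (by positivity : (2 * t) ≠ 0)]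
    nlinarith
  exact le_of_mul_le_mul_left h2 (by positivity)

/-! ### multiplication operators -/

/-- the matrix `A` applied to `ψ` -/
def app (A : K' → K → (E → G) → ℂ) (ψ : K → (E → G) → ℂ) : K' → (E → G) → ℂ :=
  fun κ' U => ∑ κ, A κ' κ U * ψ κ U

/-- the adjoint matrix -/
def adj (A : K' → K → (E → G) → ℂ) : K → K' → (E → G) → ℂ :=
  fun κ κ' U => (starRingEnd ℂ) (A κ' κ U)

lemma app_C1 {A : K' → K → (E → G) → ℂ} (hA : ∀ κ' κ, C1 L (A κ' κ)) {ψ : K → (E → G) → ℂ}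
    (hψ : ∀ κ, C1 L (ψ κ)) (κ' : K') : C1 L (app A ψ κ') :=
  C1.sum _ fun κ _ => (hA κ' κ).mul (hψ κ)

lemma adj_C1 {A : K' → K → (E → G) → ℂ} (hA : ∀ κ' κ, C1 L (A κ' κ)) (κ : K) (κ' : K') :
    C1 L (adj A κ κ') := (hA κ' κ).conj

lemma dl_app {A : K' → K → (E → G) → ℂ} (hA : ∀ κ' κ, C1 L (A κ' κ)) {ψ : K → (E → G) → ℂ}
    (hψ : ∀ κ, C1 L (ψ κ)) (κ' : K') (e : E) (a : Fin n) (U : E → G) :
    dl L e a (app A ψ κ') U =
      ∑ κ, (dl L e a (A κ' κ) U * ψ κ U + A κ' κ U * dl L e a (ψ κ) U) := by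
  have h := dl_sum (L := L) Finset.univ (F := fun κ U => A κ' κ U * ψ κ U)
    (fun κ _ => (hA κ' κ).mul (hψ κ)) e a U
  rw [show app A ψ κ' = fun U => ∑ κ, A κ' κ U * ψ κ U from rfl, h]
  exact Finset.sum_congr rfl fun κ _ => dl_mul (hA κ' κ) (hψ κ) e a U

lemma dl_adj {A : K' → K → (E → G) → ℂ} (hA : ∀ κ' κ, C1 L (A κ' κ)) (κ : K) (κ' : K') (e : E)
    (a : Fin n) (U : E → G) :
    dl L e a (adj A κ κ') U = (starRingEnd ℂ) (dl L e a (A κ' κ) U) := dl_conj (hA κ' κ) e a U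

/-- kinetic commutator estimate for one link -/
lemma kin_app {A : K' → K → (E → G) → ℂ} (hA : ∀ κ' κ, C1 L (A κ' κ)) {ψ : K → (E → G) → ℂ}
    (hψ : ∀ κ, C1 L (ψ κ)) {c0 c1 l : ℝ} (hc0 : 0 ≤ c0) (hc1 : 0 ≤ c1) (hl : 0 < l) (e : E)
    (h0 : ∀ U, ∑ κ', ∑ κ, ‖A κ' κ U‖ ^ 2 ≤ c0 ^ 2)
    (h1 : ∀ a U, ∑ κ', ∑ κ, ‖dl L e a (A κ' κ) U‖ ^ 2 ≤ c1 ^ 2) :
    kin L μ e (app A ψ) ≤ kin2 L μ e ψ (app (adj A) (app A ψ)) +
      (n * (c1 ^ 2 + c1 * c0 * l) * nrm μ ψ + c1 * c0 / l * kin L μ e ψ) := by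
  unfold kin kin2 nrm
  have hsum : (n * (c1 ^ 2 + c1 * c0 * l) * ∑ κ, ∫ U, ‖ψ κ U‖ ^ 2 ∂(ME μ E) +
      c1 * c0 / l * ∑ a : Fin n, ∑ κ, ∫ U, ‖dl L e a (ψ κ) U‖ ^ 2 ∂(ME μ E)) =
      ∑ a : Fin n, ((c1 ^ 2 + c1 * c0 * l) * ∑ κ, ∫ U, ‖ψ κ U‖ ^ 2 ∂(ME μ E) +
        c1 * c0 / l * ∑ κ, ∫ U, ‖dl L e a (ψ κ) U‖ ^ 2 ∂(ME μ E)) := by
    simp only [Finset.sum_add_distrib, Finset.sum_const, Finset.card_univ,
      Fintype.card_fin, nsmul_eq_mul, ← Finset.mul_sum]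
    ring
  rw [hsum, ← Finset.sum_add_distrib]
  refine Finset.sum_le_sum fun a _ => ?_
  have hB : ∀ κ, C1 L (app (adj A) (app A ψ) κ) := app_C1 (adj_C1 hA) (app_C1 hA hψ)
  have cA : ∀ κ', Continuous fun U => ‖dl L e a (app A ψ κ') U‖ ^ 2 := fun κ' =>
    ((app_C1 hA hψ κ').dl_cont e a).norm.pow 2
  have cB : ∀ κ, Continuous fun U =>
      ((starRingEnd ℂ) (dl L e a (ψ κ) U) * dl L e a (app (adj A) (app A ψ) κ) U).re := fun κ =>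
    Complex.continuous_re.comp ((Complex.continuous_conj.comp ((hψ κ).dl_cont e a)).mul
      ((hB κ).dl_cont e a))
  have cC : ∀ κ, Continuous fun U => ‖ψ κ U‖ ^ 2 := fun κ => (hψ κ).cont.norm.pow 2
  have cD : ∀ κ, Continuous fun U => ‖dl L e a (ψ κ) U‖ ^ 2 := fun κ =>
    ((hψ κ).dl_cont e a).norm.pow 2
  have iA : ∑ κ', ∫ U, ‖dl L e a (app A ψ κ') U‖ ^ 2 ∂(ME μ E) =
      ∫ U, ∑ κ', ‖dl L e a (app A ψ κ') U‖ ^ 2 ∂(ME μ E) :=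
    (integral_finsetSum _ fun κ' _ => int_cont μ (cA κ')).symm
  have iB : ∑ κ, ∫ U, ((starRingEnd ℂ) (dl L e a (ψ κ) U) *
        dl L e a (app (adj A) (app A ψ) κ) U).re ∂(ME μ E) =
      ∫ U, ∑ κ, ((starRingEnd ℂ) (dl L e a (ψ κ) U) *
        dl L e a (app (adj A) (app A ψ) κ) U).re ∂(ME μ E) :=
    (integral_finsetSum _ fun κ' _ => int_cont μ (cB κ')).symm
  have iC : ∑ κ, ∫ U, ‖ψ κ U‖ ^ 2 ∂(ME μ E) = ∫ U, ∑ κ, ‖ψ κ U‖ ^ 2 ∂(ME μ E) :=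
    (integral_finsetSum _ fun κ' _ => int_cont μ (cC κ')).symm
  have iD : ∑ κ, ∫ U, ‖dl L e a (ψ κ) U‖ ^ 2 ∂(ME μ E) =
      ∫ U, ∑ κ, ‖dl L e a (ψ κ) U‖ ^ 2 ∂(ME μ E) :=
    (integral_finsetSum _ fun κ' _ => int_cont μ (cD κ')).symm
  rw [iA, iB, iC, iD, ← integral_const_mul, ← integral_const_mul]
  have sA : Continuous fun U => ∑ κ', ‖dl L e a (app A ψ κ') U‖ ^ 2 :=
    continuous_finsetSum _ fun κ' _ => cA κ'
  have sB : Continuous fun U => ∑ κ, ((starRingEnd ℂ) (dl L e a (ψ κ) U) *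
        dl L e a (app (adj A) (app A ψ) κ) U).re := continuous_finsetSum _ fun κ' _ => cB κ'
  have sC : Continuous fun U => (c1 ^ 2 + c1 * c0 * l) * ∑ κ, ‖ψ κ U‖ ^ 2 :=
    continuous_const.mul (continuous_finsetSum _ fun κ' _ => cC κ')
  have sD : Continuous fun U => c1 * c0 / l * ∑ κ, ‖dl L e a (ψ κ) U‖ ^ 2 :=
    continuous_const.mul (continuous_finsetSum _ fun κ' _ => cD κ')
  have sCD : Continuous fun U => (c1 ^ 2 + c1 * c0 * l) * ∑ κ, ‖ψ κ U‖ ^ 2 +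
      c1 * c0 / l * ∑ κ, ‖dl L e a (ψ κ) U‖ ^ 2 := sC.add sD
  rw [← int_add2 μ sC sD, ← int_add2 μ sB sCD]
  refine integral_mono (int_cont μ sA) (int_cont μ (sB.add sCD)) fun U => ?_
  have h := comm_pt (fun κ' κ => A κ' κ U) (fun κ' κ => dl L e a (A κ' κ) U)
    (fun κ => ψ κ U) (fun κ => dl L e a (ψ κ) U) hc0 hc1 hl (h0 U) (h1 a U)
  simp only [dl_app hA hψ, dl_app (adj_C1 hA) (app_C1 hA hψ), dl_adj hA]
  exact h


lemma app_pt (a : K' → K → ℂ) (v : K → ℂ) :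
    ∑ κ', ‖∑ κ, a κ' κ * v κ‖ ^ 2 =
      ∑ κ, ((starRingEnd ℂ) (v κ) * ∑ κ', (starRingEnd ℂ) (a κ' κ) * ∑ κ, a κ' κ * v κ).re := by
  have h1 : ∑ κ, (starRingEnd ℂ) (v κ) * ∑ κ', (starRingEnd ℂ) (a κ' κ) * ∑ κ, a κ' κ * v κ =
      ∑ κ', (starRingEnd ℂ) (∑ κ, a κ' κ * v κ) * ∑ κ, a κ' κ * v κ := by
    simp only [Finset.mul_sum _ _ ((starRingEnd ℂ) (v _))]
    rw [Finset.sum_comm]
    refine Finset.sum_congr rfl fun κ' _ => ?_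
    rw [map_sum, Finset.sum_mul]
    refine Finset.sum_congr rfl fun κ _ => ?_
    rw [map_mul]
    ring
  have h2 := congrArg Complex.re h1
  rw [Complex.re_sum, Complex.re_sum] at h2
  rw [h2]
  refine Finset.sum_congr rfl fun κ' _ => ?_
  rw [← Complex.normSq_eq_norm_sq, mul_comm, Complex.mul_conj, Complex.ofReal_re]

lemma nrm_app {A : K' → K → (E → G) → ℂ} (hA : ∀ κ' κ, C1 L (A κ' κ)) {ψ : K → (E → G) → ℂ}
    (hψ : ∀ κ, C1 L (ψ κ)) :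
    nrm μ (app A ψ) = ip μ ψ (app (adj A) (app A ψ)) := by
  unfold nrm ip
  rw [← integral_finsetSum, ← integral_finsetSum]
  · refine integral_congr_ae (Eventually.of_forall fun U => ?_)
    exact app_pt (fun κ' κ => A κ' κ U) (fun κ => ψ κ U)
  · intro κ _
    exact int_cont μ (Complex.continuous_re.comp ((Complex.continuous_conj.comp
      (hψ κ).cont).mul (app_C1 (adj_C1 hA) (app_C1 hA hψ) κ).cont))
  · intro κ _
    exact int_cont μ ((app_C1 hA hψ κ).cont.norm.pow 2)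

lemma pot_app {mg : (E → G) → ℝ} (hmg : Continuous mg) {A : K' → K → (E → G) → ℂ}
    (hA : ∀ κ' κ, C1 L (A κ' κ)) {ψ : K → (E → G) → ℂ} (hψ : ∀ κ, C1 L (ψ κ)) :
    pot μ mg (app A ψ) = pot2 μ mg ψ (app (adj A) (app A ψ)) := by
  unfold pot pot2
  rw [← integral_finsetSum]
  · refine integral_congr_ae (Eventually.of_forall fun U => ?_)
    show mg U * _ = ∑ κ, mg U * _
    rw [← Finset.mul_sum]
    congr 1
    exact app_pt (fun κ' κ => A κ' κ U) (fun κ => ψ κ U)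
  · intro κ _
    exact int_cont μ (hmg.mul (Complex.continuous_re.comp ((Complex.continuous_conj.comp
      (hψ κ).cont).mul (app_C1 (adj_C1 hA) (app_C1 hA hψ) κ).cont)))

/-- **Commutator estimate.** -/
theorem en_app {g : ℝ} {mg : (E → G) → ℝ} (hmg : Continuous mg) {A : K' → K → (E → G) → ℂ}
    (hA : ∀ κ' κ, C1 L (A κ' κ)) {ψ : K → (E → G) → ℂ} (hψ : ∀ κ, C1 L (ψ κ)) {c0 c1 l : ℝ}
    (hc0 : 0 ≤ c0) (hc1 : 0 ≤ c1) (hl : 0 < l) (T : Finset E)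
    (h0 : ∀ U, ∑ κ', ∑ κ, ‖A κ' κ U‖ ^ 2 ≤ c0 ^ 2)
    (h1 : ∀ e ∈ T, ∀ a U, ∑ κ', ∑ κ, ‖dl L e a (A κ' κ) U‖ ^ 2 ≤ c1 ^ 2)
    (h2 : ∀ e ∉ T, ∀ a U κ' κ, dl L e a (A κ' κ) U = 0) :
    en L μ g mg (app A ψ) ≤ en2 L μ g mg ψ (app (adj A) (app A ψ)) +
      g ^ 2 / 2 * (T.card * (n * (c1 ^ 2 + c1 * c0 * l)) * nrm μ ψ +
        c1 * c0 / l * ∑ e ∈ T, kin L μ e ψ) := by
  have hin : ∀ e ∈ T, kin L μ e (app A ψ) ≤ kin2 L μ e ψ (app (adj A) (app A ψ)) +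
      (n * (c1 ^ 2 + c1 * c0 * l) * nrm μ ψ + c1 * c0 / l * kin L μ e ψ) := fun e he =>
    kin_app μ hA hψ hc0 hc1 hl e h0 (h1 e he)
  have hout : ∀ e ∈ Finset.univ \ T, kin L μ e (app A ψ) ≤
      kin2 L μ e ψ (app (adj A) (app A ψ)) := by
    intro e he
    have h3 : e ∉ T := (Finset.mem_sdiff.1 he).2
    have h4 := kin_app μ hA hψ hc0 (le_refl (0:ℝ)) hl e h0 (fun a U => by
      simp [h2 e h3 a U])
    simpa using h4
  have h5 := Finset.sum_sdiff (f := fun e => kin L μ e (app A ψ)) (Finset.subset_univ T)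
  have h6 := Finset.sum_sdiff (f := fun e => kin2 L μ e ψ (app (adj A) (app A ψ)))
    (Finset.subset_univ T)
  have h7 := Finset.sum_le_sum hin
  have h8 := Finset.sum_le_sum hout
  rw [Finset.sum_add_distrib, Finset.sum_add_distrib, Finset.sum_const, nsmul_eq_mul,
    ← Finset.mul_sum] at h7
  unfold en en2
  rw [pot_app μ hmg hA hψ]
  have h9 : ∑ e, kin L μ e (app A ψ) ≤ ∑ e, kin2 L μ e ψ (app (adj A) (app A ψ)) +
      (T.card * (n * (c1 ^ 2 + c1 * c0 * l)) * nrm μ ψ + c1 * c0 / l * ∑ e ∈ T, kin L μ e ψ) := by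
    rw [← h5, ← h6]
    linarith
  have h10 := mul_le_mul_of_nonneg_left h9 (by positivity : 0 ≤ g ^ 2 / 2)
  linarith

/-- crude bound of the norm and the energy of `A ψ` -/
lemma crude {g : ℝ} {mg : (E → G) → ℝ} (hmg : Continuous mg) (hmg0 : ∀ U, 0 ≤ mg U)
    {A : K' → K → (E → G) → ℂ} (hA : ∀ κ' κ, C1 L (A κ' κ)) {b0 b1 : ℝ}
    (h0 : ∀ U, ∑ κ', ∑ κ, ‖A κ' κ U‖ ^ 2 ≤ b0)
    (h1 : ∀ e a U, ∑ κ', ∑ κ, ‖dl L e a (A κ' κ) U‖ ^ 2 ≤ b1)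
    {ψ : K → (E → G) → ℂ} (hψ : ∀ κ, C1 L (ψ κ)) :
    nrm μ (app A ψ) ≤ b0 * nrm μ ψ ∧
      en L μ g mg (app A ψ) ≤ 2 * b0 * en L μ g mg ψ +
        g ^ 2 / 2 * (Fintype.card E * n * (2 * b1)) * nrm μ ψ := by
  have hnψ : ∀ U, 0 ≤ ∑ κ, ‖ψ κ U‖ ^ 2 := fun U => Finset.sum_nonneg fun _ _ => sq_nonneg _
  have cC : ∀ κ, Continuous fun U => ‖ψ κ U‖ ^ 2 := fun κ => (hψ κ).cont.norm.pow 2
  have cA : ∀ κ', Continuous fun U => ‖app A ψ κ' U‖ ^ 2 := fun κ' =>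
    (app_C1 hA hψ κ').cont.norm.pow 2
  have sC : Continuous fun U => ∑ κ, ‖ψ κ U‖ ^ 2 := continuous_finsetSum _ fun κ _ => cC κ
  have sA : Continuous fun U => ∑ κ', ‖app A ψ κ' U‖ ^ 2 := continuous_finsetSum _ fun κ _ => cA κ
  have hpt : ∀ U, ∑ κ', ‖app A ψ κ' U‖ ^ 2 ≤ b0 * ∑ κ, ‖ψ κ U‖ ^ 2 := fun U =>
    (vec_bound (fun κ' κ => A κ' κ U) (fun κ => ψ κ U)).trans
      (mul_le_mul_of_nonneg_right (h0 U) (hnψ U))
  have hb0 : 0 ≤ b0 := le_trans (Finset.sum_nonneg fun _ _ => Finset.sum_nonneg fun _ _ =>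
    sq_nonneg _) (h0 1)
  have hnrm : nrm μ (app A ψ) ≤ b0 * nrm μ ψ := by
    unfold nrm
    rw [← integral_finsetSum _ fun κ _ => int_cont μ (cC κ),
      ← integral_finsetSum _ fun κ _ => int_cont μ (cA κ), ← integral_const_mul]
    exact integral_mono (int_cont μ sA) (int_cont μ (continuous_const.mul sC)) hpt
  refine ⟨hnrm, ?_⟩
  have hpot : pot μ mg (app A ψ) ≤ b0 * pot μ mg ψ := by
    unfold pot
    rw [← integral_const_mul]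
    refine integral_mono (int_cont μ (hmg.mul sA))
      (int_cont μ (continuous_const.mul (hmg.mul sC))) fun U => ?_
    have := mul_le_mul_of_nonneg_left (hpt U) (hmg0 U)
    show mg U * _ ≤ b0 * (mg U * _)
    linarith
  have hpot0 : 0 ≤ pot μ mg ψ := integral_nonneg fun U => mul_nonneg (hmg0 U) (hnψ U)
  have hkin : ∀ e, kin L μ e (app A ψ) ≤ n * (2 * b1) * nrm μ ψ + 2 * b0 * kin L μ e ψ := by
    intro e
    unfold kin nrm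
    have hsum : n * (2 * b1) * (∑ κ, ∫ U, ‖ψ κ U‖ ^ 2 ∂(ME μ E)) +
        2 * b0 * ∑ a : Fin n, ∑ κ, ∫ U, ‖dl L e a (ψ κ) U‖ ^ 2 ∂(ME μ E) =
        ∑ a : Fin n, ((2 * b1) * (∑ κ, ∫ U, ‖ψ κ U‖ ^ 2 ∂(ME μ E)) +
          2 * b0 * ∑ κ, ∫ U, ‖dl L e a (ψ κ) U‖ ^ 2 ∂(ME μ E)) := by
      simp only [Finset.sum_add_distrib, Finset.sum_const, Finset.card_univ,
        Fintype.card_fin, nsmul_eq_mul, ← Finset.mul_sum]
      ring
    rw [hsum]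
    refine Finset.sum_le_sum fun a _ => ?_
    have cD : ∀ κ, Continuous fun U => ‖dl L e a (ψ κ) U‖ ^ 2 := fun κ =>
      ((hψ κ).dl_cont e a).norm.pow 2
    have cE : ∀ κ', Continuous fun U => ‖dl L e a (app A ψ κ') U‖ ^ 2 := fun κ' =>
      ((app_C1 hA hψ κ').dl_cont e a).norm.pow 2
    rw [← integral_finsetSum _ fun κ _ => int_cont μ (cC κ),
      ← integral_finsetSum _ fun κ _ => int_cont μ (cD κ),
      ← integral_finsetSum _ fun κ _ => int_cont μ (cE κ), ← integral_const_mul,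
      ← integral_const_mul]
    have sD : Continuous fun U => 2 * b0 * ∑ κ, ‖dl L e a (ψ κ) U‖ ^ 2 :=
      continuous_const.mul (continuous_finsetSum _ fun κ _ => cD κ)
    have sE : Continuous fun U => ∑ κ', ‖dl L e a (app A ψ κ') U‖ ^ 2 :=
      continuous_finsetSum _ fun κ _ => cE κ
    have sC' : Continuous fun U => 2 * b1 * ∑ κ, ‖ψ κ U‖ ^ 2 := continuous_const.mul sC
    rw [← int_add2 μ sC' sD]
    refine integral_mono (int_cont μ sE) (int_cont μ (sC'.add sD)) fun U => ?_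
    show ∑ κ', ‖dl L e a (app A ψ κ') U‖ ^ 2 ≤ 2 * b1 * (∑ κ, ‖ψ κ U‖ ^ 2) +
      2 * b0 * ∑ κ, ‖dl L e a (ψ κ) U‖ ^ 2
    have v1 := vec_bound (fun κ' κ => dl L e a (A κ' κ) U) (fun κ => ψ κ U)
    have v2 := vec_bound (fun κ' κ => A κ' κ U) (fun κ => dl L e a (ψ κ) U)
    have v3 : ∑ κ', ‖dl L e a (app A ψ κ') U‖ ^ 2 ≤
        2 * (∑ κ', ‖∑ κ, dl L e a (A κ' κ) U * ψ κ U‖ ^ 2) +
        2 * ∑ κ', ‖∑ κ, A κ' κ U * dl L e a (ψ κ) U‖ ^ 2 := by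
      rw [Finset.mul_sum, Finset.mul_sum, ← Finset.sum_add_distrib]
      refine Finset.sum_le_sum fun κ' _ => ?_
      rw [dl_app hA hψ, Finset.sum_add_distrib]
      have := norm_add_le (∑ κ, dl L e a (A κ' κ) U * ψ κ U) (∑ κ, A κ' κ U * dl L e a (ψ κ) U)
      have h3 := pow_le_pow_left₀ (norm_nonneg _) this 2
      nlinarith [sq_nonneg (‖∑ κ, dl L e a (A κ' κ) U * ψ κ U‖ -
        ‖∑ κ, A κ' κ U * dl L e a (ψ κ) U‖)]
    have v4 := mul_le_mul_of_nonneg_right (h1 e a U) (hnψ U)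
    have v6 : 0 ≤ ∑ κ, ‖dl L e a (ψ κ) U‖ ^ 2 := Finset.sum_nonneg fun κ _ => sq_nonneg _
    have v5 := mul_le_mul_of_nonneg_right (h0 U) v6
    linarith
  have hk := Finset.sum_le_sum fun e (_ : e ∈ Finset.univ) => hkin e
  rw [Finset.sum_add_distrib, Finset.sum_const, Finset.card_univ, nsmul_eq_mul,
    ← Finset.mul_sum] at hk
  unfold en
  have h3 := mul_le_mul_of_nonneg_left hk (by positivity : 0 ≤ g ^ 2 / 2)
  have h4 := mul_le_mul_of_nonneg_left hpot (by positivity : 0 ≤ 1 / g ^ 2)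
  have h5 : 0 ≤ 1 / g ^ 2 * (b0 * pot μ mg ψ) := by positivity
  linarith

/-- **Comparison of two sectors**, abstract form. -/
theorem compare {g : ℝ} {mg : (E → G) → ℝ} (hmg : Continuous mg) {A : K' → K → (E → G) → ℂ}
    (hA : ∀ κ' κ, C1 L (A κ' κ)) {ψ : K → (E → G) → ℂ} (hψ : ∀ κ, C1 L (ψ κ)) {c0 c1 l : ℝ}
    (hc0 : 0 ≤ c0) (hc1 : 0 ≤ c1) (hl : 0 < l) (T : Finset E)
    (h0 : ∀ U, ∑ κ', ∑ κ, ‖A κ' κ U‖ ^ 2 ≤ c0 ^ 2)
    (h1 : ∀ e ∈ T, ∀ a U, ∑ κ', ∑ κ, ‖dl L e a (A κ' κ) U‖ ^ 2 ≤ c1 ^ 2)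
    (h2 : ∀ e ∉ T, ∀ a U κ' κ, dl L e a (A κ' κ) U = 0) {E1 E2 : ℝ}
    (hE1 : ∀ t : ℝ, E1 * nrm μ (lin ψ (app (adj A) (app A ψ)) t) ≤
      en L μ g mg (lin ψ (app (adj A) (app A ψ)) t))
    (hE2 : E2 * nrm μ (app A ψ) ≤ en L μ g mg (app A ψ)) {t : ℝ} (ht : 0 < t) :
    (E2 - E1) * nrm μ (app A ψ) ≤
      (en L μ g mg ψ - E1 * nrm μ ψ) / (2 * t) +
        t / 2 * (en L μ g mg (app (adj A) (app A ψ)) - E1 * nrm μ (app (adj A) (app A ψ))) +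
      g ^ 2 / 2 * (T.card * (n * (c1 ^ 2 + c1 * c0 * l)) * nrm μ ψ +
        c1 * c0 / l * ∑ e ∈ T, kin L μ e ψ) := by
  have h3 := form_le μ hmg hψ (app_C1 (adj_C1 hA) (app_C1 hA hψ)) hE1 ht
  have h4 := en_app μ (g := g) hmg hA hψ hc0 hc1 hl T h0 h1 h2
  have h5 := nrm_app μ hA hψ
  rw [← h5] at h3
  linarith

end

end Pool.Agent.X168.NA
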