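import Mathlib
import Pool.Agent.X168.NA.Base

/-!
# Generic tuples of a compact connected group have centraliser equal to the centre
-/

open MeasureTheory Matrix Filter Topology
open scoped Matrix.Norms.Frobenius ContDiff Pointwise

namespace Pool.Agent.X168.NA

set_option linter.unusedSectionVars false

noncomputable section

variable {G : Type} [Group G] [TopologicalSpace G] {N n : ℕ} (L : GD G N n)
  [IsTopologicalGroup G] [CompactSpace G] [SecondCountableTopology G] [T2Space G]
  [MeasurableSpace G] [BorelSpace G] (μ : Measure G) [IsProbabilityMeasure μ] [μ.IsHaarMeasure]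
  [PreconnectedSpace G]

lemma rho_cont : Continuous fun g : G => (L.rho g : Mat N) :=
  continuous_subtype_val.comp L.cont

/-- `X` commutes with `g` -/
def Cm (X : Mat N) (g : G) : Prop := X * (L.rho g : Mat N) = (L.rho g : Mat N) * X

lemma Cm_closed (X : Mat N) : IsClosed {g : G | Cm L X g} :=
  isClosed_eq (continuous_const.mul (rho_cont L)) ((rho_cont L).mul continuous_const)

/-- the subgroup of elements commuting with `X` -/
def CmS (X : Mat N) : Subgroup G where
  carrier := {g | Cm L X g}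
  mul_mem' := by
    intro a b ha hb
    show X * (L.rho (a * b) : Mat N) = (L.rho (a * b) : Mat N) * X
    have ha' : X * (L.rho a : Mat N) = (L.rho a : Mat N) * X := ha
    have hb' : X * (L.rho b : Mat N) = (L.rho b : Mat N) * X := hb
    rw [map_mul]
    show X * ((L.rho a : Mat N) * (L.rho b : Mat N)) = (L.rho a : Mat N) * (L.rho b : Mat N) * X
    rw [← mul_assoc, ha', mul_assoc, hb', mul_assoc]
  one_mem' := by
    show X * (L.rho 1 : Mat N) = (L.rho 1 : Mat N) * X
    rw [map_one]
    show X * 1 = 1 * X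
    rw [mul_one, one_mul]
  inv_mem' := by
    intro a ha
    have ha' : X * (L.rho a : Mat N) = (L.rho a : Mat N) * X := ha
    show X * (L.rho a⁻¹ : Mat N) = (L.rho a⁻¹ : Mat N) * X
    have h1 : (L.rho a : Mat N) * (L.rho a⁻¹ : Mat N) = 1 := by
      have : (L.rho a * L.rho a⁻¹ : UU N) = 1 := by rw [← map_mul, mul_inv_cancel, map_one]
      exact congrArg Subtype.val this
    have h2 : (L.rho a⁻¹ : Mat N) * (L.rho a : Mat N) = 1 := by
      have : (L.rho a⁻¹ * L.rho a : UU N) = 1 := by rw [← map_mul, inv_mul_cancel, map_one]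
      exact congrArg Subtype.val this
    calc X * (L.rho a⁻¹ : Mat N) =
        ((L.rho a⁻¹ : Mat N) * (L.rho a : Mat N)) * X * (L.rho a⁻¹ : Mat N) := by
          rw [h2, one_mul]
      _ = (L.rho a⁻¹ : Mat N) * ((L.rho a : Mat N) * X) * (L.rho a⁻¹ : Mat N) := by
          rw [mul_assoc (L.rho a⁻¹ : Mat N)]
      _ = (L.rho a⁻¹ : Mat N) * (X * (L.rho a : Mat N)) * (L.rho a⁻¹ : Mat N) := by rw [ha']
      _ = (L.rho a⁻¹ : Mat N) * X * ((L.rho a : Mat N) * (L.rho a⁻¹ : Mat N)) := by
          simp only [mul_assoc]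
      _ = _ := by rw [h1, mul_one]

lemma null_aux {X : Mat N} (hX : ¬ ∀ g : G, Cm L X g) : μ {g : G | Cm L X g} = 0 := by
  by_contra hpos
  have h1 : (0 : ENNReal) < μ (CmS L X : Set G) := pos_iff_ne_zero.2 hpos
  have h2 := Measure.div_mem_nhds_one_of_haar_pos μ (CmS L X : Set G)
    (Cm_closed L X).measurableSet h1
  have h3 : ((CmS L X : Set G) / (CmS L X : Set G)) ⊆ (CmS L X : Set G) := by
    rintro _ ⟨a, ha, b, hb, rfl⟩
    exact (CmS L X).div_mem ha hb
  have h4 : IsOpen (CmS L X : Set G) :=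
    Subgroup.isOpen_of_mem_nhds (CmS L X) (mem_of_superset h2 h3)
  have h5 : IsClopen (CmS L X : Set G) := ⟨Cm_closed L X, h4⟩
  have h6 := h5.eq_univ ⟨1, (CmS L X).one_mem⟩
  apply hX
  intro g
  have : g ∈ (CmS L X : Set G) := by rw [h6]; trivial
  exact this

/-- the bad tuples for a subspace of matrices -/
def Bad (j : ℕ) (W : Submodule ℂ (Mat N)) : Set (Fin j → G) :=
  {h | ∃ X ∈ W, X ≠ 0 ∧ ∀ s, Cm L X (h s)}

lemma Bad_closed (j : ℕ) (W : Submodule ℂ (Mat N)) : IsClosed (Bad L j W) := by
  have hprop : ProperSpace (Mat N) := FiniteDimensional.proper ℂ (Mat N)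
  have h1 : Bad L j W = Prod.fst '' {p : (Fin j → G) × Mat N | p.2 ∈ Metric.sphere (0 : Mat N) 1 ∧
      p.2 ∈ W ∧ ∀ s, Cm L p.2 (p.1 s)} := by
    ext h
    constructor
    · rintro ⟨X, hXW, hX0, hX⟩
      have hn : (‖X‖ : ℂ) ≠ 0 := by exact_mod_cast norm_ne_zero_iff.2 hX0
      refine ⟨(h, ((‖X‖ : ℂ)⁻¹) • X), ⟨?_, W.smul_mem _ hXW, fun s => ?_⟩, rfl⟩
      · rw [mem_sphere_zero_iff_norm, norm_smul, norm_inv, Complex.norm_real, norm_norm]
        exact inv_mul_cancel₀ (norm_ne_zero_iff.2 hX0)
      · show ((‖X‖ : ℂ)⁻¹ • X) * (L.rho (h s) : Mat N) = (L.rho (h s) : Mat N) * ((‖X‖ : ℂ)⁻¹ • X)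
        have h2 : X * (L.rho (h s) : Mat N) = (L.rho (h s) : Mat N) * X := hX s
        rw [Matrix.smul_mul, Matrix.mul_smul, h2]
    · rintro ⟨⟨h', X⟩, ⟨hX1, hXW, hX⟩, rfl⟩
      refine ⟨X, hXW, ?_, hX⟩
      rintro rfl
      rw [mem_sphere_zero_iff_norm, norm_zero] at hX1
      exact zero_ne_one hX1
  rw [h1]
  have h2 : IsCompact {p : (Fin j → G) × Mat N | p.2 ∈ Metric.sphere (0 : Mat N) 1 ∧
      p.2 ∈ W ∧ ∀ s, Cm L p.2 (p.1 s)} := by
    have h3 : IsCompact ((Set.univ : Set (Fin j → G)) ×ˢ Metric.sphere (0 : Mat N) 1) :=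
      isCompact_univ.prod (isCompact_sphere _ _)
    refine h3.of_isClosed_subset ?_ ?_
    · have c1 : IsClosed {p : (Fin j → G) × Mat N | p.2 ∈ Metric.sphere (0 : Mat N) 1} :=
        Metric.isClosed_sphere.preimage continuous_snd
      have c2 : IsClosed {p : (Fin j → G) × Mat N | p.2 ∈ W} :=
        (Submodule.closed_of_finiteDimensional W).preimage continuous_snd
      have c3 : IsClosed {p : (Fin j → G) × Mat N | ∀ s, Cm L p.2 (p.1 s)} := by
        rw [Set.ofPred_forall]
        refine isClosed_iInter fun s => isClosed_eq ?_ ?_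
        · exact continuous_snd.mul ((rho_cont L).comp ((continuous_apply s).comp continuous_fst))
        · exact ((rho_cont L).comp ((continuous_apply s).comp continuous_fst)).mul continuous_snd
      exact c1.inter (c2.inter c3)
    · rintro p ⟨hp, _⟩
      exact ⟨trivial, hp⟩
  exact (h2.image continuous_fst).isClosed

lemma Bad_null : ∀ (j : ℕ) (W : Submodule ℂ (Mat N)),
    (∀ X ∈ W, (∀ g : G, Cm L X g) → X = 0) → Module.finrank ℂ W ≤ j →
      (Measure.pi fun _ : Fin j => μ) (Bad L j W) = 0 := by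
  intro j
  induction j with
  | zero =>
    intro W _ hfin
    have hW : W = ⊥ := by
      rw [← Submodule.finrank_eq_zero (R := ℂ)]
      omega
    have : Bad L 0 W = (∅ : Set (Fin 0 → G)) := by
      ext h
      simp only [Set.mem_empty_iff_false, iff_false]
      rintro ⟨X, hXW, hX0, _⟩
      rw [hW] at hXW
      exact hX0 ((Submodule.mem_bot ℂ).1 hXW)
    rw [this, measure_empty]
  | succ j ih =>
    intro W hW hfin
    by_cases hW0 : W = ⊥
    · have : Bad L (j + 1) W = (∅ : Set (Fin (j + 1) → G)) := by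
        ext h
        simp only [Set.mem_empty_iff_false, iff_false]
        rintro ⟨X, hXW, hX0, _⟩
        rw [hW0] at hXW
        exact hX0 ((Submodule.mem_bot ℂ).1 hXW)
      rw [this, measure_empty]
    obtain ⟨X, hXW, hX0⟩ := W.ne_bot_iff.1 hW0
    have hXG : ¬ ∀ g : G, Cm L X g := fun h => hX0 (hW X hXW h)
    have hmp := measurePreserving_piFinSuccAbove (fun _ : Fin (j + 1) => μ) 0
    set e := MeasurableEquiv.piFinSuccAbove (fun _ : Fin (j + 1) => G) 0 with he
    set B' : Set (G × (Fin j → G)) := {p | ∃ X ∈ W, X ≠ 0 ∧ Cm L X p.1 ∧ ∀ s, Cm L X (p.2 s)}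
      with hB'
    have h1 : Bad L (j + 1) W = e ⁻¹' B' := by
      ext h
      constructor
      · rintro ⟨X, hXW, hX0, hX⟩
        exact ⟨X, hXW, hX0, hX 0, fun s => hX _⟩
      · rintro ⟨X, hXW, hX0, hX1, hX2⟩
        refine ⟨X, hXW, hX0, fun s => ?_⟩
        refine Fin.cases ?_ ?_ s
        · exact hX1
        · intro i
          have := hX2 i
          exact this
    have hB'm : MeasurableSet B' := by
      have h2 : B' = e.symm ⁻¹' (Bad L (j + 1) W) := by
        rw [h1, ← Set.preimage_comp]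
        simp
      rw [h2]
      exact e.symm.measurable (Bad_closed L (j + 1) W).measurableSet
    rw [h1, hmp.measure_preimage hB'm.nullMeasurableSet, Measure.measure_prod_null hB'm]
    have h3 : ∀ᵐ g ∂μ, ¬ Cm L X g := by
      rw [ae_iff]
      simpa using null_aux L μ hXG
    filter_upwards [h3] with g hg
    -- the subspace commuting with g
    set Wg : Submodule ℂ (Mat N) := W ⊓
      { carrier := {X | Cm L X g}
        add_mem' := by
          intro a b ha hb
          have ha' : a * (L.rho g : Mat N) = (L.rho g : Mat N) * a := ha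
          have hb' : b * (L.rho g : Mat N) = (L.rho g : Mat N) * b := hb
          show (a + b) * (L.rho g : Mat N) = (L.rho g : Mat N) * (a + b)
          rw [add_mul, mul_add, ha', hb']
        zero_mem' := by
          show (0 : Mat N) * (L.rho g : Mat N) = (L.rho g : Mat N) * 0
          rw [zero_mul, mul_zero]
        smul_mem' := by
          intro c a ha
          have ha' : a * (L.rho g : Mat N) = (L.rho g : Mat N) * a := ha
          show (c • a) * (L.rho g : Mat N) = (L.rho g : Mat N) * (c • a)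
          rw [Matrix.smul_mul, Matrix.mul_smul, ha'] } with hWg
    have hlt : Wg < W := by
      refine lt_of_le_of_ne inf_le_left fun h => hg ?_
      have : X ∈ Wg := by rw [h]; exact hXW
      exact this.2
    have hfin' : Module.finrank ℂ Wg ≤ j := by
      have := Submodule.finrank_lt_finrank_of_lt hlt
      omega
    have h4 := ih Wg (fun Y hY hYG => hW Y hY.1 hYG) hfin'
    have h5 : Prod.mk g ⁻¹' B' = Bad L j Wg := by
      ext h
      constructor
      · rintro ⟨Y, hYW, hY0, hY1, hY2⟩
        exact ⟨Y, ⟨hYW, hY1⟩, hY0, hY2⟩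
      · rintro ⟨Y, ⟨hYW, hY1⟩, hY0, hY2⟩
        exact ⟨Y, hYW, hY0, hY1, hY2⟩
    show (Measure.pi fun _ : Fin j => μ) (Prod.mk g ⁻¹' B') = 0
    rw [h5]
    exact h4

include L in
/-- **Generic tuples.** -/
theorem generic :
    (Measure.pi fun _ : Fin (N * N) => μ) {h : Fin (N * N) → G |
      ∃ g : G, (∀ s, g * h s = h s * g) ∧ g ∉ Subgroup.center G} = 0 := by
  -- the commutant of `G`
  let CG : Submodule ℂ (Mat N) :=
    { carrier := {X | ∀ g : G, Cm L X g}
      add_mem' := by
        intro a b ha hb g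
        have ha' : a * (L.rho g : Mat N) = (L.rho g : Mat N) * a := ha g
        have hb' : b * (L.rho g : Mat N) = (L.rho g : Mat N) * b := hb g
        show (a + b) * (L.rho g : Mat N) = (L.rho g : Mat N) * (a + b)
        rw [add_mul, mul_add, ha', hb']
      zero_mem' := by
        intro g
        show (0 : Mat N) * (L.rho g : Mat N) = (L.rho g : Mat N) * 0
        rw [zero_mul, mul_zero]
      smul_mem' := by
        intro c a ha g
        have ha' : a * (L.rho g : Mat N) = (L.rho g : Mat N) * a := ha g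
        show (c • a) * (L.rho g : Mat N) = (L.rho g : Mat N) * (c • a)
        rw [Matrix.smul_mul, Matrix.mul_smul, ha'] }
  obtain ⟨W, hW⟩ := Submodule.exists_isCompl CG
  have hdim : Module.finrank ℂ W ≤ N * N := by
    have h1 := Submodule.finrank_le W
    have h2 : Module.finrank ℂ (Mat N) = N * N := by
      rw [Module.finrank_matrix]
      simp
    omega
  have h1 := Bad_null L μ (N * N) W (fun X hXW hXG => by
    have : X ∈ CG ⊓ W := ⟨hXG, hXW⟩
    rw [hW.inf_eq_bot] at this
    exact (Submodule.mem_bot ℂ).1 this) hdim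
  refine measure_mono_null ?_ h1
  rintro h ⟨g, hg, hgc⟩
  have hXh : ∀ s, Cm L (L.rho g : Mat N) (h s) := by
    intro s
    show (L.rho g : Mat N) * (L.rho (h s) : Mat N) = (L.rho (h s) : Mat N) * (L.rho g : Mat N)
    have := congrArg L.rho (hg s)
    rw [map_mul, map_mul] at this
    exact congrArg Subtype.val this
  have htop : (L.rho g : Mat N) ∈ CG ⊔ W := by rw [hW.sup_eq_top]; trivial
  obtain ⟨X1, hX1, X2, hX2, hsum⟩ := Submodule.mem_sup.1 htop
  refine ⟨X2, hX2, ?_, fun s => ?_⟩
  · rintro rfl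
    rw [add_zero] at hsum
    apply hgc
    rw [Subgroup.mem_center_iff]
    intro k
    apply L.inj
    apply Subtype.ext
    have h2 : X1 * (L.rho k : Mat N) = (L.rho k : Mat N) * X1 := hX1 k
    rw [hsum] at h2
    rw [map_mul, map_mul]
    exact h2.symm
  · have h2 : X1 * (L.rho (h s) : Mat N) = (L.rho (h s) : Mat N) * X1 := hX1 (h s)
    have h3 : X2 = (L.rho g : Mat N) - X1 := by rw [← hsum]; abel
    show X2 * (L.rho (h s) : Mat N) = (L.rho (h s) : Mat N) * X2
    have h4 : (L.rho g : Mat N) * (L.rho (h s) : Mat N) = (L.rho (h s) : Mat N) * (L.rho g : Mat N) :=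
      hXh s
    rw [h3, sub_mul, mul_sub, h2, h4]

end

end Pool.Agent.X168.NA
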