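import Mathlib
import Pool.Agent.X168.NA.Gen
import Pool.Agent.X168.NA.Kin

/-!
# Equivariant matrix functions of generic tuples
-/

open MeasureTheory Matrix Filter Topology
open scoped Matrix.Norms.Frobenius ContDiff Pointwise

namespace Pool.Agent.X168.NA

set_option linter.unusedSectionVars false

noncomputable section

/-- parametric integrals with values in `ℂ` -/
lemma param_aux2 {𝔸 : Type} [NormedRing 𝔸] [NormedAlgebra ℝ 𝔸] [FiniteDimensional ℝ 𝔸]
    {Y : Type} [TopologicalSpace Y] [CompactSpace Y] [SecondCountableTopology Y]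
    [MeasurableSpace Y] [BorelSpace Y] (ν : Measure Y) [IsFiniteMeasure ν]
    {h : 𝔸 → ℝ} (hh : ContDiff ℝ 1 h) {A B : Y → 𝔸} (hA : Continuous A) (hB : Continuous B)
    {c : Y → ℂ} (hc : Continuous c) :
    ContDiff ℝ 1 fun M => ∫ y, h (A y * M * B y) • c y ∂ν := by
  have hprop : ProperSpace 𝔸 := FiniteDimensional.proper ℝ _
  set T : 𝔸 →L[ℝ] 𝔸 →L[ℝ] 𝔸 →L[ℝ] 𝔸 := ContinuousLinearMap.mulLeftRight ℝ 𝔸 with hT
  have hTa : ∀ a b M, T a b M = a * M * b := fun a b M =>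
    ContinuousLinearMap.mulLeftRight_apply ℝ 𝔸 a b M
  set D : 𝔸 → Y → (𝔸 →L[ℝ] ℂ) := fun M y =>
    ContinuousLinearMap.smulRightL ℝ 𝔸 ℂ ((fderiv ℝ h (A y * M * B y)).comp (T (A y) (B y))) (c y)
    with hD
  have hDc : Continuous (Function.uncurry D) := by
    have h1 : Continuous fun p : 𝔸 × Y => fderiv ℝ h (A p.2 * p.1 * B p.2) :=
      (hh.continuous_fderiv (by simp)).comp
        (((hA.comp continuous_snd).mul continuous_fst).mul (hB.comp continuous_snd))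
    have h2 : Continuous fun p : 𝔸 × Y => T (A p.2) (B p.2) :=
      (T.continuous.comp (hA.comp continuous_snd)).clm_apply (hB.comp continuous_snd)
    exact ((ContinuousLinearMap.smulRightL ℝ 𝔸 ℂ).continuous.comp
      (h1.clm_comp h2)).clm_apply (hc.comp continuous_snd)
  have hder : ∀ M y, HasFDerivAt (fun M => h (A y * M * B y) • c y) (D M y) M := by
    intro M y
    have h1 : HasFDerivAt h (fderiv ℝ h (A y * M * B y)) (T (A y) (B y) M) := by
      rw [hTa]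
      exact (hh.differentiable (by simp)).differentiableAt.hasFDerivAt
    have h2 := (h1.comp M (T (A y) (B y)).hasFDerivAt).smul_const (c y)
    refine (h2.congr_fderiv ?_).congr_of_eventuallyEq (Eventually.of_forall fun M' => ?_)
    · rfl
    · show h (A y * M' * B y) • c y = h (T (A y) (B y) M') • c y
      rw [hTa]
  have hcont : Continuous (Function.uncurry fun (M : 𝔸) (y : Y) => h (A y * M * B y) • c y) :=
    (hh.continuous.comp (((hA.comp continuous_snd).mul continuous_fst).mul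
      (hB.comp continuous_snd))).smul (hc.comp continuous_snd)
  have hmain : ∀ M, HasFDerivAt (fun M => ∫ y, h (A y * M * B y) • c y ∂ν) (∫ y, D M y ∂ν) M := by
    intro M
    obtain ⟨C, hC⟩ := (((isCompact_closedBall M 1).prod (isCompact_univ (X := Y))).image
      hDc.norm).bddAbove
    refine hasFDerivAt_integral_of_dominated_of_fderiv_le (bound := fun _ => C)
      (Metric.closedBall_mem_nhds M one_pos)
      (Eventually.of_forall fun M' => ?_) ?_ ?_ ?_ (integrable_const _) ?_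
    · exact (hcont.comp (Continuous.prodMk_right M')).aestronglyMeasurable
    · exact (hcont.comp (Continuous.prodMk_right M)).integrable_of_hasCompactSupport
        (HasCompactSupport.of_compactSpace _)
    · exact (hDc.comp (Continuous.prodMk_right M)).aestronglyMeasurable
    · exact Eventually.of_forall fun y M' hM' => hC ⟨(M', y), ⟨hM', trivial⟩, rfl⟩
    · exact Eventually.of_forall fun y M' _ => hder M' y
  rw [contDiff_one_iff_fderiv]
  refine ⟨fun M => (hmain M).differentiableAt, ?_⟩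
  have h2 : (fderiv ℝ fun M => ∫ y, h (A y * M * B y) • c y ∂ν) = fun M => ∫ y, D M y ∂ν :=
    funext fun M => (hmain M).fderiv
  rw [h2]
  have h3 := continuous_parametric_integral_of_continuous (μ := ν) hDc (isCompact_univ (X := Y))
  simpa using h3

variable {G : Type} [Group G] [TopologicalSpace G] {N n : ℕ} (L : GD G N n)
  [IsTopologicalGroup G] [CompactSpace G] [SecondCountableTopology G] [T2Space G]
  [MeasurableSpace G] [BorelSpace G] (μ : Measure G) [IsProbabilityMeasure μ] [μ.IsHaarMeasure]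
  {k : ℕ}

lemma param_contDiff2 {ι : Type} [Fintype ι] {Y : Type} [TopologicalSpace Y] [CompactSpace Y]
    [SecondCountableTopology Y]
    [MeasurableSpace Y] [BorelSpace Y] (ν : Measure Y) [IsFiniteMeasure ν]
    {h : (ι → Mat N) → ℝ} (hh : ContDiff ℝ 1 h) {A B : Y → ι → Mat N} (hA : Continuous A)
    (hB : Continuous B) {c : Y → ℂ} (hc : Continuous c) :
    ContDiff ℝ 1 fun M => ∫ y, h (A y * M * B y) • c y ∂ν :=
  param_aux2 (𝔸 := ι → Mat N) ν hh hA hB hc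

/-- squared distance of tuples of matrices -/
def rr {ι : Type} [Fintype ι] (M0 M : ι → Mat N) : ℝ :=
  ∑ s, ∑ i, ∑ j, ‖M s i j - M0 s i j‖ ^ 2

lemma rr_nonneg {ι : Type} [Fintype ι] (M0 M : ι → Mat N) : 0 ≤ rr M0 M :=
  Finset.sum_nonneg fun _ _ => Finset.sum_nonneg fun _ _ => Finset.sum_nonneg fun _ _ => sq_nonneg _

lemma rr_zero {ι : Type} [Fintype ι] {M0 M : ι → Mat N} (h : rr M0 M = 0) : M = M0 := by
  funext s
  ext i j
  have h1 := (Finset.sum_eq_zero_iff_of_nonneg fun s _ => Finset.sum_nonneg fun _ _ =>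
    Finset.sum_nonneg fun _ _ => sq_nonneg _).1 h s (Finset.mem_univ _)
  have h2 := (Finset.sum_eq_zero_iff_of_nonneg fun s _ => Finset.sum_nonneg fun _ _ =>
    sq_nonneg _).1 h1 i (Finset.mem_univ _)
  have h3 := (Finset.sum_eq_zero_iff_of_nonneg fun s _ => sq_nonneg _).1 h2 j (Finset.mem_univ _)
  have h4 : ‖M s i j - M0 s i j‖ = 0 := by
    exact pow_eq_zero_iff (two_ne_zero) |>.1 h3
  exact sub_eq_zero.1 (norm_eq_zero.1 h4)

lemma rr_self {ι : Type} [Fintype ι] (M0 : ι → Mat N) : rr M0 M0 = 0 := by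
  unfold rr
  simp

/-- an entry, as a linear map -/
def entL {ι : Type} [Fintype ι] (s : ι) (i j : Fin N) : (ι → Mat N) →L[ℝ] ℂ :=
  LinearMap.toContinuousLinearMap
    { toFun := fun M => M s i j
      map_add' := fun _ _ => rfl
      map_smul' := fun _ _ => rfl }

lemma rr_contDiff {ι : Type} [Fintype ι] (M0 : ι → Mat N) : ContDiff ℝ 1 (rr M0) := by
  unfold rr
  refine ContDiff.sum fun s _ => ContDiff.sum fun i _ => ContDiff.sum fun j _ => ?_
  have h1 : ContDiff ℝ 1 fun M : ι → Mat N => M s i j := (entL s i j).contDiff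
  exact (h1.sub contDiff_const).norm_sq ℝ

/-- the cut-off -/
def cut {ι : Type} [Fintype ι] (M0 : ι → Mat N) (δ : ℝ) (M : ι → Mat N) : ℝ :=
  Real.smoothTransition (1 - rr M0 M / δ)

lemma cut_contDiff {ι : Type} [Fintype ι] (M0 : ι → Mat N) (δ : ℝ) :
    ContDiff ℝ 1 (cut M0 δ) := by
  unfold cut
  exact Real.smoothTransition.contDiff.comp (contDiff_const.sub ((rr_contDiff M0).div_const δ))

lemma cut_nonneg {ι : Type} [Fintype ι] (M0 : ι → Mat N) (δ : ℝ) (M : ι → Mat N) :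
    0 ≤ cut M0 δ M := Real.smoothTransition.nonneg _

lemma cut_ne {ι : Type} [Fintype ι] {M0 M : ι → Mat N} {δ : ℝ} (hδ : 0 < δ)
    (h : cut M0 δ M ≠ 0) : rr M0 M < δ := by
  by_contra hc
  push Not at hc
  apply h
  refine Real.smoothTransition.zero_of_nonpos ?_
  have : 1 ≤ rr M0 M / δ := by rwa [le_div_iff₀ hδ, one_mul]
  linarith

lemma cut_self {ι : Type} [Fintype ι] (M0 : ι → Mat N) (δ : ℝ) : cut M0 δ M0 = 1 := by
  unfold cut
  rw [rr_self]
  simp


variable {p q : ℕ} (ρ₁ : G →* UU p) (ρ₂ : G →* UU q)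

/-- `ρ₂(g) B ρ₁(g)⁻¹` -/
def cc (B : Matrix (Fin q) (Fin p) ℂ) (g : G) : Matrix (Fin q) (Fin p) ℂ :=
  (ρ₂ g : Mat q) * B * (ρ₁ g : Mat p)ᴴ

lemma cc_mul (B : Matrix (Fin q) (Fin p) ℂ) (a g : G) :
    cc ρ₁ ρ₂ B (a * g) = (ρ₂ a : Mat q) * cc ρ₁ ρ₂ B g * (ρ₁ a : Mat p)ᴴ := by
  unfold cc
  rw [map_mul, map_mul]
  show (ρ₂ a : Mat q) * (ρ₂ g : Mat q) * B * ((ρ₁ a : Mat p) * (ρ₁ g : Mat p))ᴴ = _
  rw [Matrix.conjTranspose_mul]
  simp only [Matrix.mul_assoc]

lemma cc_cont (h₁ : Continuous ρ₁) (h₂ : Continuous ρ₂) (B : Matrix (Fin q) (Fin p) ℂ) :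
    Continuous fun g => cc ρ₁ ρ₂ B g := by
  have c1 : Continuous fun g : G => (ρ₁ g : Mat p) := continuous_subtype_val.comp h₁
  have c2 : Continuous fun g : G => (ρ₂ g : Mat q) := continuous_subtype_val.comp h₂
  exact (c2.matrix_mul continuous_const).matrix_mul c1.matrix_conjTranspose

/-- averaged matrix functions -/
def AA (M0 : Fin k → Mat N) (δ : ℝ) (B : Matrix (Fin q) (Fin p) ℂ) (κ' : Fin q) (κ : Fin p)
    (h : Fin k → G) : ℂ :=
  ∫ g, cut M0 δ (mats L fun s => g⁻¹ * h s * g) • cc ρ₁ ρ₂ B g κ' κ ∂μ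

lemma rho_cont2 : Continuous fun g : G => (L.rho g : Mat N) :=
  continuous_subtype_val.comp L.cont

lemma mats_conj (h : Fin k → G) (g : G) : (mats L fun s => g⁻¹ * h s * g) =
    (fun _ => (L.rho g⁻¹ : Mat N)) * mats L h * fun _ => (L.rho g : Mat N) := by
  funext s
  unfold mats
  rw [map_mul, map_mul]
  rfl

lemma conj_cont (h : Fin k → G) : Continuous fun g : G => fun s => g⁻¹ * h s * g :=
  continuous_pi fun _ => (continuous_inv.mul continuous_const).mul continuous_id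

lemma AA_int_cont (h₁ : Continuous ρ₁) (h₂ : Continuous ρ₂) (M0 : Fin k → Mat N) (δ : ℝ)
    (B : Matrix (Fin q) (Fin p) ℂ) (κ' : Fin q) (κ : Fin p) (h : Fin k → G) :
    Continuous fun g : G => cut M0 δ (mats L fun s => g⁻¹ * h s * g) • cc ρ₁ ρ₂ B g κ' κ :=
  ((cut_contDiff M0 δ).continuous.comp ((mats_cont L).comp (conj_cont h))).smul
    ((cc_cont ρ₁ ρ₂ h₁ h₂ B).matrix_elem κ' κ)

lemma AA_C1 (h₁ : Continuous ρ₁) (h₂ : Continuous ρ₂) (M0 : Fin k → Mat N) (δ : ℝ)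
    (B : Matrix (Fin q) (Fin p) ℂ) (κ' : Fin q) (κ : Fin p) :
    C1 L (AA L μ ρ₁ ρ₂ M0 δ B κ' κ) := by
  refine ⟨fun M => ∫ g, cut M0 δ ((fun _ => (L.rho g⁻¹ : Mat N)) * M *
    fun _ => (L.rho g : Mat N)) • cc ρ₁ ρ₂ B g κ' κ ∂μ, ?_, fun h => ?_⟩
  · refine param_contDiff2 μ (cut_contDiff M0 δ) (A := fun g _ => (L.rho g⁻¹ : Mat N))
      (B := fun g _ => (L.rho g : Mat N)) ?_ ?_ ((cc_cont ρ₁ ρ₂ h₁ h₂ B).matrix_elem κ' κ)
    · exact continuous_pi fun _ => (rho_cont2 L).comp continuous_inv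
    · exact continuous_pi fun _ => rho_cont2 L
  · unfold AA
    simp only [mats_conj]

lemma AA_equi (h₁ : Continuous ρ₁) (h₂ : Continuous ρ₂) (M0 : Fin k → Mat N) (δ : ℝ)
    (B : Matrix (Fin q) (Fin p) ℂ) (a : G) (h : Fin k → G) :
    (Matrix.of fun κ' κ => AA L μ ρ₁ ρ₂ M0 δ B κ' κ (fun s => a * h s * a⁻¹)) =
      (ρ₂ a : Mat q) * (Matrix.of fun κ' κ => AA L μ ρ₁ ρ₂ M0 δ B κ' κ h) *
        (ρ₁ a : Mat p)ᴴ := by
  ext κ' κ
  rw [Matrix.of_apply]
  unfold AA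
  rw [← integral_mul_left_eq_self (μ := μ) (fun g => cut M0 δ (mats L fun s =>
    g⁻¹ * (a * h s * a⁻¹) * g) • cc ρ₁ ρ₂ B g κ' κ) a]
  have h3 : ∀ g, (fun s => (a * g)⁻¹ * (a * h s * a⁻¹) * (a * g)) = fun s => g⁻¹ * h s * g := by
    intro g; funext s; group
  simp only [h3, cc_mul, Matrix.mul_apply, Matrix.of_apply, Finset.smul_sum, Finset.sum_mul]
  rw [integral_finsetSum]
  · refine Finset.sum_congr rfl fun j _ => ?_
    rw [integral_finsetSum]
    · refine Finset.sum_congr rfl fun i _ => ?_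
      rw [← integral_const_mul, ← integral_mul_const]
      refine integral_congr_ae (Eventually.of_forall fun g => ?_)
      simp only [Complex.real_smul]
      ring
    · intro i _
      refine Continuous.integrable_of_hasCompactSupport ?_ (HasCompactSupport.of_compactSpace _)
      exact ((cut_contDiff M0 δ).continuous.comp ((mats_cont L).comp (conj_cont h))).smul
        ((continuous_const.mul ((cc_cont ρ₁ ρ₂ h₁ h₂ B).matrix_elem i j)).mul continuous_const)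
  · intro j _
    refine Continuous.integrable_of_hasCompactSupport ?_ (HasCompactSupport.of_compactSpace _)
    exact continuous_finsetSum _ fun i _ =>
      ((cut_contDiff M0 δ).continuous.comp ((mats_cont L).comp (conj_cont h))).smul
        ((continuous_const.mul ((cc_cont ρ₁ ρ₂ h₁ h₂ B).matrix_elem i j)).mul continuous_const)


/-- at a generic tuple, `A(h) v ≠ 0` for some `A` of the family -/
lemma AA_pos [NeZero q] (h₁ : Continuous ρ₁) (h₂ : Continuous ρ₂)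
    (hcen : ∀ z ∈ Subgroup.center G, ∃ c : ℂ, (ρ₁ z : Mat p) = c • 1 ∧ (ρ₂ z : Mat q) = c • 1)
    {h0 : Fin k → G} (hh0 : ∀ g : G, (∀ s, g * h0 s = h0 s * g) → g ∈ Subgroup.center G)
    {v : Fin p → ℂ} (hv : v ≠ 0) :
    ∃ (δ : ℝ) (B : Matrix (Fin q) (Fin p) ℂ),
      ∑ κ, AA L μ ρ₁ ρ₂ (mats L h0) δ B 0 κ h0 * v κ ≠ 0 := by
  set B : Matrix (Fin q) (Fin p) ℂ := Matrix.of fun i j =>
    if i = 0 then (starRingEnd ℂ) (v j) else 0 with hB
  set D : G → ℂ := fun g => ∑ κ, cc ρ₁ ρ₂ B g 0 κ * v κ with hD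
  have hDc : Continuous D := continuous_finsetSum _ fun κ _ =>
    ((cc_cont ρ₁ ρ₂ h₁ h₂ B).matrix_elem 0 κ).mul continuous_const
  -- the value on the centre
  have hccz : ∀ z ∈ Subgroup.center G, cc ρ₁ ρ₂ B z = B := by
    intro z hz
    obtain ⟨c, hc1, hc2⟩ := hcen z hz
    have hunit : (ρ₂ z : Mat q)ᴴ * (ρ₂ z : Mat q) = 1 := by
      have := (ρ₂ z).2
      rw [Matrix.mem_unitaryGroup_iff'] at this
      exact this
    have hcc : (starRingEnd ℂ) c * c = 1 := by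
      rw [hc2] at hunit
      have h3 := congrFun (congrFun hunit 0) 0
      rw [Matrix.conjTranspose_smul, Matrix.conjTranspose_one, Matrix.smul_mul, Matrix.one_mul,
        smul_smul] at h3
      simpa using h3
    unfold cc
    rw [hc1, hc2, Matrix.conjTranspose_smul, Matrix.conjTranspose_one, Matrix.smul_mul,
      Matrix.one_mul, Matrix.mul_smul, Matrix.mul_one, smul_smul]
    show ((starRingEnd ℂ) c * c) • B = B
    rw [hcc, one_smul]
  have hvpos : 0 < ∑ κ, ‖v κ‖ ^ 2 := by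
    refine lt_of_le_of_ne (Finset.sum_nonneg fun _ _ => sq_nonneg _) fun h => hv ?_
    funext κ
    have := (Finset.sum_eq_zero_iff_of_nonneg fun κ _ => sq_nonneg ‖v κ‖).1 h.symm κ
      (Finset.mem_univ _)
    exact norm_eq_zero.1 (pow_eq_zero_iff two_ne_zero |>.1 this)
  have hDz : ∀ z ∈ Subgroup.center G, 0 < (D z).re := by
    intro z hz
    have : D z = ((∑ κ, ‖v κ‖ ^ 2 : ℝ) : ℂ) := by
      have hB0 : ∀ κ, cc ρ₁ ρ₂ B z 0 κ = (starRingEnd ℂ) (v κ) := by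
        intro κ
        rw [hccz z hz, hB, Matrix.of_apply, if_pos rfl]
      simp only [hD, hB0]
      rw [Complex.ofReal_sum]
      refine Finset.sum_congr rfl fun κ _ => ?_
      rw [mul_comm, Complex.mul_conj, Complex.normSq_eq_norm_sq]
    rw [this, Complex.ofReal_re]
    exact hvpos
  -- the radius of the cut-off
  obtain ⟨δ, hδ, hδO⟩ : ∃ δ : ℝ, 0 < δ ∧ ∀ g : G,
      rr (mats L h0) (mats L fun s => g⁻¹ * h0 s * g) < δ → 0 < (D g).re := by
    have hrc : Continuous fun g : G => rr (mats L h0) (mats L fun s => g⁻¹ * h0 s * g) :=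
      (rr_contDiff _).continuous.comp ((mats_cont L).comp (conj_cont h0))
    have hKc : IsCompact {g : G | (D g).re ≤ 0} :=
      (isClosed_le (Complex.continuous_re.comp hDc) continuous_const).isCompact
    by_cases hK : ({g : G | (D g).re ≤ 0}).Nonempty
    · obtain ⟨g0, hg0, hmin⟩ := hKc.exists_isMinOn hK hrc.continuousOn
      refine ⟨rr (mats L h0) (mats L fun s => g0⁻¹ * h0 s * g0), ?_, fun g hg => ?_⟩
      · refine lt_of_le_of_ne (rr_nonneg _ _) fun h => ?_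
        have h3 := rr_zero h.symm
        have h4 : ∀ s, g0 * h0 s = h0 s * g0 := by
          intro s
          have h5 : g0⁻¹ * h0 s * g0 = h0 s := by
            apply L.inj
            apply Subtype.ext
            exact congrFun h3 s
          calc g0 * h0 s = g0 * (g0⁻¹ * h0 s * g0) := by rw [h5]
            _ = h0 s * g0 := by group
        have h6 := hDz g0 (hh0 g0 h4)
        exact absurd hg0 (not_le.2 h6)
      · by_contra hc
        push Not at hc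
        exact absurd (hmin hc) (not_le.2 hg)
    · refine ⟨1, one_pos, fun g _ => ?_⟩
      by_contra hc
      push Not at hc
      exact hK ⟨g, hc⟩
  refine ⟨δ, B, fun hz => ?_⟩
  have h5 : ∑ κ, AA L μ ρ₁ ρ₂ (mats L h0) δ B 0 κ h0 * v κ =
      ∫ g, cut (mats L h0) δ (mats L fun s => g⁻¹ * h0 s * g) • D g ∂μ := by
    unfold AA
    simp only [hD, Finset.smul_sum]
    rw [integral_finsetSum]
    · refine Finset.sum_congr rfl fun κ _ => ?_
      rw [← integral_mul_const]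
      refine integral_congr_ae (Eventually.of_forall fun g => ?_)
      simp only [Complex.real_smul]
      ring
    · intro κ _
      refine Continuous.integrable_of_hasCompactSupport ?_ (HasCompactSupport.of_compactSpace _)
      exact ((cut_contDiff _ δ).continuous.comp ((mats_cont L).comp (conj_cont h0))).smul
        (((cc_cont ρ₁ ρ₂ h₁ h₂ B).matrix_elem 0 κ).mul continuous_const)
  have hcutc : Continuous fun g : G => cut (mats L h0) δ (mats L fun s => g⁻¹ * h0 s * g) :=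
    (cut_contDiff _ δ).continuous.comp ((mats_cont L).comp (conj_cont h0))
  have hfc : Continuous fun g : G => cut (mats L h0) δ (mats L fun s => g⁻¹ * h0 s * g) • D g :=
    hcutc.smul hDc
  have hfi : Integrable (fun g : G =>
      cut (mats L h0) δ (mats L fun s => g⁻¹ * h0 s * g) • D g) μ :=
    hfc.integrable_of_hasCompactSupport (HasCompactSupport.of_compactSpace _)
  have h6 : 0 < ∫ g, (cut (mats L h0) δ (mats L fun s => g⁻¹ * h0 s * g) • D g).re ∂μ := by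
    have hrc : Continuous fun g : G =>
        (cut (mats L h0) δ (mats L fun s => g⁻¹ * h0 s * g) • D g).re :=
      Complex.continuous_re.comp hfc
    refine hrc.integral_pos_of_hasCompactSupport_nonneg_nonzero
      (HasCompactSupport.of_compactSpace _) (fun g => ?_) (x := 1) ?_
    · show 0 ≤ (cut (mats L h0) δ (mats L fun s => g⁻¹ * h0 s * g) • D g).re
      rw [Complex.real_smul, Complex.re_ofReal_mul]
      by_cases hc : cut (mats L h0) δ (mats L fun s => g⁻¹ * h0 s * g) = 0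
      · rw [hc, zero_mul]
      · exact mul_nonneg (cut_nonneg _ _ _) (hδO g (cut_ne hδ hc)).le
    · show (cut (mats L h0) δ (mats L fun s => (1 : G)⁻¹ * h0 s * 1) • D 1).re ≠ 0
      have h7 : (fun s => (1 : G)⁻¹ * h0 s * 1) = h0 := by funext s; group
      rw [h7, cut_self, one_smul]
      exact (hDz 1 (Subgroup.one_mem _)).ne'
  have h7 : ∫ g, (cut (mats L h0) δ (mats L fun s => g⁻¹ * h0 s * g) • D g).re ∂μ =
      (∫ g, cut (mats L h0) δ (mats L fun s => g⁻¹ * h0 s * g) • D g ∂μ).re :=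
    integral_re hfi
  rw [h7, ← h5, hz, Complex.zero_re] at h6
  exact lt_irrefl _ h6

variable [PreconnectedSpace G]

/-- **The equivariant family.** -/
theorem family [NeZero q] (h₁ : Continuous ρ₁) (h₂ : Continuous ρ₂)
    (hcen : ∀ z ∈ Subgroup.center G, ∃ c : ℂ, (ρ₁ z : Mat p) = c • 1 ∧ (ρ₂ z : Mat q) = c • 1)
    {ε : ℝ} (hε : 0 < ε) :
    ∃ (I : Type) (_ : Fintype I) (A : I → Fin q → Fin p → (Fin (N * N) → G) → ℂ) (τ : ℝ)
      (K₀ : Set (Fin (N * N) → G)), 0 < τ ∧ (∀ i κ' κ, C1 L (A i κ' κ)) ∧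
      (∀ i (a : G) h, (Matrix.of fun κ' κ => A i κ' κ (fun s => a * h s * a⁻¹)) =
        (ρ₂ a : Mat q) * (Matrix.of fun κ' κ => A i κ' κ h) * (ρ₁ a : Mat p)ᴴ) ∧
      MeasurableSet K₀ ∧ (Measure.pi fun _ : Fin (N * N) => μ).real K₀ᶜ ≤ ε ∧
      ∀ h ∈ K₀, ∀ v : Fin p → ℂ, τ * ∑ κ, ‖v κ‖ ^ 2 ≤ ∑ i, ∑ κ', ‖∑ κ, A i κ' κ h * v κ‖ ^ 2 := by
  classical
  have hgen := generic L μ
  set Bd : Set (Fin (N * N) → G) :=
    {h | ∃ g : G, (∀ s, g * h s = h s * g) ∧ g ∉ Subgroup.center G} with hBd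
  obtain ⟨O, hBO, hOo, hO⟩ := Set.exists_isOpen_lt_of_lt (μ := Measure.pi fun _ : Fin (N * N) => μ)
    Bd (ENNReal.ofReal ε) (by rw [hgen]; exact ENNReal.ofReal_pos.2 hε)
  set K₀ : Set (Fin (N * N) → G) := Oᶜ with hK₀
  have hK₀c : IsCompact K₀ := hOo.isClosed_compl.isCompact
  have hgood : ∀ h ∈ K₀, ∀ g : G, (∀ s, g * h s = h s * g) → g ∈ Subgroup.center G := by
    intro h hh g hg
    by_contra hc
    exact hh (hBO ⟨g, hg, hc⟩)
  set S : Set (Fin p → ℂ) := Metric.sphere 0 1 with hS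
  have hSc : IsCompact S := isCompact_sphere _ _
  -- the open cover
  have hex : ∀ x : (K₀ ×ˢ S : Set ((Fin (N * N) → G) × (Fin p → ℂ))),
      ∃ (δ : ℝ) (B : Matrix (Fin q) (Fin p) ℂ),
        ∑ κ, AA L μ ρ₁ ρ₂ (mats L x.1.1) δ B 0 κ x.1.1 * x.1.2 κ ≠ 0 := by
    rintro ⟨⟨h, v⟩, hh, hv⟩
    refine AA_pos L μ ρ₁ ρ₂ h₁ h₂ hcen (hgood h hh) ?_
    rintro rfl
    have : ‖(0 : Fin p → ℂ)‖ = 1 := mem_sphere_zero_iff_norm.1 hv
    rw [norm_zero] at this
    exact zero_ne_one this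
  choose δ B hδB using hex
  set F : (K₀ ×ˢ S : Set ((Fin (N * N) → G) × (Fin p → ℂ))) → Fin q → Fin p →
      (Fin (N * N) → G) → ℂ := fun x => AA L μ ρ₁ ρ₂ (mats L x.1.1) (δ x) (B x) with hF
  have hFC : ∀ x κ' κ, C1 L (F x κ' κ) := fun x κ' κ =>
    AA_C1 L μ ρ₁ ρ₂ h₁ h₂ (mats L x.1.1) (δ x) (B x) κ' κ
  have hnc : ∀ x κ', Continuous fun y : (Fin (N * N) → G) × (Fin p → ℂ) =>
      ∑ κ, F x κ' κ y.1 * y.2 κ := fun x κ' => continuous_finsetSum _ fun κ _ =>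
    ((hFC x κ' κ).cont.comp continuous_fst).mul ((continuous_apply κ).comp continuous_snd)
  obtain ⟨t, ht⟩ := (hK₀c.prod hSc).elim_finite_subcover
    (fun x => {y : (Fin (N * N) → G) × (Fin p → ℂ) | ∑ κ, F x 0 κ y.1 * y.2 κ ≠ 0})
    (fun x => isOpen_ne_fun (hnc x 0) continuous_const)
    (fun y hy => Set.mem_iUnion.2 ⟨⟨y, hy⟩, hδB ⟨y, hy⟩⟩)
  set P : (Fin (N * N) → G) × (Fin p → ℂ) → ℝ := fun y =>
    ∑ x ∈ t, ∑ κ', ‖∑ κ, F x κ' κ y.1 * y.2 κ‖ ^ 2 with hP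
  have hPc : Continuous P := continuous_finsetSum _ fun x _ => continuous_finsetSum _ fun κ' _ =>
    (hnc x κ').norm.pow 2
  have hPpos : ∀ y ∈ K₀ ×ˢ S, 0 < P y := by
    intro y hy
    obtain ⟨x, hx⟩ := Set.mem_iUnion.1 (ht hy)
    obtain ⟨hxt, hxy⟩ := Set.mem_iUnion.1 hx
    have h3 : 0 < ‖∑ κ, F x 0 κ y.1 * y.2 κ‖ ^ 2 := pow_pos (norm_pos_iff.2 hxy) 2
    have h4 : ‖∑ κ, F x 0 κ y.1 * y.2 κ‖ ^ 2 ≤ ∑ κ', ‖∑ κ, F x κ' κ y.1 * y.2 κ‖ ^ 2 :=
      Finset.single_le_sum (f := fun κ' => ‖∑ κ, F x κ' κ y.1 * y.2 κ‖ ^ 2)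
        (fun _ _ => sq_nonneg _) (Finset.mem_univ _)
    have h5 : ∑ κ', ‖∑ κ, F x κ' κ y.1 * y.2 κ‖ ^ 2 ≤ P y :=
      Finset.single_le_sum (f := fun x => ∑ κ', ‖∑ κ, F x κ' κ y.1 * y.2 κ‖ ^ 2)
        (fun _ _ => Finset.sum_nonneg fun _ _ => sq_nonneg _) hxt
    linarith
  obtain ⟨τ', hτ', hτ'P⟩ : ∃ τ' : ℝ, 0 < τ' ∧ ∀ y ∈ K₀ ×ˢ S, τ' ≤ P y := by
    by_cases hne : (K₀ ×ˢ S).Nonempty
    · obtain ⟨y0, hy0, hmin⟩ := (hK₀c.prod hSc).exists_isMinOn hne hPc.continuousOn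
      exact ⟨P y0, hPpos y0 hy0, fun y hy => hmin hy⟩
    · exact ⟨1, one_pos, fun y hy => absurd ⟨y, hy⟩ hne⟩
  refine ⟨t, inferInstance, fun x => F x, τ' / (p + 1), K₀, by positivity,
    fun x κ' κ => hFC x κ' κ, fun x a h => ?_, hOo.isClosed_compl.measurableSet, ?_, ?_⟩
  · exact AA_equi L μ ρ₁ ρ₂ h₁ h₂ _ _ _ a h
  · rw [hK₀, compl_compl, measureReal_def]
    exact ENNReal.toReal_le_of_le_ofReal hε.le hO.le
  · intro h hh v
    by_cases hv : v = 0
    · subst hv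
      simp
    have hvn : 0 < ‖v‖ := norm_pos_iff.2 hv
    set u : Fin p → ℂ := ((‖v‖⁻¹ : ℝ) : ℂ) • v with hu
    have huS : u ∈ S := by
      rw [hS, mem_sphere_zero_iff_norm, hu, norm_smul, Complex.norm_real, norm_inv, norm_norm]
      exact inv_mul_cancel₀ hvn.ne'
    have h3 := hτ'P (h, u) ⟨hh, huS⟩
    have h4 : P (h, u) = (‖v‖⁻¹) ^ 2 * ∑ x ∈ t, ∑ κ', ‖∑ κ, F x κ' κ h * v κ‖ ^ 2 := by
      simp only [hP, Finset.mul_sum]
      refine Finset.sum_congr rfl fun x _ => Finset.sum_congr rfl fun κ' _ => ?_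
      have h5 : ∑ κ, F x κ' κ h * u κ = ((‖v‖⁻¹ : ℝ) : ℂ) * ∑ κ, F x κ' κ h * v κ := by
        rw [Finset.mul_sum]
        refine Finset.sum_congr rfl fun κ _ => ?_
        simp only [hu, Pi.smul_apply, smul_eq_mul]
        ring
      rw [h5, norm_mul, mul_pow, Complex.norm_real, norm_inv, norm_norm]
    have h6 : ∑ κ, ‖v κ‖ ^ 2 ≤ p * ‖v‖ ^ 2 := by
      refine (Finset.sum_le_card_nsmul _ _ (‖v‖ ^ 2) fun κ _ =>
        pow_le_pow_left₀ (norm_nonneg _) (norm_le_pi_norm v κ) 2).trans (le_of_eq ?_)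
      simp
    rw [h4] at h3
    have h7 : τ' * ‖v‖ ^ 2 ≤ ∑ x ∈ t, ∑ κ', ‖∑ κ, F x κ' κ h * v κ‖ ^ 2 := by
      have h8 := mul_le_mul_of_nonneg_right h3 (sq_nonneg ‖v‖)
      have h9 : ‖v‖⁻¹ ^ 2 * (∑ x ∈ t, ∑ κ', ‖∑ κ, F x κ' κ h * v κ‖ ^ 2) * ‖v‖ ^ 2 =
          ∑ x ∈ t, ∑ κ', ‖∑ κ, F x κ' κ h * v κ‖ ^ 2 := by
        field_simp
      rwa [h9] at h8
    have h12 : ∑ x : t, ∑ κ', ‖∑ κ, F x κ' κ h * v κ‖ ^ 2 =
        ∑ x ∈ t, ∑ κ', ‖∑ κ, F x κ' κ h * v κ‖ ^ 2 :=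
      Finset.sum_coe_sort t (fun x => ∑ κ', ‖∑ κ, F x κ' κ h * v κ‖ ^ 2)
    show _ ≤ ∑ x : t, ∑ κ', ‖∑ κ, F x κ' κ h * v κ‖ ^ 2
    rw [h12]
    refine le_trans ?_ h7
    rw [div_mul_eq_mul_div, div_le_iff₀ (by positivity)]
    have h10 : τ' * ∑ κ, ‖v κ‖ ^ 2 ≤ τ' * (p * ‖v‖ ^ 2) := mul_le_mul_of_nonneg_left h6 hτ'.le
    have h11 : 0 ≤ τ' * ‖v‖ ^ 2 := by positivity
    nlinarith

end

end Pool.Agent.X168.NA
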