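import Mathlib
import Pool.Agent.X168.NA.Equi
import Pool.Agent.X168.NA.Comm

/-!
# Holonomies of words
-/

open MeasureTheory Matrix Filter Topology
open scoped Matrix.Norms.Frobenius ContDiff

namespace Pool.Agent.X168.NA

set_option linter.unusedSectionVars false

noncomputable section

section alg

variable {G : Type} [Group G] {E X : Type}

/-- holonomy of a word -/
def hol : List (E × Bool) → (E → G) → G
  | [], _ => 1
  | (e, true) :: w, U => U e * hol w U
  | (e, false) :: w, U => (U e)⁻¹ * hol w U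

lemma hol_append (w w' : List (E × Bool)) (U : E → G) :
    hol (w ++ w') U = hol w U * hol w' U := by
  induction w with
  | nil => simp [hol]
  | cons x w ih =>
    obtain ⟨e, b⟩ := x
    cases b
    · simp [hol, ih, mul_assoc]
    · simp [hol, ih, mul_assoc]

/-- the reversed word -/
def rev (w : List (E × Bool)) : List (E × Bool) := (w.map fun x => (x.1, !x.2)).reverse

lemma hol_rev (w : List (E × Bool)) (U : E → G) : hol (rev w) U = (hol w U)⁻¹ := by
  induction w with
  | nil => simp [hol, rev]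
  | cons x w ih =>
    obtain ⟨e, b⟩ := x
    have h : rev ((e, b) :: w) = rev w ++ [(e, !b)] := by simp [rev]
    rw [h, hol_append, ih]
    cases b <;> simp [hol]

/-- `w` is a path from `u` to `v` -/
def IsPath (src tgt : E → X) : X → List (E × Bool) → X → Prop
  | u, [], v => u = v
  | u, (e, true) :: w, v => src e = u ∧ IsPath src tgt (tgt e) w v
  | u, (e, false) :: w, v => tgt e = u ∧ IsPath src tgt (src e) w v

lemma IsPath.append {src tgt : E → X} {u v z : X} {w w' : List (E × Bool)}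
    (h : IsPath src tgt u w v) (h' : IsPath src tgt v w' z) : IsPath src tgt u (w ++ w') z := by
  induction w generalizing u with
  | nil =>
    have : u = v := h
    subst this
    exact h'
  | cons x w ih =>
    obtain ⟨e, b⟩ := x
    cases b
    · exact ⟨h.1, ih h.2⟩
    · exact ⟨h.1, ih h.2⟩

lemma IsPath.rev {src tgt : E → X} {u v : X} {w : List (E × Bool)}
    (h : IsPath src tgt u w v) : IsPath src tgt v (rev w) u := by
  induction w generalizing u with
  | nil =>
    have : u = v := h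
    subst this
    exact rfl
  | cons x w ih =>
    obtain ⟨e, b⟩ := x
    have h1 : NA.rev ((e, b) :: w) = NA.rev w ++ [(e, !b)] := by simp [NA.rev]
    rw [h1]
    cases b
    · exact (ih h.2).append ⟨rfl, h.1⟩
    · exact (ih h.2).append ⟨rfl, h.1⟩

lemma hol_gt {src tgt : E → X} {u v : X} {w : List (E × Bool)} (h : IsPath src tgt u w v)
    (γ : X → G) (U : E → G) : hol w (gt src tgt γ U) = γ u * hol w U * (γ v)⁻¹ := by
  induction w generalizing u with
  | nil =>
    have : u = v := h
    subst this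
    simp [hol]
  | cons x w ih =>
    obtain ⟨e, b⟩ := x
    cases b
    · have h1 := ih h.2
      simp only [hol, h1]
      unfold gt
      rw [h.1]
      group
    · have h1 := ih h.2
      simp only [hol, h1]
      unfold gt
      rw [h.1]
      group

variable [DecidableEq E]

/-- number of occurrences of a link in a word -/
def cnt (e : E) (w : List (E × Bool)) : ℕ := (w.map Prod.fst).count e

@[simp] lemma cnt_nil (e : E) : cnt e [] = 0 := by simp [cnt]

lemma cnt_append (e : E) (w w' : List (E × Bool)) : cnt e (w ++ w') = cnt e w + cnt e w' := by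
  simp [cnt]

lemma cnt_rev (e : E) (w : List (E × Bool)) : cnt e (rev w) = cnt e w := by
  unfold cnt rev
  rw [List.map_reverse, List.count_reverse, List.map_map]
  rfl

lemma cnt_cons (e : E) (x : E × Bool) (w : List (E × Bool)) :
    cnt e (x :: w) = cnt e w + if x.1 = e then 1 else 0 := by
  unfold cnt
  rw [List.map_cons, List.count_cons]
  simp

lemma hol_congr {w : List (E × Bool)} {U U' : E → G} (h : ∀ e, cnt e w ≠ 0 → U e = U' e) :
    hol w U = hol w U' := by
  induction w with
  | nil => rfl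
  | cons x w ih =>
    obtain ⟨e, b⟩ := x
    have h1 := ih fun e' he' => h e' (by rw [cnt_cons]; omega)
    have h2 : U e = U' e := h e (by rw [cnt_cons]; simp)
    cases b
    · simp only [hol, h1, h2]
    · simp only [hol, h1, h2]

end alg

variable {G : Type} [Group G] [TopologicalSpace G] {N n : ℕ} (L : GD G N n)
  {E : Type} [Fintype E] [DecidableEq E]
  {V : Type} [NormedAddCommGroup V] [NormedSpace ℝ V]
  [IsTopologicalGroup G] [CompactSpace G]

lemma rho_inv_entry (g : G) (i j : Fin N) :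
    (L.rho g⁻¹ : Mat N) i j = (starRingEnd ℂ) ((L.rho g : Mat N) j i) := by
  rw [map_inv]
  rfl

lemma rho_mul_entry (g h : G) (i j : Fin N) :
    (L.rho (g * h) : Mat N) i j = ∑ k, (L.rho g : Mat N) i k * (L.rho h : Mat N) k j := by
  rw [map_mul]
  rfl

lemma hol_C1 (w : List (E × Bool)) (i j : Fin N) :
    C1 L fun U : E → G => (L.rho (hol w U) : Mat N) i j := by
  induction w generalizing i with
  | nil =>
    show C1 L fun _ : E → G => (L.rho (1 : G) : Mat N) i j
    exact C1.const _
  | cons x w ih =>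
    obtain ⟨e, b⟩ := x
    cases b
    · have h : (fun U : E → G => (L.rho (hol ((e, false) :: w) U) : Mat N) i j) =
          fun U => ∑ k, (starRingEnd ℂ) ((L.rho (U e) : Mat N) k i) *
            (L.rho (hol w U) : Mat N) k j := by
        funext U
        simp only [hol, rho_mul_entry, rho_inv_entry]
      rw [h]
      exact C1.sum _ fun k _ => (C1.entry e k i).conj.mul (ih k)
    · have h : (fun U : E → G => (L.rho (hol ((e, true) :: w) U) : Mat N) i j) =
          fun U => ∑ k, (L.rho (U e) : Mat N) i k * (L.rho (hol w U) : Mat N) k j := by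
        funext U
        simp only [hol, rho_mul_entry]
      rw [h]
      exact C1.sum _ fun k _ => (C1.entry e i k).mul (ih k)

/-- a family of matrices is `C¹` if its entries are -/
lemma C1_of_entries {ι : Type} [Fintype ι] {M : (E → G) → (ι → Mat N)}
    (h : ∀ s i j, C1 L fun U => M U s i j) : C1 L M := by
  choose f hf hfM using h
  let T : (ι → Fin N → Fin N → ℂ) →ₗ[ℝ] (ι → Mat N) :=
    { toFun := fun x s => Matrix.of (x s)
      map_add' := fun _ _ => rfl
      map_smul' := fun _ _ => rfl }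
  refine ⟨fun A => LinearMap.toContinuousLinearMap T fun s i j => f s i j A, ?_, fun U => ?_⟩
  · refine (LinearMap.toContinuousLinearMap T).contDiff.comp ?_
    exact contDiff_pi.2 fun s => contDiff_pi.2 fun i => contDiff_pi.2 fun j => hf s i j
  · funext s
    ext i j
    show M U s i j = f s i j (mats L U)
    exact hfM s i j U

variable {L}

lemma C1.compG {ι : Type} [Fintype ι] {F : (ι → G) → V} (hF : C1 L F)
    {H : (E → G) → (ι → G)} (hH : C1 L fun U => mats L (H U)) : C1 L fun U => F (H U) := by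
  obtain ⟨f, hf, h⟩ := hF
  obtain ⟨f', hf', h'⟩ := hH
  refine ⟨fun M => f (f' M), hf.comp hf', fun U => ?_⟩
  show F (H U) = f (f' (mats L U))
  rw [h, ← h']

lemma C1.comp_hol {ι : Type} [Fintype ι] {F : (ι → G) → V} (hF : C1 L F)
    (W : ι → List (E × Bool)) : C1 L fun U => F fun s => hol (W s) U :=
  hF.compG (C1_of_entries L fun s i j => hol_C1 L (W s) i j)

lemma rho_bdd (L : GD G N n) : ∃ R : ℝ, 0 ≤ R ∧ ∀ g : G, ‖(L.rho g : Mat N)‖ ≤ R := by
  have hc : Continuous fun g : G => (L.rho g : Mat N) := continuous_subtype_val.comp L.cont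
  obtain ⟨C, hC⟩ := (isCompact_univ.image hc.norm).bddAbove
  exact ⟨max C 0, le_max_right _ _, fun g => (hC ⟨g, trivial, rfl⟩).trans (le_max_left _ _)⟩

lemma lip_ball {𝔸 W : Type} [NormedAddCommGroup 𝔸] [NormedSpace ℝ 𝔸] [FiniteDimensional ℝ 𝔸]
    [NormedAddCommGroup W] [NormedSpace ℝ W] {f : 𝔸 → W} (hf : ContDiff ℝ 1 f) (R : ℝ) :
    ∃ C : ℝ, 0 ≤ C ∧ ∀ x ∈ Metric.closedBall (0 : 𝔸) R, ∀ y ∈ Metric.closedBall (0 : 𝔸) R,
      ‖f y - f x‖ ≤ C * ‖y - x‖ := by
  have hprop : ProperSpace 𝔸 := FiniteDimensional.proper ℝ _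
  have hc : Continuous (fderiv ℝ f) := hf.continuous_fderiv (by simp)
  obtain ⟨C, hC⟩ := ((isCompact_closedBall (0 : 𝔸) R).image hc.norm).bddAbove
  refine ⟨max C 0, le_max_right _ _, fun x hx y hy => ?_⟩
  exact Convex.norm_image_sub_le_of_norm_fderiv_le (𝕜 := ℝ)
    (fun x _ => (hf.differentiable (by simp)).differentiableAt)
    (fun x hx => (hC ⟨x, hx, rfl⟩).trans (le_max_left _ _))
    (convex_closedBall _ _) hx hy

lemma C1.lip {ι : Type} [Fintype ι] {F : (ι → G) → V} (hF : C1 L F) :
    ∃ Λ : ℝ, 0 ≤ Λ ∧ ∀ h h' : ι → G, ‖F h' - F h‖ ≤ Λ * ‖mats L h' - mats L h‖ := by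
  obtain ⟨f, hf, hfF⟩ := hF
  obtain ⟨R, hR0, hR⟩ := rho_bdd L
  obtain ⟨C, hC0, hC⟩ := lip_ball (𝔸 := ι → Mat N) hf R
  refine ⟨C, hC0, fun h h' => ?_⟩
  rw [hfF, hfF]
  have hmem : ∀ h : ι → G, mats L h ∈ Metric.closedBall (0 : ι → Mat N) R := by
    intro h
    rw [mem_closedBall_zero_iff]
    exact (pi_norm_le_iff_of_nonneg hR0).2 fun s => hR _
  exact hC _ (hmem h) _ (hmem h')

lemma lip_of_deriv {W : Type} [NormedAddCommGroup W] [NormedSpace ℝ W] {f f' : ℝ → W}
    (hd : ∀ s, HasDerivAt f (f' s) s) {C : ℝ} (hb : ∀ s, ‖f' s‖ ≤ C) (t : ℝ) :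
    ‖f t - f 0‖ ≤ C * |t| := by
  have h1 := Convex.norm_image_sub_le_of_norm_deriv_le (𝕜 := ℝ) (C := C)
    (fun s (_ : s ∈ (Set.univ : Set ℝ)) => (hd s).differentiableAt)
    (fun s _ => by rw [(hd s).deriv]; exact hb s) convex_univ
    (Set.mem_univ (0:ℝ)) (Set.mem_univ t)
  rwa [sub_zero, Real.norm_eq_abs] at h1

lemma ex_lip (L : GD G N n) : ∃ C : ℝ, 0 ≤ C ∧ ∀ a (t : ℝ),
    ‖(L.rho (L.ex a t) : Mat N) - 1‖ ≤ C * |t| := by
  obtain ⟨R, hR0, hR⟩ := rho_bdd L
  refine ⟨(∑ a, ‖L.X a‖) * R, mul_nonneg (Finset.sum_nonneg fun _ _ => norm_nonneg _) hR0,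
    fun a t => ?_⟩
  have h1 := lip_of_deriv (C := (∑ a, ‖L.X a‖) * R) (fun s => exp_deriv (L.X a) s) (fun s => by
    refine (norm_mul_le _ _).trans ?_
    refine mul_le_mul (Finset.single_le_sum (f := fun a => ‖L.X a‖)
      (fun _ _ => norm_nonneg _) (Finset.mem_univ a)) ?_ (norm_nonneg _)
      (Finset.sum_nonneg fun _ _ => norm_nonneg _)
    rw [← L.ex_eq]
    exact hR _) t
  rw [zero_smul, NormedSpace.exp_zero, ← L.ex_eq] at h1
  exact h1

/-- dependence of a holonomy on a link -/
lemma hol_lip (L : GD G N n) : ∃ C : ℝ, 0 ≤ C ∧ ∀ (E : Type) [Fintype E] [DecidableEq E]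
    (w : List (E × Bool)) (x : E) (a : Fin n) (t : ℝ) (U : E → G) (p : G),
    ‖(L.rho (p * hol w (Pi.mulSingle x (L.ex a t) * U)) : Mat N) - (L.rho (p * hol w U) : Mat N)‖ ≤
      cnt x w * (C * |t|) := by
  obtain ⟨R, hR0, hR⟩ := rho_bdd L
  obtain ⟨C, hC0, hC⟩ := ex_lip L
  refine ⟨R * R * (R * C + C), by positivity, ?_⟩
  intro E _ _ w x a t U p
  -- one letter
  have hmulc : ∀ g h : G, (L.rho (g * h) : Mat N) = (L.rho g : Mat N) * (L.rho h : Mat N) :=
    fun g h => by rw [map_mul]; rfl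
  have hone : (L.rho (1 : G) : Mat N) = 1 := by rw [map_one]; rfl
  have hl : ∀ g p q : G, ‖(L.rho (p * (g * q)) : Mat N) - (L.rho (p * q) : Mat N)‖ ≤
      R * R * ‖(L.rho g : Mat N) - 1‖ := by
    intro g p q
    have h1 : (L.rho (p * (g * q)) : Mat N) - (L.rho (p * q) : Mat N) =
        (L.rho p : Mat N) * (((L.rho g : Mat N) - 1) * (L.rho q : Mat N)) := by
      rw [hmulc, hmulc, hmulc, sub_mul, mul_sub, one_mul]
    rw [h1]
    refine (norm_mul_le _ _).trans ?_
    have h2 : ‖((L.rho g : Mat N) - 1) * (L.rho q : Mat N)‖ ≤ ‖(L.rho g : Mat N) - 1‖ * R :=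
      (norm_mul_le _ _).trans (mul_le_mul_of_nonneg_left (hR q) (norm_nonneg _))
    have h3 := mul_le_mul (hR p) h2 (norm_nonneg _) hR0
    linarith
  have hinv : ∀ g : G, ‖(L.rho g⁻¹ : Mat N) - 1‖ ≤ R * ‖(L.rho g : Mat N) - 1‖ := by
    intro g
    have h1 : (L.rho g⁻¹ : Mat N) - 1 = -((L.rho g⁻¹ : Mat N) * ((L.rho g : Mat N) - 1)) := by
      rw [mul_sub, ← hmulc, inv_mul_cancel, hone, mul_one]
      abel
    rw [h1, norm_neg]
    exact (norm_mul_le _ _).trans (mul_le_mul_of_nonneg_right (hR _) (norm_nonneg _))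
  have hfin : ∀ g p q : G, ‖(L.rho g : Mat N) - 1‖ ≤ (R * C + C) * |t| →
      ‖(L.rho (p * (g * q)) : Mat N) - (L.rho (p * q) : Mat N)‖ ≤
        R * R * (R * C + C) * |t| := by
    intro g p q hg
    refine (hl g p q).trans ?_
    rw [mul_assoc (R * R)]
    exact mul_le_mul_of_nonneg_left hg (by positivity)
  have hg1 : ‖(L.rho (L.ex a t) : Mat N) - 1‖ ≤ (R * C + C) * |t| := by
    refine (hC a t).trans ?_
    refine mul_le_mul_of_nonneg_right ?_ (abs_nonneg _)
    nlinarith [mul_nonneg hR0 hC0]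
  have hg2 : ‖(L.rho (L.ex a t)⁻¹ : Mat N) - 1‖ ≤ (R * C + C) * |t| := by
    refine (hinv _).trans ?_
    have h1 := mul_le_mul_of_nonneg_left (hC a t) hR0
    nlinarith [mul_nonneg hC0 (abs_nonneg t)]
  induction w generalizing p with
  | nil => simp [hol]
  | cons y w ih =>
    obtain ⟨e, b⟩ := y
    have hU' : ∀ e, (Pi.mulSingle x (L.ex a t) * U : E → G) e =
        if e = x then L.ex a t * U e else U e := by
      intro e
      by_cases h : e = x
      · subst h
        rw [if_pos rfl, Pi.mul_apply, Pi.mulSingle_eq_same]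
      · rw [if_neg h, Pi.mul_apply, Pi.mulSingle_eq_of_ne h, one_mul]
    rw [cnt_cons]
    push_cast
    have tri : ∀ A B D : Mat N, ‖A - D‖ ≤ ‖A - B‖ + ‖B - D‖ := fun A B D =>
      norm_sub_le_norm_sub_add_norm_sub A B D
    cases b
    · by_cases he : e = x
      · subst he
        simp only [hol, hU', if_true]
        rw [_root_.mul_inv_rev]
        have h1 := hfin (L.ex a t)⁻¹ (p * (U e)⁻¹) (hol w (Pi.mulSingle e (L.ex a t) * U)) hg2
        have h2 := ih (p * (U e)⁻¹)
        have h3 : p * ((U e)⁻¹ * (L.ex a t)⁻¹ * hol w (Pi.mulSingle e (L.ex a t) * U)) =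
            p * (U e)⁻¹ * ((L.ex a t)⁻¹ * hol w (Pi.mulSingle e (L.ex a t) * U)) := by group
        have h4 : p * ((U e)⁻¹ * hol w U) = p * (U e)⁻¹ * hol w U := by group
        rw [h3, h4]
        refine (tri _ _ _).trans ((add_le_add h1 h2).trans (le_of_eq ?_))
        ring
      · simp only [hol, hU', if_neg he]
        have h2 := ih (p * (U e)⁻¹)
        rw [mul_assoc, mul_assoc] at h2
        simpa using h2
    · by_cases he : e = x
      · subst he
        simp only [hol, hU', if_true]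
        have h1 := hfin (L.ex a t) p (U e * hol w (Pi.mulSingle e (L.ex a t) * U)) hg1
        have h2 := ih (p * U e)
        have h3 : p * (L.ex a t * U e * hol w (Pi.mulSingle e (L.ex a t) * U)) =
            p * (L.ex a t * (U e * hol w (Pi.mulSingle e (L.ex a t) * U))) := by group
        rw [mul_assoc, mul_assoc] at h2
        rw [h3]
        refine (tri _ _ _).trans ((add_le_add h1 h2).trans (le_of_eq ?_))
        ring
      · simp only [hol, hU', if_neg he]
        have h2 := ih (p * U e)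
        rw [mul_assoc, mul_assoc] at h2
        simpa using h2

/-- bound of the derivative of a function of holonomies -/
lemma dl_hol_le {ι : Type} [Fintype ι] {F : (ι → G) → V} (hF : C1 L F) :
    ∃ Λ : ℝ, 0 ≤ Λ ∧ ∀ (E : Type) [Fintype E] [DecidableEq E] (W : ι → List (E × Bool)) (x : E)
      (c : ℕ), (∀ s, cnt x (W s) ≤ c) → ∀ (a : Fin n) (U : E → G),
      ‖dl L x a (fun U => F fun s => hol (W s) U) U‖ ≤ Λ * c := by
  obtain ⟨Λ, hΛ0, hΛ⟩ := hF.lip
  obtain ⟨C, hC0, hC⟩ := hol_lip L
  refine ⟨Λ * C, by positivity, ?_⟩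
  intro E _ _ W x c hc a U
  refine norm_dl_le (by positivity) fun t => ?_
  refine (hΛ _ _).trans ?_
  have h1 : ‖(mats L fun s => hol (W s) (Pi.mulSingle x (L.ex a t) * U)) -
      mats L fun s => hol (W s) U‖ ≤ c * (C * |t|) := by
    refine (pi_norm_le_iff_of_nonneg (by positivity)).2 fun s => ?_
    have h2 := hC E (W s) x a t U 1
    rw [one_mul, one_mul] at h2
    refine h2.trans ?_
    exact mul_le_mul_of_nonneg_right (by exact_mod_cast hc s) (by positivity)
  refine (mul_le_mul_of_nonneg_left h1 hΛ0).trans (le_of_eq ?_)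
  ring

lemma dl_hol_zero {ι : Type} [Fintype ι] (F : (ι → G) → V) (W : ι → List (E × Bool)) {x : E}
    (hx : ∀ s, cnt x (W s) = 0) (a : Fin n) (U : E → G) :
    dl L x a (fun U => F fun s => hol (W s) U) U = 0 := by
  refine dl_zero (fun g U => ?_) a U
  congr 1
  funext s
  refine hol_congr fun e he => ?_
  have : e ≠ x := by
    rintro rfl
    exact he (hx s)
  rw [Pi.mul_apply, Pi.mulSingle_eq_of_ne this, one_mul]

end

end Pool.Agent.X168.NA
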