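import Mathlib
import Pool.Agent.X168.NA.Word

/-!
# Geometry of the lattice
-/

open MeasureTheory Matrix Filter Topology
open scoped Matrix.Norms.Frobenius ContDiff

namespace Pool.Agent.X168.NA

set_option linter.unusedSectionVars false

noncomputable section

/-- links -/
abbrev Lk (D l : ℕ) := (Fin D → ZMod l) × Fin D

/-- source -/
def sr {D l : ℕ} (e : Lk D l) : Fin D → ZMod l := e.1

/-- target -/
def tg {D l : ℕ} (e : Lk D l) : Fin D → ZMod l := e.1 + Pi.single e.2 1

variable {D l : ℕ}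

/-- the straight path of `m` steps in direction `i` from `x` -/
def seg (x : Fin D → ZMod l) (i : Fin D) (m : ℕ) : List (Lk D l × Bool) :=
  (List.range m).map fun s : ℕ => ((x + Pi.single i (s : ZMod l), i), true)

lemma seg_succ (x : Fin D → ZMod l) (i : Fin D) (m : ℕ) :
    seg x i (m + 1) = seg x i m ++ [((x + Pi.single i (m : ZMod l), i), true)] := by
  unfold seg
  rw [List.range_succ, List.map_append]
  rfl

lemma seg_path (x : Fin D → ZMod l) (i : Fin D) (m : ℕ) :
    IsPath sr tg x (seg x i m) (x + Pi.single i (m : ZMod l)) := by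
  induction m with
  | zero =>
    show x = x + Pi.single i ((0 : ℕ) : ZMod l)
    simp
  | succ m ih =>
    rw [seg_succ]
    refine ih.append ⟨rfl, ?_⟩
    show x + Pi.single i (m : ZMod l) + Pi.single i 1 = x + Pi.single i ((m + 1 : ℕ) : ZMod l)
    rw [add_assoc, ← Pi.single_add]
    push_cast
    rfl

lemma seg_length (x : Fin D → ZMod l) (i : Fin D) (m : ℕ) : (seg x i m).length = m := by
  simp [seg]

lemma mem_of_cnt {E : Type} [DecidableEq E] {e : E} {w : List (E × Bool)} (h : cnt e w ≠ 0) :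
    e ∈ w.map Prod.fst := by
  unfold cnt at h
  exact List.count_pos_iff.1 (Nat.pos_of_ne_zero h)

lemma cnt_eq_zero {E : Type} [DecidableEq E] {e : E} {w : List (E × Bool)}
    (h : e ∉ w.map Prod.fst) : cnt e w = 0 := by
  unfold cnt
  exact List.count_eq_zero.2 h

lemma cnt_le_one {E : Type} [DecidableEq E] {w : List (E × Bool)} (h : (w.map Prod.fst).Nodup)
    (e : E) : cnt e w ≤ 1 := List.nodup_iff_count_le_one.1 h e

lemma seg_mem {x : Fin D → ZMod l} {i : Fin D} {m : ℕ} {e : Lk D l}
    (h : e ∈ (seg x i m).map Prod.fst) : ∃ s < m, e = (x + Pi.single i (s : ZMod l), i) := by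
  unfold seg at h
  rw [List.map_map, List.mem_map] at h
  obtain ⟨s, hs, rfl⟩ := h
  exact ⟨s, List.mem_range.1 hs, rfl⟩

lemma cast_inj' {s t : ℕ} (hs : s < l) (ht : t < l) (h : (s : ZMod l) = (t : ZMod l)) : s = t := by
  have h1 := (ZMod.natCast_eq_natCast_iff' s t l).1 h
  rwa [Nat.mod_eq_of_lt hs, Nat.mod_eq_of_lt ht] at h1

lemma seg_cnt (x : Fin D → ZMod l) (i : Fin D) {m : ℕ} (hm : m ≤ l) (e : Lk D l) :
    cnt e (seg x i m) ≤ 1 := by
  refine cnt_le_one ?_ e
  unfold seg
  rw [List.map_map]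
  refine List.Nodup.map_on ?_ List.nodup_range
  intro s hs t ht hst
  have hs' := List.mem_range.1 hs
  have ht' := List.mem_range.1 ht
  have h1 := congrArg Prod.fst hst
  have h2 := congrFun h1 i
  simp only [Function.comp_apply, Pi.add_apply, Pi.single_eq_same, add_right_inj] at h2
  exact cast_inj' (by omega) (by omega) h2

/-! ### the loops -/

/-- corner path -/
def cp (a b : Fin D) (x : Fin D → ZMod l) (i j : ℕ) : List (Lk D l × Bool) :=
  seg x a i ++ seg (x + Pi.single a (i : ZMod l)) b j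

/-- private link -/
def pl (a b : Fin D) (x : Fin D → ZMod l) (i j : ℕ) : Lk D l :=
  (x + Pi.single a (i : ZMod l) + Pi.single b (j : ZMod l), a)

/-- loop -/
def lp (a b : Fin D) (x : Fin D → ZMod l) (i j : ℕ) : List (Lk D l × Bool) :=
  cp a b x i j ++ ([(pl a b x i j, true)] ++ rev (cp a b x (i + 1) j))

lemma cp_path (a b : Fin D) (x : Fin D → ZMod l) (i j : ℕ) :
    IsPath sr tg x (cp a b x i j) (x + Pi.single a (i : ZMod l) + Pi.single b (j : ZMod l)) :=
  (seg_path x a i).append (seg_path _ b j)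

lemma lp_path (a b : Fin D) (x : Fin D → ZMod l) (i j : ℕ) :
    IsPath sr tg x (lp a b x i j) x := by
  refine (cp_path a b x i j).append ?_
  have h1 : IsPath sr tg (x + Pi.single a (i : ZMod l) + Pi.single b (j : ZMod l))
      [(pl a b x i j, true)]
      (x + Pi.single a ((i + 1 : ℕ) : ZMod l) + Pi.single b (j : ZMod l)) := by
    refine ⟨rfl, ?_⟩
    show x + Pi.single a (i : ZMod l) + Pi.single b (j : ZMod l) + Pi.single a 1 =
      x + Pi.single a ((i + 1 : ℕ) : ZMod l) + Pi.single b (j : ZMod l)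
    push_cast
    rw [Pi.single_add]
    abel
  exact h1.append (cp_path a b x (i + 1) j).rev

lemma cp_cnt (a b : Fin D) (x : Fin D → ZMod l) {i j : ℕ} (hi : i ≤ l) (hj : j ≤ l) (e : Lk D l) :
    cnt e (cp a b x i j) ≤ 2 := by
  unfold cp
  rw [cnt_append]
  have h1 := seg_cnt x a hi e
  have h2 := seg_cnt (x + Pi.single a (i : ZMod l)) b hj e
  omega

lemma lp_cnt (a b : Fin D) (x : Fin D → ZMod l) {i j : ℕ} (hi : i + 1 ≤ l) (hj : j ≤ l)
    (e : Lk D l) : cnt e (lp a b x i j) ≤ 5 := by
  unfold lp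
  rw [cnt_append, cnt_append, cnt_rev, cnt_cons, cnt_nil]
  have h1 := cp_cnt a b x (by omega : i ≤ l) hj e
  have h2 := cp_cnt a b x hi hj e
  split_ifs <;> omega

lemma length_rev {E : Type} (w : List (E × Bool)) : (rev w).length = w.length := by
  simp [rev]

lemma lp_length (a b : Fin D) (x : Fin D → ZMod l) (i j : ℕ) :
    (lp a b x i j).length = 2 * (i + j + 1) := by
  unfold lp cp
  simp only [List.length_append, length_rev, seg_length, List.length_cons, List.length_nil]
  ring

/-- the corner paths do not contain private links -/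
lemma cp_pl {a b : Fin D} (hab : a ≠ b) (x : Fin D → ZMod l) {i j i' j' : ℕ} (hj' : 1 ≤ j')
    (hj'l : j' < l) : cnt (pl a b x i' j') (cp a b x i j) = 0 := by
  refine cnt_eq_zero fun h => ?_
  unfold cp at h
  rw [List.map_append, List.mem_append] at h
  rcases h with h | h
  · obtain ⟨s, hs, he⟩ := seg_mem h
    have h1 := congrFun (congrArg Prod.fst he) b
    simp only [pl, Pi.add_apply, Pi.single_eq_same, Pi.single_eq_of_ne hab.symm, add_zero] at h1
    have h2 : (j' : ZMod l) = ((0 : ℕ) : ZMod l) := by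
      rw [Nat.cast_zero]
      exact add_eq_left.1 h1
    have := cast_inj' hj'l (by omega) h2
    omega
  · obtain ⟨s, hs, he⟩ := seg_mem h
    exact hab (congrArg Prod.snd he)

lemma pl_inj {a b : Fin D} (hab : a ≠ b) {x : Fin D → ZMod l} {i j i' j' : ℕ} (hi : i < l)
    (hi' : i' < l) (hj : j < l) (hj' : j' < l) (h : pl a b x i j = pl a b x i' j') :
    i = i' ∧ j = j' := by
  have h0 := congrArg Prod.fst h
  have h1 := congrFun h0 a
  have h2 := congrFun h0 b
  simp only [pl, Pi.add_apply, Pi.single_eq_same, Pi.single_eq_of_ne hab,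
    Pi.single_eq_of_ne hab.symm, add_zero, add_right_inj] at h1 h2
  exact ⟨cast_inj' hi hi' h1, cast_inj' hj hj' h2⟩

/-! ### regions -/

/-- height of the `s`-th loop of the region `r` -/
def ht {m k : ℕ} (r : Fin m × Fin m) (s : Fin k) : ℕ := 1 + r.2 * k + s

lemma ht_le {m k : ℕ} (r : Fin m × Fin m) (s : Fin k) : 1 ≤ ht r s ∧ ht r s ≤ m * k := by
  unfold ht
  have h1 := r.2.2
  have h2 := s.2
  refine ⟨by omega, ?_⟩
  have h3 : (r.2 : ℕ) + 1 ≤ m := h1
  have h4 : ((r.2 : ℕ) + 1) * k ≤ m * k := Nat.mul_le_mul_right k h3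
  nlinarith

lemma ht_inj {m k : ℕ} {r r' : Fin m × Fin m} {s s' : Fin k} (h : ht r s = ht r' s') :
    r.2 = r'.2 ∧ s = s' := by
  unfold ht at h
  have h1 := s.2
  have h2 := s'.2
  have hk : 0 < k := by omega
  have h3 : (r.2 : ℕ) * k + s = r'.2 * k + s' := by omega
  have h4 : ((r.2 : ℕ) * k + s) / k = r.2 := by
    rw [mul_comm, Nat.mul_add_div hk, Nat.div_eq_of_lt h1, add_zero]
  have h5 : ((r'.2 : ℕ) * k + s') / k = r'.2 := by
    rw [mul_comm, Nat.mul_add_div hk, Nat.div_eq_of_lt h2, add_zero]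
  have h6 : (r.2 : ℕ) = r'.2 := by rw [← h4, ← h5, h3]
  refine ⟨Fin.ext h6, Fin.ext ?_⟩
  rw [h6] at h3
  omega

/-- the private links of all regions -/
def pls {m k : ℕ} (a b : Fin D) (x : Fin D → ZMod l) (q : (Fin m × Fin m) × Fin k) : Lk D l :=
  pl a b x q.1.1 (ht q.1 q.2)

lemma pls_inj {m k : ℕ} {a b : Fin D} (hab : a ≠ b) (x : Fin D → ZMod l) (hm : m ≤ l)
    (hmk : m * k < l) : Function.Injective (pls (m := m) (k := k) a b x) := by
  rintro ⟨r, s⟩ ⟨r', s'⟩ h
  have h1 := ht_le r s
  have h2 := ht_le r' s'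
  have h3 := r.1.2
  have h4 := r'.1.2
  have h' : pl a b x r.1 (ht r s) = pl a b x r'.1 (ht r' s') := h
  obtain ⟨h5, h6⟩ := pl_inj hab (by omega) (by omega) (by omega) (by omega) h'
  obtain ⟨h7, h8⟩ := ht_inj h6
  have h9 : r.1 = r'.1 := Fin.ext h5
  rw [Prod.mk.injEq]
  exact ⟨Prod.ext h9 h7, h8⟩

/-- the loops of a region -/
def lps {m k : ℕ} (a b : Fin D) (x : Fin D → ZMod l) (r : Fin m × Fin m) (s : Fin k) :
    List (Lk D l × Bool) := lp a b x r.1 (ht r s)

/-- the links of the loops of a region -/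
def lks {m k : ℕ} (a b : Fin D) (x : Fin D → ZMod l) (r : Fin m × Fin m) : Finset (Lk D l) :=
  Finset.univ.biUnion fun s : Fin k => ((lps a b x r s).map Prod.fst).toFinset

lemma lks_card {m k : ℕ} (a b : Fin D) (x : Fin D → ZMod l) (r : Fin m × Fin m) :
    (lks (k := k) a b x r).card ≤ 2 * k * (k + 1) * m := by
  unfold lks
  refine Finset.card_biUnion_le.trans ?_
  refine (Finset.sum_le_card_nsmul _ _ (2 * (k + 1) * m) fun s _ => ?_).trans (le_of_eq ?_)
  · refine (List.toFinset_card_le _).trans ?_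
    rw [List.length_map]
    unfold lps
    rw [lp_length]
    have h1 := ht_le r s
    have h2 := r.1.2
    nlinarith
  · simp
    ring

lemma lks_cnt {m k : ℕ} (a b : Fin D) (x : Fin D → ZMod l) (r : Fin m × Fin m) {e : Lk D l}
    (he : e ∉ lks (k := k) a b x r) (s : Fin k) : cnt e (lps a b x r s) = 0 := by
  refine cnt_eq_zero fun h => he ?_
  unfold lks
  exact Finset.mem_biUnion.2 ⟨s, Finset.mem_univ _, List.mem_toFinset.2 h⟩

/-- paths between arbitrary sites -/
lemma exists_path [NeZero l] (S : Finset (Fin D)) (x y : Fin D → ZMod l) (h : ∀ i ∉ S, x i = y i) :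
    ∃ w : List (Lk D l × Bool), IsPath sr tg x w y ∧ w.length = ∑ i ∈ S, (y i - x i).val ∧
      ∀ e, cnt e w ≤ S.card := by
  induction S using Finset.induction_on generalizing x with
  | empty =>
    refine ⟨[], ?_, by simp, by simp⟩
    show x = y
    funext i
    exact h i (by simp)
  | insert i S hi ih =>
    set z : Fin D → ZMod l := x + Pi.single i (((y i - x i).val : ℕ) : ZMod l) with hz
    have hzi : z i = y i := by
      rw [hz, Pi.add_apply, Pi.single_eq_same, ZMod.natCast_zmod_val]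
      ring
    have hzj : ∀ j, j ≠ i → z j = x j := by
      intro j hj
      rw [hz, Pi.add_apply, Pi.single_eq_of_ne hj, add_zero]
    obtain ⟨w, hw, hwl, hwc⟩ := ih z fun j hj => by
      by_cases hji : j = i
      · rw [hji, hzi]
      · rw [hzj j hji]
        exact h j (by simp [hji, hj])
    refine ⟨seg x i (y i - x i).val ++ w, (seg_path x i _).append hw, ?_, fun e => ?_⟩
    · rw [List.length_append, seg_length, hwl, Finset.sum_insert hi]
      congr 1
      refine Finset.sum_congr rfl fun j hj => ?_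
      rw [hzj j]
      rintro rfl
      exact hi hj
    · rw [cnt_append, Finset.card_insert_of_notMem hi]
      have h1 := seg_cnt x i (ZMod.val_lt (y i - x i)).le e
      have h2 := hwc e
      omega

end

end Pool.Agent.X168.NA
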