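import Mathlib
import Pool.Agent.X168.NA.Lat

/-!
# The magnetic energy, and the distribution of the loops of a region
-/

open MeasureTheory Matrix Filter Topology
open scoped Matrix.Norms.Frobenius ContDiff

namespace Pool.Agent.X168.NA

set_option linter.unusedSectionVars false

noncomputable section

section meas

variable {G : Type} [Group G] [TopologicalSpace G]
  [IsTopologicalGroup G] [CompactSpace G] [SecondCountableTopology G]
  [MeasurableSpace G] [BorelSpace G] (μ : Measure G) [IsProbabilityMeasure μ]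
  [μ.IsMulLeftInvariant] [μ.IsMulRightInvariant] {D l : ℕ}

lemma hol_single {E : Type} (e : E) (U : E → G) : hol [(e, true)] U = U e := by
  simp [hol]

lemma bad_set {m k : ℕ} {a b : Fin D} (hab : a ≠ b) (x : Fin D → ZMod l) (hm : m ≤ l)
    (hmk : m * k < l) (r : Fin m × Fin m) (K₀ : Set (Fin k → G))
    (U : Lk D l → G) :
    (Measure.pi fun _ : Fin k => μ).real {u | (fun s => hol (lps a b x r s)
      (hat (fun s => pls a b x (r, s)) u * U)) ∉ K₀} =
      (Measure.pi fun _ : Fin k => μ).real K₀ᶜ := by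
  set e : Fin k → Lk D l := fun s => pls a b x (r, s) with he
  have hinj : Function.Injective e := by
    intro s s' h
    have := pls_inj hab x hm hmk h
    rw [Prod.mk.injEq] at this
    exact this.2
  set P : Fin k → G := fun s => hol (cp a b x r.1 (ht r s)) U with hP
  set Q : Fin k → G := fun s => U (e s) * (hol (cp a b x (r.1 + 1) (ht r s)) U)⁻¹ with hQ
  have hcp : ∀ (i : ℕ) (s : Fin k) (u : Fin k → G),
      hol (cp a b x i (ht r s)) (hat e u * U) = hol (cp a b x i (ht r s)) U := by
    intro i s u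
    refine hol_congr fun e' he' => ?_
    rw [Pi.mul_apply, hat_not, one_mul]
    intro s' hs'
    apply he'
    rw [← hs']
    have h2 := ht_le r s'
    exact cp_pl hab x h2.1 (lt_of_le_of_lt h2.2 hmk)
  have hkey : ∀ u : Fin k → G, (fun s => hol (lps a b x r s) (hat e u * U)) = P * u * Q := by
    intro u
    funext s
    unfold lps lp
    rw [hol_append, hol_append, hol_rev, hcp, hcp, hol_single]
    have h1 : (hat e u * U) (pl a b x r.1 (ht r s)) = u s * U (e s) := by
      have : pl a b x r.1 (ht r s) = e s := rfl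
      rw [this, Pi.mul_apply, hat_mem hinj]
    rw [h1]
    show _ = P s * u s * Q s
    simp only [hP, hQ]
    group
  have h1 : {u | (fun s => hol (lps a b x r s) (hat e u * U)) ∉ K₀} =
      (fun u => P * u) ⁻¹' ((fun u => u * Q) ⁻¹' K₀ᶜ) := by
    ext u
    show (fun s => hol (lps a b x r s) (hat e u * U)) ∉ K₀ ↔ P * u * Q ∈ K₀ᶜ
    rw [hkey]
    rfl
  rw [h1, measureReal_def, measureReal_def, measure_preimage_mul, measure_preimage_mul_right]

end meas

variable {G : Type} [Group G] [TopologicalSpace G] {N n : ℕ} (L : GD G N n)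
  [IsTopologicalGroup G] [CompactSpace G] {D l : ℕ}

/-- plaquette -/
def plq (U : Lk D l → G) (x : Fin D → ZMod l) (i j : Fin D) : G :=
  U (x, i) * U (x + Pi.single i 1, j) * (U (x + Pi.single j 1, i))⁻¹ * (U (x, j))⁻¹

/-- the magnetic energy -/
def mag [NeZero l] (U : Lk D l → G) : ℝ :=
  ∑ x : Fin D → ZMod l, ∑ i : Fin D, ∑ j : Fin D,
    if i < j then (trace (1 - (L.rho (plq U x i j) : Mat N))).re else 0

lemma tr_bd (g : G) : 0 ≤ (trace (1 - (L.rho g : Mat N))).re ∧
    (trace (1 - (L.rho g : Mat N))).re ≤ (2 * N : ℝ) := by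
  have h1 : (trace (1 - (L.rho g : Mat N))).re =
      ∑ i : Fin N, (1 - ((L.rho g : Mat N) i i).re) := by
    unfold trace
    rw [Complex.re_sum]
    refine Finset.sum_congr rfl fun i _ => ?_
    rw [Matrix.diag_apply, Matrix.sub_apply, Matrix.one_apply_eq, Complex.sub_re, Complex.one_re]
  have h2 : ∀ i, |((L.rho g : Mat N) i i).re| ≤ 1 := fun i =>
    (Complex.abs_re_le_norm _).trans (entry_norm_bound_of_unitary (L.rho g).2 i i)
  rw [h1]
  refine ⟨Finset.sum_nonneg fun i _ => ?_, ?_⟩
  · have := abs_le.1 (h2 i)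
    linarith
  · refine (Finset.sum_le_card_nsmul _ _ 2 fun i _ => ?_).trans (le_of_eq ?_)
    · have := abs_le.1 (h2 i)
      linarith
    · simp
      ring

lemma mag_nonneg [NeZero l] (U : Lk D l → G) : 0 ≤ mag L U := by
  unfold mag
  refine Finset.sum_nonneg fun x _ => Finset.sum_nonneg fun i _ => Finset.sum_nonneg fun j _ => ?_
  split_ifs
  · exact (tr_bd L _).1
  · exact le_rfl

lemma mag_cont [NeZero l] : Continuous (mag L : (Lk D l → G) → ℝ) := by
  unfold mag
  refine continuous_finsetSum _ fun x _ => continuous_finsetSum _ fun i _ =>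
    continuous_finsetSum _ fun j _ => ?_
  split_ifs
  · have h1 : Continuous fun U : Lk D l → G => plq U x i j := by
      unfold plq
      have ca : ∀ e : Lk D l, Continuous fun U : Lk D l → G => U e := fun e => continuous_apply e
      exact (((ca _).mul (ca _)).mul (ca _).inv).mul (ca _).inv
    have h2 : Continuous fun U : Lk D l → G => (L.rho (plq U x i j) : Mat N) :=
      (continuous_subtype_val.comp L.cont).comp h1
    exact Complex.continuous_re.comp (continuous_const.sub h2).matrix_trace
  · exact continuous_const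

/-- the oscillation of the magnetic energy under the change of the links of a finite set -/
lemma mag_osc [NeZero l] (S : Finset (Lk D l)) {U U' : Lk D l → G}
    (h : ∀ e ∉ S, U e = U' e) : mag L U ≤ mag L U' + (8 * N * D * S.card : ℝ) := by
  classical
  have h1 : ∀ (x : Fin D → ZMod l) (i j : Fin D),
      (if i < j then (trace (1 - (L.rho (plq U x i j) : Mat N))).re else 0) ≤
      (if i < j then (trace (1 - (L.rho (plq U' x i j) : Mat N))).re else 0) +
        (2 * N : ℝ) * (((if (x, i) ∈ S then 1 else 0) +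
          (if (x + Pi.single i 1, j) ∈ S then 1 else 0) +
          (if (x + Pi.single j 1, i) ∈ S then 1 else 0) + (if (x, j) ∈ S then 1 else 0) : ℝ)) := by
    intro x i j
    have hN : (0:ℝ) ≤ 2 * N := by positivity
    by_cases hij : i < j
    swap
    · rw [if_neg hij, if_neg hij, zero_add]
      refine mul_nonneg hN ?_
      split_ifs <;> norm_num
    rw [if_pos hij, if_pos hij]
    by_cases hS : (x, i) ∈ S ∨ (x + Pi.single i 1, j) ∈ S ∨ (x + Pi.single j 1, i) ∈ S ∨ (x, j) ∈ S
    · have h2 := (tr_bd L (plq U x i j)).2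
      have h3 := (tr_bd L (plq U' x i j)).1
      have h4 : (1:ℝ) ≤ (if (x, i) ∈ S then 1 else 0) +
          (if (x + Pi.single i 1, j) ∈ S then 1 else 0) +
          (if (x + Pi.single j 1, i) ∈ S then 1 else 0) + (if (x, j) ∈ S then 1 else 0) := by
        rcases hS with hS | hS | hS | hS
        all_goals (rw [if_pos hS]; split_ifs <;> norm_num)
      nlinarith
    · push Not at hS
      obtain ⟨s1, s2, s3, s4⟩ := hS
      have h2 : plq U x i j = plq U' x i j := by
        unfold plq
        rw [h _ s1, h _ s2, h _ s3, h _ s4]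
      rw [h2, if_neg s1, if_neg s2, if_neg s3, if_neg s4]
      simp
  -- the four counts
  have c1 : ∑ x : Fin D → ZMod l, ∑ i : Fin D, ∑ _j : Fin D,
      (if (x, i) ∈ S then (1:ℝ) else 0) = D * S.card := by
    have : ∀ (x : Fin D → ZMod l) (i : Fin D), ∑ _j : Fin D, (if (x, i) ∈ S then (1:ℝ) else 0) =
        D * (if (x, i) ∈ S then (1:ℝ) else 0) := by
      intro x i
      rw [Finset.sum_const, Finset.card_univ, Fintype.card_fin, nsmul_eq_mul]
    simp only [this, ← Finset.mul_sum]
    congr 1
    rw [← Fintype.sum_prod_type (f := fun e : Lk D l => if e ∈ S then (1:ℝ) else 0)]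
    simp
  have c4 : ∑ x : Fin D → ZMod l, ∑ _i : Fin D, ∑ j : Fin D,
      (if (x, j) ∈ S then (1:ℝ) else 0) = D * S.card := by
    have : ∀ (x : Fin D → ZMod l), ∑ _i : Fin D, ∑ j : Fin D, (if (x, j) ∈ S then (1:ℝ) else 0) =
        D * ∑ j : Fin D, (if (x, j) ∈ S then (1:ℝ) else 0) := by
      intro x
      rw [Finset.sum_const, Finset.card_univ, Fintype.card_fin, nsmul_eq_mul]
    simp only [this, ← Finset.mul_sum]
    congr 1
    rw [← Fintype.sum_prod_type (f := fun e : Lk D l => if e ∈ S then (1:ℝ) else 0)]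
    simp
  have c2 : ∑ x : Fin D → ZMod l, ∑ i : Fin D, ∑ j : Fin D,
      (if (x + Pi.single i 1, j) ∈ S then (1:ℝ) else 0) = D * S.card := by
    rw [Finset.sum_comm]
    have : ∀ i : Fin D, ∑ x : Fin D → ZMod l, ∑ j : Fin D,
        (if (x + Pi.single i 1, j) ∈ S then (1:ℝ) else 0) = S.card := by
      intro i
      have h4 : ∑ x : Fin D → ZMod l, ∑ j : Fin D,
          (if (x + Pi.single i 1, j) ∈ S then (1:ℝ) else 0) =
          ∑ x : Fin D → ZMod l, ∑ j : Fin D, (if (x, j) ∈ S then (1:ℝ) else 0) :=
        Fintype.sum_equiv (Equiv.addRight (Pi.single i 1 : Fin D → ZMod l)) _ _ fun x => rfl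
      rw [h4, ← Fintype.sum_prod_type (f := fun e : Lk D l => if e ∈ S then (1:ℝ) else 0)]
      simp
    rw [Finset.sum_congr rfl fun i _ => this i, Finset.sum_const, Finset.card_univ,
      Fintype.card_fin, nsmul_eq_mul]
  have c3 : ∑ x : Fin D → ZMod l, ∑ i : Fin D, ∑ j : Fin D,
      (if (x + Pi.single j 1, i) ∈ S then (1:ℝ) else 0) = D * S.card := by
    have h3 : ∀ x : Fin D → ZMod l, ∑ i : Fin D, ∑ j : Fin D,
        (if (x + Pi.single j 1, i) ∈ S then (1:ℝ) else 0) = ∑ j : Fin D, ∑ i : Fin D,
        (if (x + Pi.single j 1, i) ∈ S then (1:ℝ) else 0) := fun x => Finset.sum_comm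
    rw [Finset.sum_congr rfl fun x _ => h3 x]
    exact c2
  calc mag L U ≤ ∑ x : Fin D → ZMod l, ∑ i : Fin D, ∑ j : Fin D,
        ((if i < j then (trace (1 - (L.rho (plq U' x i j) : Mat N))).re else 0) +
        (2 * N : ℝ) * (((if (x, i) ∈ S then 1 else 0) +
          (if (x + Pi.single i 1, j) ∈ S then 1 else 0) +
          (if (x + Pi.single j 1, i) ∈ S then 1 else 0) + (if (x, j) ∈ S then 1 else 0) : ℝ))) :=
        Finset.sum_le_sum fun x _ => Finset.sum_le_sum fun i _ => Finset.sum_le_sum fun j _ =>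
          h1 x i j
    _ = mag L U' + (8 * N * D * S.card : ℝ) := by
        simp only [Finset.sum_add_distrib, ← Finset.mul_sum]
        rw [c1, c2, c3, c4]
        unfold mag
        ring

lemma mag_hat [NeZero l] {ι : Type} [Fintype ι] (e : ι → Lk D l) (u : ι → G) (U : Lk D l → G) :
    mag L U ≤ mag L (hat e u * U) + (8 * N * D * Fintype.card ι : ℝ) := by
  classical
  have h1 := mag_osc L (Finset.univ.image e) (U := U) (U' := hat e u * U) fun x hx => by
    rw [Pi.mul_apply, hat_not, one_mul]
    intro s hs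
    exact hx (Finset.mem_image.2 ⟨s, Finset.mem_univ _, hs⟩)
  refine h1.trans ?_
  have h2 : ((Finset.univ.image e).card : ℝ) ≤ Fintype.card ι := by
    exact_mod_cast Finset.card_image_le.trans (le_of_eq Finset.card_univ)
  have h3 : (0:ℝ) ≤ 8 * N * D := by positivity
  have := mul_le_mul_of_nonneg_left h2 h3
  linarith

end

end Pool.Agent.X168.NA
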