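import Mathlib
import Pool.Agent.X168.NA.Word

/-!
# Continuous representations are `C¹`
-/

open MeasureTheory Matrix Filter Topology
open scoped Matrix.Norms.Frobenius ContDiff

namespace Pool.Agent.X168.NA

set_option linter.unusedSectionVars false

noncomputable section

variable {G : Type} [Group G] [TopologicalSpace G] {N n : ℕ} (L : GD G N n)
  [IsTopologicalGroup G] [CompactSpace G] [SecondCountableTopology G] [T2Space G]
  [MeasurableSpace G] [BorelSpace G] (μ : Measure G) [IsProbabilityMeasure μ] [μ.IsHaarMeasure]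
  {p : ℕ} (ρ : G →* UU p)

lemma quad_pos {A : Matrix (Fin p) (Fin p) ℂ}
    (hA : ∑ i, ∑ k, ‖A i k - (1 : Matrix (Fin p) (Fin p) ℂ) i k‖ ^ 2 < 1) {v : Fin p → ℂ}
    (hv : 0 < ∑ κ, ‖v κ‖ ^ 2) :
    0 < ∑ i, ((starRingEnd ℂ) (v i) * ∑ k, A i k * v k).re := by
  set Q := ∑ i, ∑ k, ‖A i k - (1 : Matrix (Fin p) (Fin p) ℂ) i k‖ ^ 2 with hQ
  set S := ∑ κ, ‖v κ‖ ^ 2 with hS
  have h1 : ∀ i, ∑ k, A i k * v k =
      v i - ∑ k, ((1 : Matrix (Fin p) (Fin p) ℂ) i k - A i k) * v k := by
    intro i
    have h2 : ∑ k, ((1 : Matrix (Fin p) (Fin p) ℂ) i k - A i k) * v k =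
        ∑ k, (1 : Matrix (Fin p) (Fin p) ℂ) i k * v k - ∑ k, A i k * v k := by
      rw [← Finset.sum_sub_distrib]
      exact Finset.sum_congr rfl fun k _ => by ring
    have h3 : ∑ k, (1 : Matrix (Fin p) (Fin p) ℂ) i k * v k = v i := by
      have := congrFun (Matrix.one_mulVec v) i
      exact this
    rw [h2, h3]
    ring
  have h4 : ∑ i, ((starRingEnd ℂ) (v i) * ∑ k, A i k * v k).re =
      S - ∑ i, ((starRingEnd ℂ) (v i) *
        ∑ k, ((1 : Matrix (Fin p) (Fin p) ℂ) i k - A i k) * v k).re := by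
    rw [hS, ← Finset.sum_sub_distrib]
    refine Finset.sum_congr rfl fun i _ => ?_
    rw [h1, mul_sub, Complex.sub_re]
    congr 1
    rw [mul_comm, Complex.mul_conj, Complex.ofReal_re, Complex.normSq_eq_norm_sq]
  rw [h4]
  have h5 := re_sum_le v fun i => ∑ k, ((1 : Matrix (Fin p) (Fin p) ℂ) i k - A i k) * v k
  have h6 := vec_bound (fun i k => (1 : Matrix (Fin p) (Fin p) ℂ) i k - A i k) v
  have h7 : ∑ i, ∑ k, ‖(1 : Matrix (Fin p) (Fin p) ℂ) i k - A i k‖ ^ 2 = Q := by
    refine Finset.sum_congr rfl fun i _ => Finset.sum_congr rfl fun k _ => ?_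
    rw [norm_sub_rev]
  rw [h7] at h6
  have hQ0 : 0 ≤ Q := Finset.sum_nonneg fun _ _ => Finset.sum_nonneg fun _ _ => sq_nonneg _
  have h8 : √S * √(∑ i, ‖∑ k, ((1 : Matrix (Fin p) (Fin p) ℂ) i k - A i k) * v k‖ ^ 2) ≤
      √S * √(Q * S) := mul_le_mul_of_nonneg_left (Real.sqrt_le_sqrt h6) (Real.sqrt_nonneg _)
  have h9 : √S * √(Q * S) = √Q * S := by
    rw [Real.sqrt_mul hQ0]
    have := Real.mul_self_sqrt hv.le
    calc √S * (√Q * √S) = √Q * (√S * √S) := by ring
      _ = √Q * S := by rw [this]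
  have h10 : √Q < 1 := by
    rw [Real.sqrt_lt' one_pos]
    simpa using hA
  nlinarith

include L μ in
/-- **Continuous representations are `C¹`.** -/
theorem rep_C1 (hρ : Continuous ρ) (i j : Fin p) :
    C1 L fun h : Fin 1 → G => (ρ (h 0) : Mat p) i j := by
  have c1 : Continuous fun g : G => (ρ g : Mat p) := continuous_subtype_val.comp hρ
  set O : G → ℝ := fun g => ∑ i, ∑ k, ‖(ρ g : Mat p) i k - (1 : Mat p) i k‖ ^ 2 with hO
  have hOc : Continuous O := continuous_finsetSum _ fun i _ => continuous_finsetSum _ fun k _ =>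
    ((c1.matrix_elem i k).sub continuous_const).norm.pow 2
  set r : G → ℝ := fun g => rr (1 : Fin 1 → Mat N) (mats L fun _ => g⁻¹) with hr
  have hgc : Continuous fun g : G => fun _ : Fin 1 => g⁻¹ := continuous_pi fun _ => continuous_inv
  have hrc : Continuous r := (rr_contDiff _).continuous.comp ((mats_cont L).comp hgc)
  obtain ⟨δ, hδ, hδO⟩ : ∃ δ : ℝ, 0 < δ ∧ ∀ g : G, r g < δ → O g < 1 := by
    have hKc : IsCompact {g : G | 1 ≤ O g} := (isClosed_le continuous_const hOc).isCompact
    by_cases hK : ({g : G | 1 ≤ O g}).Nonempty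
    · obtain ⟨g0, hg0, hmin⟩ := hKc.exists_isMinOn hK hrc.continuousOn
      refine ⟨r g0, ?_, fun g hg => ?_⟩
      · refine lt_of_le_of_ne (rr_nonneg _ _) fun h => ?_
        have h3 := rr_zero h.symm
        have h4 : g0⁻¹ = 1 := by
          apply L.inj
          apply Subtype.ext
          have := congrFun h3 0
          rw [map_one]
          exact this
        have h5 : g0 = 1 := inv_eq_one.1 h4
        have h6 : O g0 = 0 := by
          rw [h5]
          show ∑ i, ∑ k, ‖(ρ 1 : Mat p) i k - (1 : Mat p) i k‖ ^ 2 = 0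
          rw [map_one]
          simp
        have h7 : 1 ≤ O g0 := hg0
        rw [h6] at h7
        exact absurd h7 (by norm_num)
      · by_contra hc
        push Not at hc
        exact absurd (hmin hc) (not_le.2 hg)
    · refine ⟨1, one_pos, fun g _ => ?_⟩
      by_contra hc
      push Not at hc
      exact hK ⟨g, hc⟩
  set φ : G → ℝ := fun g => cut (1 : Fin 1 → Mat N) δ (mats L fun _ => g⁻¹) with hφ
  have hφc : Continuous φ := (cut_contDiff _ δ).continuous.comp ((mats_cont L).comp hgc)
  set c : Mat p := Matrix.of fun k j => ∫ g, φ g • (ρ g : Mat p) k j ∂μ with hc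
  have hint : ∀ k j, Integrable (fun g => φ g • (ρ g : Mat p) k j) μ := fun k j =>
    (hφc.smul (c1.matrix_elem k j)).integrable_of_hasCompactSupport
      (HasCompactSupport.of_compactSpace _)
  -- invertibility
  have hdet : IsUnit c.det := by
    rw [isUnit_iff_ne_zero]
    intro h0
    obtain ⟨v, hv0, hv⟩ := Matrix.exists_mulVec_eq_zero_iff.2 h0
    have hvpos : 0 < ∑ κ, ‖v κ‖ ^ 2 := by
      refine lt_of_le_of_ne (Finset.sum_nonneg fun _ _ => sq_nonneg _) fun h => hv0 ?_
      funext κ
      have := (Finset.sum_eq_zero_iff_of_nonneg fun κ _ => sq_nonneg ‖v κ‖).1 h.symm κ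
        (Finset.mem_univ _)
      exact norm_eq_zero.1 (pow_eq_zero_iff two_ne_zero |>.1 this)
    set D : G → ℝ := fun g => ∑ i, ((starRingEnd ℂ) (v i) * ∑ k, (ρ g : Mat p) i k * v k).re
      with hD
    have hDc : Continuous D := continuous_finsetSum _ fun i _ => Complex.continuous_re.comp
      (continuous_const.mul (continuous_finsetSum _ fun k _ =>
        (c1.matrix_elem i k).mul continuous_const))
    have h1 : 0 < ∫ g, φ g * D g ∂μ := by
      refine (hφc.mul hDc).integral_pos_of_hasCompactSupport_nonneg_nonzero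
        (HasCompactSupport.of_compactSpace _) (fun g => ?_) (x := 1) ?_
      · show 0 ≤ φ g * D g
        by_cases hc : φ g = 0
        · rw [hc, zero_mul]
        · exact mul_nonneg (cut_nonneg _ _ _) (quad_pos (hδO g (cut_ne hδ hc)) hvpos).le
      · show φ 1 * D 1 ≠ 0
        have h2 : φ 1 = 1 := by
          have h3 : (mats L fun _ : Fin 1 => (1 : G)⁻¹) = (1 : Fin 1 → Mat N) := by
            funext s
            unfold mats
            rw [inv_one, map_one]
            rfl
          rw [hφ]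
          show cut (1 : Fin 1 → Mat N) δ (mats L fun _ => (1 : G)⁻¹) = 1
          rw [h3, cut_self]
        rw [h2, one_mul]
        refine (quad_pos ?_ hvpos).ne'
        rw [map_one]
        simp
    have h2 : ∫ g, φ g * D g ∂μ =
        ∑ i, ((starRingEnd ℂ) (v i) * ∑ k, c i k * v k).re := by
      have h3 : ∀ g, φ g * D g =
          ∑ i, ∑ k, (((starRingEnd ℂ) (v i) * v k) * (φ g • (ρ g : Mat p) i k)).re := by
        intro g
        simp only [hD, Finset.mul_sum]
        refine Finset.sum_congr rfl fun i _ => ?_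
        rw [Complex.re_sum, Finset.mul_sum]
        refine Finset.sum_congr rfl fun k _ => ?_
        rw [Complex.real_smul, ← Complex.re_ofReal_mul]
        congr 1
        ring
      simp only [h3]
      have hI : ∀ i k, Integrable (fun g =>
          ((starRingEnd ℂ) (v i) * v k) * (φ g • (ρ g : Mat p) i k)) μ := fun i k =>
        (hint i k).const_mul _
      have hIre : ∀ i k, Integrable (fun g =>
          (((starRingEnd ℂ) (v i) * v k) * (φ g • (ρ g : Mat p) i k)).re) μ := fun i k =>
        (hI i k).re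
      have hIs : ∀ i ∈ Finset.univ, Integrable (fun g => ∑ k,
          (((starRingEnd ℂ) (v i) * v k) * (φ g • (ρ g : Mat p) i k)).re) μ := fun i _ =>
        integrable_finsetSum _ fun k _ => hIre i k
      rw [integral_finsetSum _ hIs]
      refine Finset.sum_congr rfl fun i _ => ?_
      rw [integral_finsetSum _ fun k _ => hIre i k, Finset.mul_sum, Complex.re_sum]
      refine Finset.sum_congr rfl fun k _ => ?_
      have h4 : ∫ g, (((starRingEnd ℂ) (v i) * v k) * (φ g • (ρ g : Mat p) i k)).re ∂μ =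
          (∫ g, ((starRingEnd ℂ) (v i) * v k) * (φ g • (ρ g : Mat p) i k) ∂μ).re :=
        integral_re (hI i k)
      rw [h4, integral_const_mul]
      congr 1
      show _ = (starRingEnd ℂ) (v i) * ((∫ g, φ g • (ρ g : Mat p) i k ∂μ) * v k)
      ring
    rw [h2] at h1
    have h5 : ∀ i, ∑ k, c i k * v k = 0 := fun i => congrFun hv i
    simp [h5] at h1
  -- the convolution
  set F : Fin p → Fin p → (Fin 1 → G) → ℂ := fun i j h =>
    ∫ g, cut (1 : Fin 1 → Mat N) δ (mats L fun _ => g⁻¹ * h 0) • (ρ g : Mat p) i j ∂μ with hF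
  have hmm : ∀ (h : Fin 1 → G) (g : G), (mats L fun _ : Fin 1 => g⁻¹ * h 0) =
      (fun _ => (L.rho g⁻¹ : Mat N)) * mats L h * (fun _ => 1) := by
    intro h g
    funext s
    have hs : s = 0 := Subsingleton.elim _ _
    subst hs
    unfold mats
    rw [map_mul, Pi.mul_apply, Pi.mul_apply, mul_one]
    rfl
  have hFC : ∀ i j, C1 L (F i j) := by
    intro i j
    refine ⟨fun M => ∫ g, cut (1 : Fin 1 → Mat N) δ ((fun _ => (L.rho g⁻¹ : Mat N)) * M *
      fun _ => 1) • (ρ g : Mat p) i j ∂μ, ?_, fun h => ?_⟩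
    · refine param_contDiff2 μ (cut_contDiff _ δ) (A := fun g _ => (L.rho g⁻¹ : Mat N))
        (B := fun g _ => 1) ?_ continuous_const (c1.matrix_elem i j)
      exact continuous_pi fun _ => (rho_cont2 L).comp continuous_inv
    · simp only [hF, hmm]
  have hFρ : ∀ (h : Fin 1 → G), (Matrix.of fun i j => F i j h) = (ρ (h 0) : Mat p) * c := by
    intro h
    ext i j
    rw [Matrix.of_apply, Matrix.mul_apply]
    simp only [hF]
    rw [← integral_mul_left_eq_self (μ := μ) (fun g =>
      cut (1 : Fin 1 → Mat N) δ (mats L fun _ => g⁻¹ * h 0) • (ρ g : Mat p) i j) (h 0)]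
    have h3 : ∀ g, ((h 0) * g)⁻¹ * h 0 = g⁻¹ := fun g => by group
    have h4 : ∀ g, (ρ (h 0 * g) : Mat p) i j = ∑ k, (ρ (h 0) : Mat p) i k * (ρ g : Mat p) k j := by
      intro g
      rw [map_mul]
      rfl
    simp only [h3, h4, Finset.smul_sum]
    have h5 : ∀ k, Integrable (fun g => cut (1 : Fin 1 → Mat N) δ (mats L fun _ => g⁻¹) •
        ((ρ (h 0) : Mat p) i k * (ρ g : Mat p) k j)) μ := fun k =>
      (hφc.smul (continuous_const.mul (c1.matrix_elem k j))).integrable_of_hasCompactSupport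
        (HasCompactSupport.of_compactSpace _)
    rw [integral_finsetSum _ fun k _ => h5 k]
    refine Finset.sum_congr rfl fun k _ => ?_
    show _ = (ρ (h 0) : Mat p) i k * ∫ g, φ g • (ρ g : Mat p) k j ∂μ
    rw [← integral_const_mul]
    refine integral_congr_ae (Eventually.of_forall fun g => ?_)
    simp only [Complex.real_smul]
    show (φ g : ℂ) * _ = _ * ((φ g : ℂ) * _)
    ring
  have hfin : (fun h : Fin 1 → G => (ρ (h 0) : Mat p) i j) = fun h => ∑ k, F i k h * c⁻¹ k j := by
    funext h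
    have h3 : (ρ (h 0) : Mat p) = (Matrix.of fun i j => F i j h) * c⁻¹ := by
      rw [hFρ, Matrix.mul_assoc, Matrix.mul_nonsing_inv c hdet, Matrix.mul_one]
    have h4 := congrFun (congrFun h3 i) j
    rw [h4, Matrix.mul_apply]
    rfl
  rw [hfin]
  exact C1.sum _ fun k _ => (hFC i k).mul (C1.const _)

end

end Pool.Agent.X168.NA
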