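import Mathlib
import Pool.Agent.X168.NA.Comm

/-!
# Sectors
-/

open MeasureTheory Matrix Filter Topology
open scoped Matrix.Norms.Frobenius ContDiff

namespace Pool.Agent.X168.NA

set_option linter.unusedSectionVars false

noncomputable section

variable {G : Type} [Group G] [TopologicalSpace G] {N n : ℕ} (L : GD G N n)
  {E : Type} [Fintype E] [DecidableEq E]
  [IsTopologicalGroup G] [CompactSpace G] [SecondCountableTopology G]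
  [MeasurableSpace G] [BorelSpace G] (μ : Measure G) [IsProbabilityMeasure μ]
  {K K' : Type} [Fintype K] [Fintype K'] [DecidableEq K] [DecidableEq K'] {X : Type}

/-- functions which transform with the matrices `R` -/
structure Sec (src tgt : E → X) (R : (X → G) → Matrix K K ℂ) (ψ : K → (E → G) → ℂ) : Prop where
  c1 : ∀ κ, C1 L (ψ κ)
  eq : ∀ γ U, (fun κ => ψ κ (gt src tgt γ U)) = (R γ).mulVec fun κ => ψ κ U

/-- the lowest energy of a sector -/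
def ES (src tgt : E → X) (g : ℝ) (mg : (E → G) → ℝ) (R : (X → G) → Matrix K K ℂ) : ℝ :=
  sInf {e : ℝ | ∃ ψ : K → (E → G) → ℂ, Sec L src tgt R ψ ∧ nrm μ ψ = 1 ∧ en L μ g mg ψ = e}

variable {L} {src tgt : E → X} {g : ℝ} {mg : (E → G) → ℝ} {R : (X → G) → Matrix K K ℂ}
  {R' : (X → G) → Matrix K' K' ℂ}

lemma Sec.lin {ψ χ : K → (E → G) → ℂ} (hψ : Sec L src tgt R ψ) (hχ : Sec L src tgt R χ) (t : ℝ) :
    Sec L src tgt R (lin ψ χ t) := by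
  refine ⟨lin_C1 hψ.c1 hχ.c1 t, fun γ U => ?_⟩
  have h1 := hψ.eq γ U
  have h2 := hχ.eq γ U
  have h3 : (fun κ => NA.lin ψ χ t κ (gt src tgt γ U)) = (fun κ => ψ κ (gt src tgt γ U)) +
      (t : ℂ) • fun κ => χ κ (gt src tgt γ U) := rfl
  have h4 : (fun κ => NA.lin ψ χ t κ U) = (fun κ => ψ κ U) + (t : ℂ) • fun κ => χ κ U := rfl
  rw [h3, h4, h1, h2, Matrix.mulVec_add, Matrix.mulVec_smul]

lemma Sec.zero : Sec L src tgt R (fun _ _ => 0 : K → (E → G) → ℂ) := by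
  refine ⟨fun κ => C1.const 0, fun γ U => ?_⟩
  show (0 : K → ℂ) = (R γ).mulVec (0 : K → ℂ)
  rw [Matrix.mulVec_zero]

lemma sq_mulVec {M : Matrix K K ℂ} (hM : Mᴴ * M = 1) (v : K → ℂ) :
    ∑ κ, ‖M.mulVec v κ‖ ^ 2 = ∑ κ, ‖v κ‖ ^ 2 := by
  have h1 := app_pt (fun κ' κ => M κ' κ) v
  have h2 : ∀ κ, ∑ κ', (starRingEnd ℂ) (M κ' κ) * ∑ κ, M κ' κ * v κ = v κ := by
    intro κ
    have h3 : (Mᴴ.mulVec (M.mulVec v)) κ = v κ := by
      rw [Matrix.mulVec_mulVec, hM, Matrix.one_mulVec]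
    exact h3
  have h4 : ∑ κ, ‖M.mulVec v κ‖ ^ 2 = ∑ κ', ‖∑ κ, M κ' κ * v κ‖ ^ 2 := rfl
  rw [h4, h1]
  refine Finset.sum_congr rfl fun κ _ => ?_
  rw [h2 κ, mul_comm, Complex.mul_conj, Complex.ofReal_re, Complex.normSq_eq_norm_sq]

lemma Sec.inv {ψ : K → (E → G) → ℂ} (hψ : Sec L src tgt R ψ) (hR : ∀ γ, (R γ)ᴴ * R γ = 1)
    (γ : X → G) (U : E → G) :
    ∑ κ, ‖ψ κ (gt src tgt γ U)‖ ^ 2 = ∑ κ, ‖ψ κ U‖ ^ 2 := by
  have h1 := hψ.eq γ U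
  have h2 : ∀ κ, ψ κ (gt src tgt γ U) = (R γ).mulVec (fun κ => ψ κ U) κ := fun κ => congrFun h1 κ
  simp only [h2]
  exact sq_mulVec (hR γ) _

lemma en_nonneg (hmg0 : ∀ U, 0 ≤ mg U) (ψ : K → (E → G) → ℂ) : 0 ≤ en L μ g mg ψ := by
  unfold en
  have h1 : 0 ≤ ∑ e, kin L μ e ψ := Finset.sum_nonneg fun e _ => kin_nonneg μ e ψ
  have h2 : 0 ≤ pot μ mg ψ := integral_nonneg fun U => mul_nonneg (hmg0 U)
    (Finset.sum_nonneg fun _ _ => sq_nonneg _)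
  positivity

lemma nrm_scale {φ : K → (E → G) → ℂ} (hφ : ∀ κ, C1 L (φ κ)) (t : ℝ) :
    nrm μ (lin (fun _ _ => 0) φ t) = t ^ 2 * nrm μ φ := by
  rw [nrm_lin μ (fun κ => C1.const (L := L) 0) hφ t]
  unfold nrm ip
  simp

lemma en_scale (hmg : Continuous mg) {φ : K → (E → G) → ℂ} (hφ : ∀ κ, C1 L (φ κ)) (t : ℝ) :
    en L μ g mg (lin (fun _ _ => 0) φ t) = t ^ 2 * en L μ g mg φ := by
  rw [en_lin μ hmg (fun κ => C1.const (L := L) 0) hφ t]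
  unfold en en2 kin kin2 pot pot2
  simp [dl_const]

lemma ES_bdd (hmg0 : ∀ U, 0 ≤ mg U) : BddBelow {e : ℝ | ∃ ψ : K → (E → G) → ℂ,
    Sec L src tgt R ψ ∧ nrm μ ψ = 1 ∧ en L μ g mg ψ = e} :=
  ⟨0, by rintro _ ⟨ψ, -, -, rfl⟩; exact en_nonneg μ hmg0 ψ⟩

lemma ES_le (hmg : Continuous mg) (hmg0 : ∀ U, 0 ≤ mg U) {φ : K → (E → G) → ℂ}
    (hφ : Sec L src tgt R φ) : ES L μ src tgt g mg R * nrm μ φ ≤ en L μ g mg φ := by
  rcases (nrm_nonneg μ φ).eq_or_lt with h0 | h0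
  · rw [← h0, mul_zero]
    exact en_nonneg μ hmg0 φ
  · set c : ℝ := (√(nrm μ φ))⁻¹ with hc
    have hc2 : c ^ 2 = (nrm μ φ)⁻¹ := by
      rw [hc, inv_pow, Real.sq_sqrt h0.le]
    have h1 : Sec L src tgt R (NA.lin (fun _ _ => 0) φ c) := Sec.zero.lin hφ c
    have h2 : nrm μ (NA.lin (fun _ _ => 0) φ c) = 1 := by
      rw [nrm_scale μ hφ.c1, hc2]
      exact inv_mul_cancel₀ h0.ne'
    have h3 : ES L μ src tgt g mg R ≤ en L μ g mg (NA.lin (fun _ _ => 0) φ c) :=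
      csInf_le (ES_bdd μ hmg0) ⟨_, h1, h2, rfl⟩
    rw [en_scale μ hmg hφ.c1, hc2] at h3
    have h4 := mul_le_mul_of_nonneg_right h3 h0.le
    rw [mul_comm (nrm μ φ)⁻¹, mul_assoc, inv_mul_cancel₀ h0.ne', mul_one] at h4
    exact h4

lemma ES_nonneg (hmg0 : ∀ U, 0 ≤ mg U) : 0 ≤ ES L μ src tgt g mg R :=
  Real.sInf_nonneg (by rintro _ ⟨ψ, -, -, rfl⟩; exact en_nonneg μ hmg0 ψ)

/-- the sector is not trivial -/
def NE (L : GD G N n) (μ : Measure G) (src tgt : E → X) (R : (X → G) → Matrix K K ℂ) : Prop :=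
  ∃ ψ : K → (E → G) → ℂ, Sec L src tgt R ψ ∧ 0 < nrm μ ψ

lemma ES_approx (h : NE L μ src tgt R) {η : ℝ} (hη : 0 < η) :
    ∃ ψ : K → (E → G) → ℂ, Sec L src tgt R ψ ∧ nrm μ ψ = 1 ∧
      en L μ g mg ψ ≤ ES L μ src tgt g mg R + η := by
  obtain ⟨φ, hφ, h0⟩ := h
  set c : ℝ := (√(nrm μ φ))⁻¹ with hc
  have hc2 : c ^ 2 = (nrm μ φ)⁻¹ := by
    rw [hc, inv_pow, Real.sq_sqrt h0.le]
  have h1 : Sec L src tgt R (NA.lin (fun _ _ => 0) φ c) := Sec.zero.lin hφ c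
  have h2 : nrm μ (NA.lin (fun _ _ => 0) φ c) = 1 := by
    rw [nrm_scale μ hφ.c1, hc2]
    exact inv_mul_cancel₀ h0.ne'
  have hne : {e : ℝ | ∃ ψ : K → (E → G) → ℂ,
      Sec L src tgt R ψ ∧ nrm μ ψ = 1 ∧ en L μ g mg ψ = e}.Nonempty := ⟨_, _, h1, h2, rfl⟩
  obtain ⟨_, ⟨ψ, hψ, hn, rfl⟩, hlt⟩ := exists_lt_of_csInf_lt hne
    (lt_add_of_pos_right (ES L μ src tgt g mg R) hη)
  exact ⟨ψ, hψ, hn, hlt.le⟩

/-- equivariant matrix functions -/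
def Equi (src tgt : E → X) (R : (X → G) → Matrix K K ℂ) (R' : (X → G) → Matrix K' K' ℂ)
    (A : K' → K → (E → G) → ℂ) : Prop :=
  ∀ γ U, (Matrix.of fun κ' κ => A κ' κ (gt src tgt γ U)) =
    R' γ * (Matrix.of fun κ' κ => A κ' κ U) * (R γ)ᴴ

lemma Equi.adj {A : K' → K → (E → G) → ℂ} (hA : Equi src tgt R R' A) :
    Equi src tgt R' R (adj A) := by
  intro γ U
  have h1 := congrArg Matrix.conjTranspose (hA γ U)
  rw [Matrix.conjTranspose_mul, Matrix.conjTranspose_mul, Matrix.conjTranspose_conjTranspose,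
    ← Matrix.mul_assoc] at h1
  exact h1

lemma Sec.app {A : K' → K → (E → G) → ℂ} (hA1 : ∀ κ' κ, C1 L (A κ' κ))
    (hA : Equi src tgt R R' A) (hR : ∀ γ, (R γ)ᴴ * R γ = 1) {ψ : K → (E → G) → ℂ}
    (hψ : Sec L src tgt R ψ) : Sec L src tgt R' (app A ψ) := by
  refine ⟨app_C1 hA1 hψ.c1, fun γ U => ?_⟩
  have h1 : (fun κ' => NA.app A ψ κ' (gt src tgt γ U)) =
      (Matrix.of fun κ' κ => A κ' κ (gt src tgt γ U)).mulVec fun κ => ψ κ (gt src tgt γ U) := rfl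
  have h2 : (fun κ' => NA.app A ψ κ' U) =
      (Matrix.of fun κ' κ => A κ' κ U).mulVec fun κ => ψ κ U := rfl
  rw [h1, h2, hA γ U, hψ.eq γ U, Matrix.mulVec_mulVec, Matrix.mulVec_mulVec, Matrix.mul_assoc,
    hR γ, Matrix.mul_one]

/-! ### the core estimate -/

/-- the family as one matrix -/
def fam {I : Type} (A : I → K' → K → (E → G) → ℂ) : I × K' → K → (E → G) → ℂ :=
  fun q κ => A q.1 q.2 κ

/-- the representation of the family -/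
def famR {I : Type} [DecidableEq I] (R' : (X → G) → Matrix K' K' ℂ) (γ : X → G) :
    Matrix (I × K') (I × K') ℂ := fun q q' => if q.1 = q'.1 then R' γ q.2 q'.2 else 0

lemma fam_nrm {I : Type} [Fintype I] (A : I → K' → K → (E → G) → ℂ) (ψ : K → (E → G) → ℂ) :
    nrm μ (app (fam A) ψ) = ∑ i, nrm μ (app (A i) ψ) := by
  unfold nrm
  rw [Fintype.sum_prod_type]
  rfl

lemma fam_en {I : Type} [Fintype I] (hmg : Continuous mg) {A : I → K' → K → (E → G) → ℂ}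
    (hA : ∀ i κ' κ, C1 L (A i κ' κ)) {ψ : K → (E → G) → ℂ} (hψ : ∀ κ, C1 L (ψ κ)) :
    en L μ g mg (app (fam A) ψ) = ∑ i, en L μ g mg (app (A i) ψ) := by
  have hk : ∀ e, kin L μ e (app (fam A) ψ) = ∑ i, kin L μ e (app (A i) ψ) := by
    intro e
    unfold kin
    have h1 : ∀ a : Fin n, ∑ q : I × K', ∫ U, ‖dl L e a (app (fam A) ψ q) U‖ ^ 2 ∂(ME μ E) =
        ∑ i, ∑ κ', ∫ U, ‖dl L e a (app (A i) ψ κ') U‖ ^ 2 ∂(ME μ E) := fun a => by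
      rw [Fintype.sum_prod_type]
      rfl
    rw [Finset.sum_congr rfl fun a _ => h1 a]
    exact Finset.sum_comm
  have hp : pot μ mg (app (fam A) ψ) = ∑ i, pot μ mg (app (A i) ψ) := by
    have hF : ∀ (q : I × K') κ, C1 L (fam A q κ) := fun q κ => hA q.1 q.2 κ
    rw [pot_sum μ hmg fun q => (app_C1 hF hψ q).cont, Fintype.sum_prod_type]
    refine Finset.sum_congr rfl fun i _ => ?_
    rw [pot_sum μ hmg fun κ' => (app_C1 (hA i) hψ κ').cont]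
    rfl
  unfold en
  simp only [hk, hp]
  rw [Finset.sum_add_distrib, ← Finset.mul_sum, ← Finset.mul_sum, Finset.sum_comm]

/-- crude bound -/
def MM (g c0 c1 E1 : ℝ) (card n : ℕ) : ℝ :=
  2 * c0 ^ 2 * (2 * c0 ^ 2 * (E1 + 1) + g ^ 2 / 2 * (card * n * (2 * c1 ^ 2))) +
    g ^ 2 / 2 * (card * n * (2 * c1 ^ 2)) * c0 ^ 2

lemma MM_nonneg {g c0 c1 E1 : ℝ} (hE1 : 0 ≤ E1) (card n : ℕ) : 0 ≤ MM g c0 c1 E1 card n := by
  unfold MM
  positivity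

theorem coreA (hmg : Continuous mg) (hmg0 : ∀ U, 0 ≤ mg U) {I : Type} [Fintype I]
    (hR : ∀ γ, (R γ)ᴴ * R γ = 1) (hR' : ∀ γ, (R' γ)ᴴ * R' γ = 1)
    {A : I → K' → K → (E → G) → ℂ}
    (hA : ∀ i κ' κ, C1 L (A i κ' κ)) (hAe : ∀ i, Equi src tgt R R' (A i))
    {c0 c1 l : ℝ} (hc0 : 0 ≤ c0) (hc1 : 0 ≤ c1) (hl : 0 < l) (T : Finset E)
    (h0 : ∀ U, ∑ i, ∑ κ', ∑ κ, ‖A i κ' κ U‖ ^ 2 ≤ c0 ^ 2)
    (h1 : ∀ e ∈ T, ∀ a U, ∑ i, ∑ κ', ∑ κ, ‖dl L e a (A i κ' κ) U‖ ^ 2 ≤ c1 ^ 2)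
    (h2 : ∀ e ∉ T, ∀ a U i κ' κ, dl L e a (A i κ' κ) U = 0)
    {ψ : K → (E → G) → ℂ} (hψ : Sec L src tgt R ψ) (hn : nrm μ ψ = 1)
    (hen : en L μ g mg ψ ≤ ES L μ src tgt g mg R +
      1 / (MM g c0 c1 (ES L μ src tgt g mg R) (Fintype.card E) n + 1)) :
    (ES L μ src tgt g mg R' - ES L μ src tgt g mg R) * nrm μ (app (fam A) ψ) ≤
      1 + g ^ 2 / 2 * (T.card * (n * (c1 ^ 2 + c1 * c0 * l)) +
        c1 * c0 / l * ∑ e ∈ T, kin L μ e ψ) := by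
  set E1 := ES L μ src tgt g mg R with hE1
  have hE10 : 0 ≤ E1 := ES_nonneg μ hmg0
  set M := MM g c0 c1 E1 (Fintype.card E) n with hM
  have hM0 : 0 ≤ M := MM_nonneg hE10 _ _
  have hF : ∀ (q : I × K') κ, C1 L (fam A q κ) := fun q κ => hA q.1 q.2 κ
  have hF' : ∀ κ (q : I × K'), C1 L (adj (fam A) κ q) := adj_C1 hF
  have h0' : ∀ U, ∑ q, ∑ κ, ‖fam A q κ U‖ ^ 2 ≤ c0 ^ 2 := by
    intro U
    rw [Fintype.sum_prod_type]
    exact h0 U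
  have h1' : ∀ e ∈ T, ∀ a U, ∑ q, ∑ κ, ‖dl L e a (fam A q κ) U‖ ^ 2 ≤ c1 ^ 2 := by
    intro e he a U
    rw [Fintype.sum_prod_type]
    exact h1 e he a U
  have h2' : ∀ e ∉ T, ∀ a U q κ, dl L e a (fam A q κ) U = 0 := fun e he a U q κ =>
    h2 e he a U q.1 q.2 κ
  have h1'' : ∀ e a U, ∑ q, ∑ κ, ‖dl L e a (fam A q κ) U‖ ^ 2 ≤ c1 ^ 2 := by
    intro e a U
    by_cases he : e ∈ T
    · exact h1' e he a U
    · simp only [h2' e he]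
      simp
      positivity
  -- the function χ
  set φ : I × K' → (E → G) → ℂ := NA.app (fam A) ψ with hφ
  set χ : K → (E → G) → ℂ := NA.app (NA.adj (fam A)) φ with hχ
  have hφC : ∀ q, C1 L (φ q) := app_C1 hF hψ.c1
  have hχC : ∀ κ, C1 L (χ κ) := app_C1 hF' hφC
  have hχS : Sec L src tgt R χ := by
    refine ⟨hχC, fun γ U => ?_⟩
    have h3 : ∀ V, (fun κ => χ κ V) =
        ∑ i, fun κ => NA.app (NA.adj (A i)) (NA.app (A i) ψ) κ V := by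
      intro V
      funext κ
      rw [Finset.sum_apply, hχ]
      unfold NA.app
      rw [Fintype.sum_prod_type]
      rfl
    rw [h3, h3, Matrix.mulVec_sum]
    refine Finset.sum_congr rfl fun i _ => ?_
    exact ((hψ.app (hA i) (hAe i) hR).app (adj_C1 (hA i)) (hAe i).adj hR').eq γ U
  have hlow1 : ∀ t : ℝ, E1 * nrm μ (NA.lin ψ χ t) ≤ en L μ g mg (NA.lin ψ χ t) := fun t =>
    ES_le μ hmg hmg0 (hψ.lin hχS t)
  have hlow2 : ES L μ src tgt g mg R' * nrm μ φ ≤ en L μ g mg φ := by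
    rw [hφ, fam_nrm, fam_en μ hmg hA hψ.c1, Finset.mul_sum]
    exact Finset.sum_le_sum fun i _ => ES_le μ hmg hmg0 (hψ.app (hA i) (hAe i) hR)
  have ht : 0 < 1 / (M + 1) := by positivity
  have hcmp := compare μ (g := g) hmg hF hψ.c1 hc0 hc1 hl T h0' h1' h2' hlow1 hlow2 ht
  -- crude bounds
  obtain ⟨k1, k2⟩ := crude μ (g := g) hmg hmg0 hF h0' h1'' hψ.c1
  have h0a : ∀ U, ∑ κ, ∑ q, ‖NA.adj (fam A) κ q U‖ ^ 2 ≤ c0 ^ 2 := by
    intro U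
    rw [Finset.sum_comm]
    unfold NA.adj
    simp only [Complex.norm_conj]
    exact h0' U
  have h1a : ∀ e a U, ∑ κ, ∑ q, ‖dl L e a (NA.adj (fam A) κ q) U‖ ^ 2 ≤ c1 ^ 2 := by
    intro e a U
    rw [Finset.sum_comm]
    simp only [dl_adj hF, Complex.norm_conj]
    exact h1'' e a U
  obtain ⟨k3, k4⟩ := crude μ (g := g) hmg hmg0 hF' h0a h1a hφC
  rw [hn] at k1 k2
  have hen1 : en L μ g mg ψ ≤ E1 + 1 := by
    refine hen.trans (add_le_add le_rfl ?_)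
    rw [div_le_one (by positivity)]
    linarith
  have hχM : en L μ g mg χ ≤ M := by
    have hcc : (0:ℝ) ≤ g ^ 2 / 2 * (Fintype.card E * n * (2 * c1 ^ 2)) := by positivity
    have hcc0 : (0:ℝ) ≤ 2 * c0 ^ 2 := by positivity
    have k5 : en L μ g mg φ ≤ 2 * c0 ^ 2 * (E1 + 1) +
        g ^ 2 / 2 * (Fintype.card E * n * (2 * c1 ^ 2)) := by
      have := mul_le_mul_of_nonneg_left hen1 hcc0
      linarith
    have k6 := mul_le_mul_of_nonneg_left k5 hcc0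
    have k7 : nrm μ φ ≤ c0 ^ 2 := by linarith
    have k8 := mul_le_mul_of_nonneg_left k7 hcc
    rw [hM]
    unfold MM
    linarith
  have hχ0 : 0 ≤ E1 * nrm μ χ := mul_nonneg hE10 (nrm_nonneg μ χ)
  rw [hn] at hcmp
  have e1 : (en L μ g mg ψ - E1 * 1) / (2 * (1 / (M + 1))) ≤ 1 / 2 := by
    rw [div_le_iff₀ (by positivity)]
    linarith
  have e2 : 1 / (M + 1) / 2 * (en L μ g mg χ - E1 * nrm μ χ) ≤ 1 / 2 := by
    have : 1 / (M + 1) / 2 * (en L μ g mg χ - E1 * nrm μ χ) ≤ 1 / (M + 1) / 2 * (M + 1) := by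
      refine mul_le_mul_of_nonneg_left ?_ (by positivity)
      linarith
    refine this.trans (le_of_eq ?_)
    field_simp
  rw [← hφ, ← hχ] at hcmp
  simp only [mul_one] at hcmp e1
  linarith

end

end Pool.Agent.X168.NA
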