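import Mathlib
import Pool.Agent.X168.NA.Sec
import Pool.Agent.X168.NA.Mag
import Pool.Agent.X168.NA.Rep

/-!
# Change of one source
-/

open MeasureTheory Matrix Filter Topology
open scoped Matrix.Norms.Frobenius ContDiff Kronecker

namespace Pool.Agent.X168.NA

set_option linter.unusedSectionVars false

noncomputable section

variable {G : Type} [Group G]

/-- the matrices of two sources -/
def RR {p r : ℕ} {X : Type} (ρ : G →* UU p) (x : X) (σ : G →* UU r) (y : X) (γ : X → G) :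
    Matrix (Fin p × Fin r) (Fin p × Fin r) ℂ :=
  (ρ (γ x) : Mat p) ⊗ₖ ((σ (γ y) : Mat r).map (starRingEnd ℂ))

lemma unit_mul {p : ℕ} (u : UU p) : (u : Mat p)ᴴ * (u : Mat p) = 1 := by
  have := u.2
  rw [Matrix.mem_unitaryGroup_iff'] at this
  exact this

lemma unit_mul' {p : ℕ} (u : UU p) : (u : Mat p) * (u : Mat p)ᴴ = 1 := by
  have := u.2
  rw [Matrix.mem_unitaryGroup_iff] at this
  exact this

lemma conj_unit {p : ℕ} (u : UU p) : ((u : Mat p).map (starRingEnd ℂ))ᴴ *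
    ((u : Mat p).map (starRingEnd ℂ)) = 1 := by
  have h1 : ((u : Mat p).map (starRingEnd ℂ))ᴴ = ((u : Mat p)ᴴ).map (starRingEnd ℂ) := by
    ext i j
    simp [Matrix.conjTranspose_apply]
  rw [h1, ← Matrix.map_mul, unit_mul]
  ext i j
  by_cases h : i = j
  · subst h; simp
  · simp [Matrix.one_apply_ne h]

lemma conj_unit' {p : ℕ} (u : UU p) : ((u : Mat p).map (starRingEnd ℂ)) *
    ((u : Mat p).map (starRingEnd ℂ))ᴴ = 1 := by
  have h1 : ((u : Mat p).map (starRingEnd ℂ))ᴴ = ((u : Mat p)ᴴ).map (starRingEnd ℂ) := by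
    ext i j
    simp [Matrix.conjTranspose_apply]
  rw [h1, ← Matrix.map_mul, unit_mul']
  ext i j
  by_cases h : i = j
  · subst h; simp
  · simp [Matrix.one_apply_ne h]

lemma RR_unit {p r : ℕ} {X : Type} (ρ : G →* UU p) (x : X) (σ : G →* UU r) (y : X)
    (γ : X → G) : (RR ρ x σ y γ)ᴴ * RR ρ x σ y γ = 1 := by
  unfold RR
  rw [Matrix.conjTranspose_kronecker, ← Matrix.mul_kronecker_mul, unit_mul, conj_unit,
    Matrix.one_kronecker_one]

variable [TopologicalSpace G] {N n : ℕ} (L : GD G N n)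
  [IsTopologicalGroup G] [CompactSpace G] [SecondCountableTopology G] [T2Space G]
  [MeasurableSpace G] [BorelSpace G] (μ : Measure G) [IsProbabilityMeasure μ] [μ.IsHaarMeasure]
  [μ.IsMulRightInvariant] [μ.IsInvInvariant] {D : ℕ}

/-- the trivial sector -/
def R0 {X : Type} (_ : X → G) : Matrix Unit Unit ℂ := 1

/-- the ground state energy -/
def E0 (D l : ℕ) [NeZero l] (g : ℝ) : ℝ := ES L μ (sr (D := D) (l := l)) tg g (mag L) R0

variable {L} in
lemma Sec0 {l : ℕ} [NeZero l] {F : (Lk D l → G) → ℂ} (hF : C1 L F)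
    (hi : ∀ γ U, F (gt sr tg γ U) = F U) :
    Sec L (sr (D := D) (l := l)) tg R0 (fun _ : Unit => F) := by
  refine ⟨fun _ => hF, fun γ U => ?_⟩
  unfold R0
  rw [Matrix.one_mulVec]
  funext _
  exact hi γ U

lemma kin_region {l : ℕ} [NeZero l] (g : ℝ) {K : Type} [Fintype K] [DecidableEq K]
    {R : ((Fin D → ZMod l) → G) → Matrix K K ℂ} (hR : ∀ γ, (R γ)ᴴ * R γ = 1)
    {ψ : K → (Lk D l → G) → ℂ} (hψ : Sec L sr tg R ψ) (hn : nrm μ ψ = 1)
    {ι : Type} [Fintype ι] {e : ι → Lk D l} (he : Function.Injective e) :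
    g ^ 2 / 2 * ∑ s, kin L μ (e s) ψ ≤
      en L μ g (mag L) ψ - E0 L μ D l g + 1 / g ^ 2 * (8 * N * D * Fintype.card ι) := by
  have h := kinetic (src := sr) (tgt := tg) (g := g) (E0 := E0 L μ D l g) μ (mag_cont L)
    (fun F hF hi => ES_le μ (mag_cont L) (mag_nonneg L) (Sec0 hF hi)) he
    (fun u U => mag_hat L e u U) hψ.c1 (hψ.inv hR)
  rw [hn, mul_one, mul_one] at h
  exact h

/-- the family on the lattice -/
def AF {p p' r : ℕ} {l k : ℕ} {I : Type} (A : I → Fin p' → Fin p → (Fin k → G) → ℂ)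
    (W : Fin k → List (Lk D l × Bool)) (i : I) (q : Fin p' × Fin r) (q' : Fin p × Fin r)
    (U : Lk D l → G) : ℂ :=
  A i q.1 q'.1 (fun s => hol (W s) U) * (if q.2 = q'.2 then 1 else 0)

lemma AF_kron {p p' r : ℕ} {l k : ℕ} {I : Type} (A : I → Fin p' → Fin p → (Fin k → G) → ℂ)
    (W : Fin k → List (Lk D l × Bool)) (i : I) (U : Lk D l → G) :
    (Matrix.of fun (q : Fin p' × Fin r) (q' : Fin p × Fin r) => AF A W i q q' U) =
      (Matrix.of fun a c => A i a c (fun s => hol (W s) U)) ⊗ₖ (1 : Mat r) := by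
  ext ⟨a, b⟩ ⟨c, d⟩
  rw [Matrix.kronecker_apply, Matrix.of_apply, Matrix.of_apply, Matrix.one_apply]
  rfl

lemma AF_equi {p p' r : ℕ} {l k : ℕ} {I : Type} {A : I → Fin p' → Fin p → (Fin k → G) → ℂ}
    {ρ : G →* UU p} {ρ' : G →* UU p'} (σ : G →* UU r)
    (hA : ∀ i (a : G) h, (Matrix.of fun κ' κ => A i κ' κ (fun s => a * h s * a⁻¹)) =
        (ρ' a : Mat p') * (Matrix.of fun κ' κ => A i κ' κ h) * (ρ a : Mat p)ᴴ)
    {W : Fin k → List (Lk D l × Bool)} {x : Fin D → ZMod l} (hW : ∀ s, IsPath sr tg x (W s) x)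
    (y : Fin D → ZMod l) (i : I) :
    Equi sr tg (RR ρ x σ y) (RR ρ' x σ y) (AF (r := r) A W i) := by
  intro γ U
  rw [AF_kron, AF_kron]
  have h1 : (fun s => hol (W s) (gt sr tg γ U)) = fun s => γ x * hol (W s) U * (γ x)⁻¹ :=
    funext fun s => hol_gt (hW s) γ U
  rw [h1, hA]
  unfold RR
  rw [Matrix.conjTranspose_kronecker, ← Matrix.mul_kronecker_mul, ← Matrix.mul_kronecker_mul,
    Matrix.mul_one, conj_unit']

lemma AF_C1 {p p' r : ℕ} {l k : ℕ} [NeZero l] {I : Type}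
    {A : I → Fin p' → Fin p → (Fin k → G) → ℂ} (hA : ∀ i κ' κ, C1 L (A i κ' κ))
    (W : Fin k → List (Lk D l × Bool)) (i : I) (q : Fin p' × Fin r) (q' : Fin p × Fin r) :
    C1 L (AF A W i q q') :=
  ((hA i q.1 q'.1).comp_hol W).mul (C1.const _)

lemma AF_dl {p p' r : ℕ} {l k : ℕ} [NeZero l] {I : Type}
    {A : I → Fin p' → Fin p → (Fin k → G) → ℂ} (hA : ∀ i κ' κ, C1 L (A i κ' κ))
    (W : Fin k → List (Lk D l × Bool)) (i : I) (q : Fin p' × Fin r) (q' : Fin p × Fin r)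
    (e : Lk D l) (a : Fin n) (U : Lk D l → G) :
    dl L e a (AF A W i q q') U =
      dl L e a (fun U => A i q.1 q'.1 fun s => hol (W s) U) U * (if q.2 = q'.2 then 1 else 0) := by
  have h := dl_mul ((hA i q.1 q'.1).comp_hol W) (C1.const (L := L) (if q.2 = q'.2 then (1:ℂ) else 0))
    e a U
  rw [dl_const, mul_zero, add_zero] at h
  exact h

lemma sum_delta {p p' r : ℕ} {I : Type} [Fintype I] (B : I → Fin p' → Fin p → ℂ) :
    ∑ i, ∑ q : Fin p' × Fin r, ∑ q' : Fin p × Fin r,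
      ‖B i q.1 q'.1 * (if q.2 = q'.2 then (1:ℂ) else 0)‖ ^ 2 =
      r * ∑ i, ∑ a, ∑ c, ‖B i a c‖ ^ 2 := by
  rw [Finset.mul_sum]
  refine Finset.sum_congr rfl fun i _ => ?_
  rw [Fintype.sum_prod_type]
  have h1 : ∀ (a : Fin p') (b : Fin r), ∑ q' : Fin p × Fin r,
      ‖B i a q'.1 * (if b = q'.2 then (1:ℂ) else 0)‖ ^ 2 = ∑ c, ‖B i a c‖ ^ 2 := by
    intro a b
    rw [Fintype.sum_prod_type]
    refine Finset.sum_congr rfl fun c _ => ?_
    rw [Finset.sum_eq_single b]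
    · simp
    · intro d _ hd
      rw [if_neg (Ne.symm hd)]
      simp
    · simp
  simp only [h1]
  simp only [Finset.sum_const, Finset.card_univ, Fintype.card_fin, nsmul_eq_mul]
  rw [Finset.mul_sum]

end

end Pool.Agent.X168.NA
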