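import Mathlib
import Pool.Agent.X168.NA.Core

/-!
# Change of one source: the estimate
-/

open MeasureTheory Matrix Filter Topology
open scoped Matrix.Norms.Frobenius ContDiff Kronecker

namespace Pool.Agent.X168.NA

set_option linter.unusedSectionVars false

noncomputable section

variable {G : Type} [Group G]
variable [TopologicalSpace G] {N n : ℕ} (L : GD G N n)
  [IsTopologicalGroup G] [CompactSpace G] [SecondCountableTopology G] [T2Space G]
  [MeasurableSpace G] [BorelSpace G] (μ : Measure G) [IsProbabilityMeasure μ] [μ.IsHaarMeasure]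
  [μ.IsMulRightInvariant] [μ.IsInvInvariant] {D : ℕ}

/-- the lower bound of the norm -/
lemma norm_low {p p' r : ℕ} {l k : ℕ} [NeZero l] {I : Type} [Fintype I]
    {A : I → Fin p' → Fin p → (Fin k → G) → ℂ} (hA : ∀ i κ' κ, C1 L (A i κ' κ))
    {τ : ℝ} {K₀ : Set (Fin k → G)} (hK₀ : MeasurableSet K₀)
    (hP : ∀ h ∈ K₀, ∀ v : Fin p → ℂ,
      τ * ∑ κ, ‖v κ‖ ^ 2 ≤ ∑ i, ∑ κ', ‖∑ κ, A i κ' κ h * v κ‖ ^ 2)
    (W : Fin k → List (Lk D l × Bool))
    {ψ : Fin p × Fin r → (Lk D l → G) → ℂ} (hψ : ∀ q, C1 L (ψ q)) :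
    τ * (nrm μ ψ - ∑ q, ∫ U in {U | (fun s => hol (W s) U) ∉ K₀}, ‖ψ q U‖ ^ 2
      ∂(ME μ (Lk D l))) ≤ nrm μ (app (fam (AF (r := r) A W)) ψ) := by
  set Bd : Set (Lk D l → G) := {U | (fun s => hol (W s) U) ∉ K₀} with hBd
  have hholc : ∀ w : List (Lk D l × Bool), Continuous fun U : Lk D l → G => hol w U := by
    intro w
    induction w with
    | nil => exact continuous_const
    | cons x w ih =>
      obtain ⟨e, b⟩ := x
      have ce : Continuous fun U : Lk D l → G => U e := continuous_apply e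
      cases b
      · exact ce.inv.mul ih
      · exact ce.mul ih
  have hBdm : MeasurableSet Bd := by
    have h1 : Continuous fun U : Lk D l → G => fun s => hol (W s) U :=
      continuous_pi fun s => hholc (W s)
    exact h1.measurable hK₀.compl
  have hAF : ∀ i (q : Fin p' × Fin r) (q' : Fin p × Fin r), C1 L (AF A W i q q') :=
    fun i q q' => AF_C1 L hA W i q q'
  have hF : ∀ (q : I × (Fin p' × Fin r)) κ, C1 L (fam (AF (r := r) A W) q κ) :=
    fun q κ => hAF q.1 q.2 κ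
  set Φ : (Lk D l → G) → ℝ := fun U => ∑ q, ‖app (fam (AF (r := r) A W)) ψ q U‖ ^ 2 with hΦ
  have hΦc : Continuous Φ := continuous_finsetSum _ fun q _ => (app_C1 hF hψ q).cont.norm.pow 2
  have hΦ0 : ∀ U, 0 ≤ Φ U := fun U => Finset.sum_nonneg fun _ _ => sq_nonneg _
  set Ψ : (Lk D l → G) → ℝ := fun U => ∑ q, ‖ψ q U‖ ^ 2 with hΨ
  have hΨc : Continuous Ψ := continuous_finsetSum _ fun q _ => (hψ q).cont.norm.pow 2
  have h1 : nrm μ (app (fam (AF (r := r) A W)) ψ) = ∫ U, Φ U ∂(ME μ (Lk D l)) := by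
    unfold nrm
    rw [hΦ, integral_finsetSum]
    intro q _
    exact int_cont μ ((app_C1 hF hψ q).cont.norm.pow 2)
  have h2 : nrm μ ψ = ∫ U, Ψ U ∂(ME μ (Lk D l)) := by
    unfold nrm
    rw [hΨ, integral_finsetSum]
    intro q _
    exact int_cont μ ((hψ q).cont.norm.pow 2)
  have h3 : ∑ q, ∫ U in Bd, ‖ψ q U‖ ^ 2 ∂(ME μ (Lk D l)) = ∫ U in Bd, Ψ U ∂(ME μ (Lk D l)) := by
    rw [hΨ, integral_finsetSum]
    intro q _
    exact (int_cont μ ((hψ q).cont.norm.pow 2)).integrableOn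
  have h4 : ∫ U, Ψ U ∂(ME μ (Lk D l)) - ∫ U in Bd, Ψ U ∂(ME μ (Lk D l)) =
      ∫ U in Bdᶜ, Ψ U ∂(ME μ (Lk D l)) := by
    have := integral_add_compl hBdm (int_cont μ hΨc)
    linarith
  have h5 : ∫ U in Bdᶜ, Φ U ∂(ME μ (Lk D l)) ≤ ∫ U, Φ U ∂(ME μ (Lk D l)) :=
    setIntegral_le_integral (int_cont μ hΦc) (Eventually.of_forall hΦ0)
  have h6 : τ * ∫ U in Bdᶜ, Ψ U ∂(ME μ (Lk D l)) ≤ ∫ U in Bdᶜ, Φ U ∂(ME μ (Lk D l)) := by
    rw [← integral_const_mul]
    refine setIntegral_mono_on (int_cont μ (continuous_const.mul hΨc)).integrableOn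
      (int_cont μ hΦc).integrableOn hBdm.compl fun U hU => ?_
    have hUK : (fun s => hol (W s) U) ∈ K₀ := by
      by_contra hc
      exact hU hc
    -- pointwise
    have h7 : Ψ U = ∑ b : Fin r, ∑ c : Fin p, ‖ψ (c, b) U‖ ^ 2 := by
      rw [hΨ]
      show ∑ q : Fin p × Fin r, ‖ψ q U‖ ^ 2 = _
      rw [Fintype.sum_prod_type, Finset.sum_comm]
    have h8 : Φ U = ∑ b : Fin r, ∑ i, ∑ a : Fin p',
        ‖∑ c, A i a c (fun s => hol (W s) U) * ψ (c, b) U‖ ^ 2 := by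
      have h9 : ∀ i (a : Fin p') (b : Fin r), app (fam (AF (r := r) A W)) ψ (i, (a, b)) U =
          ∑ c, A i a c (fun s => hol (W s) U) * ψ (c, b) U := by
        intro i a b
        show ∑ q' : Fin p × Fin r, A i a q'.1 (fun s => hol (W s) U) *
          (if b = q'.2 then 1 else 0) * ψ q' U = _
        rw [Fintype.sum_prod_type]
        refine Finset.sum_congr rfl fun c _ => ?_
        rw [Finset.sum_eq_single b]
        · simp
        · intro d _ hd
          rw [if_neg (Ne.symm hd)]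
          simp
        · simp
      rw [hΦ]
      show ∑ q : I × (Fin p' × Fin r), ‖app (fam (AF (r := r) A W)) ψ q U‖ ^ 2 = _
      rw [Fintype.sum_prod_type]
      have h10 : ∀ i, ∑ q : Fin p' × Fin r, ‖app (fam (AF (r := r) A W)) ψ (i, q) U‖ ^ 2 =
          ∑ b : Fin r, ∑ a : Fin p', ‖∑ c, A i a c (fun s => hol (W s) U) * ψ (c, b) U‖ ^ 2 := by
        intro i
        rw [Fintype.sum_prod_type, Finset.sum_comm]
        simp only [h9]
      rw [Finset.sum_congr rfl fun i _ => h10 i, Finset.sum_comm]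
    show τ * Ψ U ≤ Φ U
    rw [h7, h8, Finset.mul_sum]
    exact Finset.sum_le_sum fun b _ => hP _ hUK fun c => ψ (c, b) U
  rw [h1, h2, h3, h4]
  linarith

variable [PreconnectedSpace G]

/-- **Change of the source at `x`.** -/
theorem left_step {p p' r : ℕ} [NeZero p'] {ρ : G →* UU p} {ρ' : G →* UU p'} (σ : G →* UU r)
    (h₁ : Continuous ρ) (h₂ : Continuous ρ')
    (hcen : ∀ z ∈ Subgroup.center G, ∃ c : ℂ, (ρ z : Mat p) = c • 1 ∧ (ρ' z : Mat p') = c • 1)
    {a b : Fin D} (hab : a ≠ b) {g : ℝ} (hg : 0 < g) :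
    ∃ C : ℝ, 0 ≤ C ∧ ∀ (l : ℕ) [NeZero l] (x y : Fin D → ZMod l) (m : ℕ), 1 ≤ m → m ≤ l →
      m * (N * N) < l → NE L μ sr tg (RR ρ x σ y) →
      ES L μ sr tg g (mag L) (RR ρ x σ y) - E0 L μ D l g + 1 ≤ m ^ 2 →
      NE L μ sr tg (RR ρ' x σ y) ∧
      ES L μ sr tg g (mag L) (RR ρ' x σ y) ≤
        ES L μ sr tg g (mag L) (RR ρ x σ y) + C * (m * √m) := by
  classical
  set k : ℕ := N * N with hk
  set κ₀ : ℝ := 2 / g ^ 2 * (1 + 1 / g ^ 2 * (8 * N * D * k)) with hκ₀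
  have hκ₀0 : 0 ≤ κ₀ := by positivity
  obtain ⟨ε, hε, hnonc⟩ := nonc (V := ℂ) μ L k (δ := 1 / (4 * (κ₀ + 1))) (by positivity)
  obtain ⟨I, _, A, τ, K₀, hτ, hAC, hAe, hK₀, hK₀ε, hP⟩ := family L μ ρ ρ' h₁ h₂ hcen hε
  choose Cb hCb0 hCb using fun i κ' κ => bdd_cont (hAC i κ' κ).cont
  choose Λ hΛ0 hΛ using fun i κ' κ => dl_hol_le (hAC i κ' κ)
  set c0 : ℝ := √(r * ∑ i, ∑ κ', ∑ κ, Cb i κ' κ ^ 2) with hc0
  set c1 : ℝ := √(r * ∑ i, ∑ κ', ∑ κ, (Λ i κ' κ * 5) ^ 2) with hc1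
  have hc0s : c0 ^ 2 = r * ∑ i, ∑ κ', ∑ κ, Cb i κ' κ ^ 2 := Real.sq_sqrt (by positivity)
  have hc1s : c1 ^ 2 = r * ∑ i, ∑ κ', ∑ κ, (Λ i κ' κ * 5) ^ 2 := Real.sq_sqrt (by positivity)
  have hc00 : 0 ≤ c0 := Real.sqrt_nonneg _
  have hc10 : 0 ≤ c1 := Real.sqrt_nonneg _
  set cT : ℝ := 2 * k * (k + 1) with hcT
  have hcT0 : 0 ≤ cT := by positivity
  set κ₁ : ℝ := 2 / g ^ 2 * (1 + 1 / g ^ 2 * (8 * N * D * cT)) with hκ₁
  have hκ₁0 : 0 ≤ κ₁ := by positivity
  set C1c : ℝ := 1 + g ^ 2 / 2 * (cT * (n * (c1 ^ 2 + c1 * c0)) + c1 * c0 * κ₁) with hC1c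
  have hC1c0 : 0 ≤ C1c := by positivity
  refine ⟨4 * C1c / τ, by positivity, ?_⟩
  intro l _ x y m hm hml hmk hNE hV
  set R := RR ρ x σ y with hR
  set R' := RR ρ' x σ y with hR'
  have hRu : ∀ γ, (R γ)ᴴ * R γ = 1 := RR_unit ρ x σ y
  have hRu' : ∀ γ, (R' γ)ᴴ * R' γ = 1 := RR_unit ρ' x σ y
  set E1 := ES L μ sr tg g (mag L) R with hE1
  have hE10 : 0 ≤ E1 := ES_nonneg μ (mag_nonneg L)
  set MMv := MM g c0 c1 E1 (Fintype.card (Lk D l)) n with hMMv
  have hMM0 : 0 ≤ MMv := MM_nonneg hE10 _ _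
  have hm0 : (1:ℝ) ≤ m := by exact_mod_cast hm
  obtain ⟨ψ, hψ, hn, hen⟩ := ES_approx (g := g) (mg := mag L) μ hNE
    (η := 1 / (MMv + 1)) (by positivity)
  have hη1 : 1 / (MMv + 1) ≤ 1 := by
    rw [div_le_one (by positivity)]
    linarith
  have hen2 : en L μ g (mag L) ψ - E0 L μ D l g ≤ m ^ 2 := by
    have : en L μ g (mag L) ψ ≤ E1 + 1 := hen.trans (add_le_add le_rfl hη1)
    linarith
  have hg2 : 0 < g ^ 2 := by positivity
  -- the private links
  have hinj := pls_inj (m := m) (k := k) hab x hml hmk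
  have hkin := kin_region L μ g hRu hψ hn hinj
  have hcard : (Fintype.card ((Fin m × Fin m) × Fin k) : ℝ) = m ^ 2 * k := by
    simp only [Fintype.card_prod, Fintype.card_fin]
    push_cast
    ring
  rw [hcard, Fintype.sum_prod_type] at hkin
  have hkin2 : ∑ q : Fin m × Fin m, ∑ s : Fin k, kin L μ (pls a b x (q, s)) ψ ≤ m ^ 2 * κ₀ := by
    have h1 : g ^ 2 / 2 * ∑ q : Fin m × Fin m, ∑ s : Fin k, kin L μ (pls a b x (q, s)) ψ ≤
        g ^ 2 / 2 * (m ^ 2 * κ₀) := by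
      refine hkin.trans ?_
      have h2 : g ^ 2 / 2 * (m ^ 2 * κ₀) = m ^ 2 + 1 / g ^ 2 * (8 * N * D * (m ^ 2 * k)) := by
        rw [hκ₀]
        field_simp
      rw [h2]
      linarith
    exact le_of_mul_le_mul_left h1 (by positivity)
  obtain ⟨q, hq⟩ : ∃ q : Fin m × Fin m, ∑ s : Fin k, kin L μ (pls a b x (q, s)) ψ ≤ κ₀ := by
    by_contra hc
    push Not at hc
    have hne : (Finset.univ : Finset (Fin m × Fin m)).Nonempty :=
      ⟨(⟨0, hm⟩, ⟨0, hm⟩), Finset.mem_univ _⟩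
    have h1 := Finset.sum_lt_sum_of_nonempty hne fun q _ => hc q
    have h2 : ∑ _q : Fin m × Fin m, κ₀ = m ^ 2 * κ₀ := by
      simp only [Finset.sum_const, Finset.card_univ, Fintype.card_prod, Fintype.card_fin,
        nsmul_eq_mul]
      push_cast
      ring
    rw [h2] at h1
    linarith
  -- the words
  set W : Fin k → List (Lk D l × Bool) := lps a b x q with hW
  set T : Finset (Lk D l) := lks (k := k) a b x q with hT
  have hTcard : (T.card : ℝ) ≤ cT * m := by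
    have := lks_card (k := k) a b x q
    have h2 : ((lks (k := k) a b x q).card : ℝ) ≤ ((2 * k * (k + 1) * m : ℕ) : ℝ) := by
      exact_mod_cast this
    rw [hT, hcT]
    push_cast at h2
    linarith
  have hcnt : ∀ e s, cnt e (W s) ≤ 5 := by
    intro e s
    have h1 := ht_le q s
    exact lp_cnt a b x (by have := q.1.2; omega) (by omega) e
  have hpath : ∀ s, IsPath sr tg x (W s) x := fun s => lp_path a b x _ _
  -- kinetic energy of the region
  have hkT := kin_region L μ g hRu hψ hn (ι := {e // e ∈ T}) (e := Subtype.val)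
    Subtype.val_injective
  have hkT2 : ∑ e ∈ T, kin L μ e ψ ≤ m ^ 2 * κ₁ := by
    have h0 : ∑ s : {e // e ∈ T}, kin L μ s.1 ψ = ∑ e ∈ T, kin L μ e ψ :=
      Finset.sum_coe_sort T fun e => kin L μ e ψ
    rw [h0, Fintype.card_coe] at hkT
    have h1 : g ^ 2 / 2 * ∑ e ∈ T, kin L μ e ψ ≤ g ^ 2 / 2 * (m ^ 2 * κ₁) := by
      refine hkT.trans ?_
      have h2 : g ^ 2 / 2 * (m ^ 2 * κ₁) = m ^ 2 + 1 / g ^ 2 * (8 * N * D * (cT * m ^ 2)) := by
        rw [hκ₁]
        field_simp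
      rw [h2]
      have h3 : (T.card : ℝ) ≤ cT * m ^ 2 := by
        refine hTcard.trans ?_
        exact mul_le_mul_of_nonneg_left (le_self_pow₀ hm0 two_ne_zero) hcT0
      have h4 : 1 / g ^ 2 * (8 * N * D * (T.card : ℝ)) ≤
          1 / g ^ 2 * (8 * N * D * (cT * m ^ 2)) := by
        refine mul_le_mul_of_nonneg_left ?_ (by positivity)
        exact mul_le_mul_of_nonneg_left h3 (by positivity)
      linarith
    exact le_of_mul_le_mul_left h1 (by positivity)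
  -- the bad set
  have hbadm : ∀ U : Lk D l → G, (Measure.pi fun _ : Fin k => μ).real
      {u | hat (fun s => pls a b x (q, s)) u * U ∈
        {U : Lk D l → G | (fun s => hol (W s) U) ∉ K₀}} ≤ ε := by
    intro U
    have h1 := bad_set μ hab x hml hmk q K₀ U
    refine le_trans (le_of_eq ?_) hK₀ε
    exact h1
  have hholc : ∀ w : List (Lk D l × Bool), Continuous fun U : Lk D l → G => hol w U := by
    intro w
    induction w with
    | nil => exact continuous_const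
    | cons x w ih =>
      obtain ⟨e, b⟩ := x
      have ce : Continuous fun U : Lk D l → G => U e := continuous_apply e
      cases b
      · exact ce.inv.mul ih
      · exact ce.mul ih
  have hBdm : MeasurableSet {U : Lk D l → G | (fun s => hol (W s) U) ∉ K₀} := by
    have h1 : Continuous fun U : Lk D l → G => fun s => hol (W s) U :=
      continuous_pi fun s => hholc (W s)
    exact h1.measurable hK₀.compl
  have hinjq : Function.Injective fun s : Fin k => pls a b x (q, s) := by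
    intro s s' h
    have := hinj h
    rw [Prod.mk.injEq] at this
    exact this.2
  have hbad : ∑ κ, ∫ U in {U : Lk D l → G | (fun s => hol (W s) U) ∉ K₀}, ‖ψ κ U‖ ^ 2
      ∂(ME μ (Lk D l)) ≤ 3 / 4 := by
    have h1 : ∀ κ ∈ Finset.univ, ∫ U in {U : Lk D l → G | (fun s => hol (W s) U) ∉ K₀},
        ‖ψ κ U‖ ^ 2 ∂(ME μ (Lk D l)) ≤ 1 / 2 * ∫ U, ‖ψ κ U‖ ^ 2 ∂(ME μ (Lk D l)) +
        1 / (4 * (κ₀ + 1)) * ∑ s, ∑ c, ∫ U, ‖dl L (pls a b x (q, s)) c (ψ κ) U‖ ^ 2
          ∂(ME μ (Lk D l)) := fun κ _ =>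
      hnonc (Lk D l) (fun s => pls a b x (q, s)) hinjq (ψ κ) (hψ.c1 κ) _ hBdm hbadm
    refine (Finset.sum_le_sum h1).trans ?_
    rw [Finset.sum_add_distrib, ← Finset.mul_sum, ← Finset.mul_sum]
    have h2 : ∑ κ, ∫ U, ‖ψ κ U‖ ^ 2 ∂(ME μ (Lk D l)) = 1 := hn
    have h3 : ∑ κ, ∑ s : Fin k, ∑ c, ∫ U, ‖dl L (pls a b x (q, s)) c (ψ κ) U‖ ^ 2
        ∂(ME μ (Lk D l)) =
        ∑ s : Fin k, kin L μ (pls a b x (q, s)) ψ := by
      rw [Finset.sum_comm]
      refine Finset.sum_congr rfl fun s _ => ?_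
      unfold kin
      exact Finset.sum_comm
    rw [h2, h3]
    have h4 : 1 / (4 * (κ₀ + 1)) * ∑ s : Fin k, kin L μ (pls a b x (q, s)) ψ ≤
        1 / (4 * (κ₀ + 1)) * κ₀ := mul_le_mul_of_nonneg_left hq (by positivity)
    have h5 : 1 / (4 * (κ₀ + 1)) * κ₀ ≤ 1 / 4 := by
      rw [div_mul_eq_mul_div, one_mul, div_le_iff₀ (by positivity)]
      linarith
    linarith
  have hlow := norm_low L μ (r := r) hAC hK₀ hP W hψ.c1
  rw [hn] at hlow
  have hlow2 : τ / 4 ≤ nrm μ (app (fam (AF (r := r) A W)) ψ) := by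
    refine le_trans ?_ hlow
    have : τ * (1 / 4) ≤ τ * (1 - ∑ κ, ∫ U in {U : Lk D l → G | (fun s => hol (W s) U) ∉ K₀},
        ‖ψ κ U‖ ^ 2 ∂(ME μ (Lk D l))) := mul_le_mul_of_nonneg_left (by linarith) hτ.le
    linarith
  have hAF : ∀ i (q : Fin p' × Fin r) (q' : Fin p × Fin r), C1 L (AF A W i q q') :=
    fun i q q' => AF_C1 L hAC W i q q'
  have hAFe : ∀ i, Equi sr tg R R' (AF (r := r) A W i) := fun i => AF_equi σ hAe hpath y i
  refine ⟨?_, ?_⟩
  · -- the new sector is not trivial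
    by_contra hc
    have h1 : nrm μ (app (fam (AF (r := r) A W)) ψ) ≤ 0 := by
      rw [fam_nrm]
      refine Finset.sum_nonpos fun i _ => ?_
      by_contra h2
      push Not at h2
      exact hc ⟨_, hψ.app (hAF i) (hAFe i) hRu, h2⟩
    linarith
  · -- the energy
    by_cases hle : ES L μ sr tg g (mag L) R' ≤ E1
    · have : 0 ≤ 4 * C1c / τ * (m * √m) := by positivity
      linarith
    push Not at hle
    have hsq : 0 < √(m:ℝ) := Real.sqrt_pos.2 (by linarith)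
    have h0 : ∀ U, ∑ i, ∑ κ', ∑ κ, ‖AF (r := r) A W i κ' κ U‖ ^ 2 ≤ c0 ^ 2 := by
      intro U
      rw [hc0s]
      unfold AF
      rw [sum_delta fun i a c => A i a c fun s => hol (W s) U]
      refine mul_le_mul_of_nonneg_left ?_ (Nat.cast_nonneg r)
      exact Finset.sum_le_sum fun i _ => Finset.sum_le_sum fun a _ => Finset.sum_le_sum fun c _ =>
        pow_le_pow_left₀ (norm_nonneg _) (hCb i a c _) 2
    have h1 : ∀ e ∈ T, ∀ c U, ∑ i, ∑ κ', ∑ κ, ‖dl L e c (AF (r := r) A W i κ' κ) U‖ ^ 2 ≤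
        c1 ^ 2 := by
      intro e _ c U
      rw [hc1s]
      simp only [AF_dl L hAC]
      rw [sum_delta fun i a c' => dl L e c (fun U => A i a c' fun s => hol (W s) U) U]
      refine mul_le_mul_of_nonneg_left ?_ (Nat.cast_nonneg r)
      refine Finset.sum_le_sum fun i _ => Finset.sum_le_sum fun a _ =>
        Finset.sum_le_sum fun c' _ => pow_le_pow_left₀ (norm_nonneg _) ?_ 2
      exact_mod_cast hΛ i a c' (Lk D l) W e 5 (hcnt e) c U
    have h2 : ∀ e ∉ T, ∀ c U i κ' κ, dl L e c (AF (r := r) A W i κ' κ) U = 0 := by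
      intro e he c U i κ' κ
      rw [AF_dl L hAC, dl_hol_zero _ W (fun s => lks_cnt a b x q he s), zero_mul]
    have hmain := coreA μ (mag_cont L) (mag_nonneg L) hRu hRu' hAF hAFe hc00 hc10 hsq T h0 h1 h2
      hψ hn hen
    have h3 : (ES L μ sr tg g (mag L) R' - E1) * (τ / 4) ≤
        (ES L μ sr tg g (mag L) R' - E1) * nrm μ (app (fam (AF (r := r) A W)) ψ) :=
      mul_le_mul_of_nonneg_left hlow2 (by linarith)
    -- the right-hand side
    have hmm : (m:ℝ) = √m * √m := (Real.mul_self_sqrt (by linarith)).symm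
    have hsq1 : 1 ≤ √(m:ℝ) := by
      rw [Real.one_le_sqrt]
      exact hm0
    have h4 : g ^ 2 / 2 * (T.card * (n * (c1 ^ 2 + c1 * c0 * √m)) +
        c1 * c0 / √m * ∑ e ∈ T, kin L μ e ψ) ≤
        g ^ 2 / 2 * (cT * (n * (c1 ^ 2 + c1 * c0)) + c1 * c0 * κ₁) * (m * √m) := by
      have h5 : (T.card : ℝ) * (n * (c1 ^ 2 + c1 * c0 * √m)) ≤
          cT * (n * (c1 ^ 2 + c1 * c0)) * (m * √m) := by
        have h6 : (n:ℝ) * (c1 ^ 2 + c1 * c0 * √m) ≤ (n * (c1 ^ 2 + c1 * c0)) * √m := by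
          have : c1 ^ 2 ≤ c1 ^ 2 * √m := le_mul_of_one_le_right (by positivity) hsq1
          have h7 : (n:ℝ) * (c1 ^ 2 + c1 * c0 * √m) ≤ n * (c1 ^ 2 * √m + c1 * c0 * √m) :=
            mul_le_mul_of_nonneg_left (by linarith) (Nat.cast_nonneg n)
          linarith
        calc (T.card : ℝ) * (n * (c1 ^ 2 + c1 * c0 * √m)) ≤
            (cT * m) * ((n * (c1 ^ 2 + c1 * c0)) * √m) :=
              mul_le_mul hTcard h6 (by positivity) (by positivity)
          _ = _ := by ring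
      have h8 : c1 * c0 / √m * ∑ e ∈ T, kin L μ e ψ ≤ c1 * c0 * κ₁ * (m * √m) := by
        have h9 : c1 * c0 / √m * ∑ e ∈ T, kin L μ e ψ ≤ c1 * c0 / √m * (m ^ 2 * κ₁) :=
          mul_le_mul_of_nonneg_left hkT2 (by positivity)
        refine h9.trans (le_of_eq ?_)
        rw [div_mul_eq_mul_div, div_eq_iff hsq.ne']
        have h10 : (m:ℝ) * √m * √m = m ^ 2 := by
          rw [mul_assoc, ← hmm]
          ring
        calc c1 * c0 * (m ^ 2 * κ₁) = c1 * c0 * κ₁ * (m ^ 2 : ℝ) := by ring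
          _ = c1 * c0 * κ₁ * ((m:ℝ) * √m * √m) := by rw [h10]
          _ = _ := by ring
      have h11 := mul_le_mul_of_nonneg_left (add_le_add h5 h8) (by positivity : 0 ≤ g ^ 2 / 2)
      linarith
    have h12 : 1 ≤ (m:ℝ) * √m := one_le_mul_of_one_le_of_one_le hm0 hsq1
    have h13 : 1 + g ^ 2 / 2 * (T.card * (n * (c1 ^ 2 + c1 * c0 * √m)) +
        c1 * c0 / √m * ∑ e ∈ T, kin L μ e ψ) ≤ C1c * (m * √m) := by
      rw [hC1c]
      linarith
    have h14 : (ES L μ sr tg g (mag L) R' - E1) * (τ / 4) ≤ C1c * (m * √m) :=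
      h3.trans (hmain.trans h13)
    have h15 : ES L μ sr tg g (mag L) R' - E1 ≤ 4 * C1c / τ * (m * √m) := by
      have h16 : ES L μ sr tg g (mag L) R' - E1 ≤ C1c * (m * √m) / (τ / 4) := by
        rw [le_div_iff₀ (by positivity)]
        exact h14
      refine h16.trans (le_of_eq ?_)
      field_simp
    linarith

end

end Pool.Agent.X168.NA
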