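import Mathlib
import Pool.Agent.X168.NA.Step

/-!
# Upper bound of the potential, and symmetries
-/

open MeasureTheory Matrix Filter Topology
open scoped Matrix.Norms.Frobenius ContDiff Kronecker

namespace Pool.Agent.X168.NA

set_option linter.unusedSectionVars false

noncomputable section

variable {G : Type} [Group G]
variable [TopologicalSpace G] {N n : ℕ} (L : GD G N n)
  [IsTopologicalGroup G] [CompactSpace G] [SecondCountableTopology G] [T2Space G]
  [MeasurableSpace G] [BorelSpace G] (μ : Measure G) [IsProbabilityMeasure μ] [μ.IsHaarMeasure]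
  [μ.IsMulRightInvariant] [μ.IsInvInvariant] {D : ℕ}

lemma ground_le {l : ℕ} [NeZero l] (g : ℝ) {K : Type} [Fintype K] [DecidableEq K]
    {R : ((Fin D → ZMod l) → G) → Matrix K K ℂ} (hR : ∀ γ, (R γ)ᴴ * R γ = 1)
    (hNE : NE L μ sr tg R) : E0 L μ D l g ≤ ES L μ sr tg g (mag L) R := by
  refine le_of_forall_pos_le_add fun η hη => ?_
  obtain ⟨ψ, hψ, hn, hen⟩ := ES_approx (g := g) (mg := mag L) μ hNE hη
  have h := kin_region L μ g hR hψ hn (ι := Fin 0) (e := fun s => s.elim0)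
    (fun s => s.elim0)
  simp only [Finset.univ_eq_empty, Finset.sum_empty, mul_zero, Fintype.card_fin,
    Nat.cast_zero, add_zero] at h
  linarith

lemma R0_unit {X : Type} (γ : X → G) : (R0 γ)ᴴ * R0 γ = 1 := by
  unfold R0
  rw [Matrix.conjTranspose_one, Matrix.one_mul]

lemma NE0 {l : ℕ} [NeZero l] : NE L μ (sr (D := D) (l := l)) tg (R0 (G := G)) := by
  refine ⟨fun _ _ => 1, Sec0 (C1.const 1) fun _ _ => rfl, ?_⟩
  unfold nrm
  simp

/-- **Upper bound by the path state.** -/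
theorem path_bound {p : ℕ} [NeZero p] {ρ : G →* UU p} (hρ : Continuous ρ) {g : ℝ} (hg : 0 < g) :
    ∃ C : ℝ, 0 ≤ C ∧ ∀ (l : ℕ) [NeZero l] (x y : Fin D → ZMod l),
      NE L μ sr tg (RR ρ x ρ y) ∧
      ES L μ sr tg g (mag L) (RR ρ x ρ y) - E0 L μ D l g ≤
        C * (1 + ∑ i, ((y i - x i).val : ℝ)) := by
  classical
  have hrep := rep_C1 L μ ρ hρ
  choose Λ hΛ0 hΛ using fun i j => dl_hol_le (hrep i j)
  set c0 : ℝ := √p with hc0
  have hc0s : c0 ^ 2 = p := Real.sq_sqrt (Nat.cast_nonneg p)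
  set c1 : ℝ := √(∑ i, ∑ j, (Λ i j * D) ^ 2) with hc1
  have hc1s : c1 ^ 2 = ∑ i, ∑ j, (Λ i j * D) ^ 2 := Real.sq_sqrt (by positivity)
  have hc00 : 0 ≤ c0 := Real.sqrt_nonneg _
  have hc10 : 0 ≤ c1 := Real.sqrt_nonneg _
  have hp : (0:ℝ) < p := by exact_mod_cast Nat.pos_of_ne_zero (NeZero.ne p)
  set C : ℝ := 1 + g ^ 2 / 2 * (n * (c1 ^ 2 + c1 * c0) +
    c1 * c0 * (2 / g ^ 2 * (1 + 1 / g ^ 2 * (8 * N * D)))) with hC
  have hC0 : 0 ≤ C := by positivity
  refine ⟨C / p, by positivity, ?_⟩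
  intro l _ x y
  obtain ⟨w, hw, hwl, hwc⟩ := exists_path (Finset.univ : Finset (Fin D)) x y
    fun i hi => absurd (Finset.mem_univ i) hi
  rw [Finset.card_univ, Fintype.card_fin] at hwc
  set d : ℝ := ∑ i, ((y i - x i).val : ℝ) with hd
  have hd0 : 0 ≤ d := Finset.sum_nonneg fun _ _ => Nat.cast_nonneg _
  have hwl' : (w.length : ℝ) = d := by
    rw [hwl, hd]
    push_cast
    rfl
  set T : Finset (Lk D l) := (w.map Prod.fst).toFinset with hT
  have hTcard : (T.card : ℝ) ≤ d := by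
    rw [← hwl']
    have := List.toFinset_card_le (w.map Prod.fst)
    rw [List.length_map] at this
    exact_mod_cast this
  -- the family
  set W : Fin 1 → List (Lk D l × Bool) := fun _ => w with hW
  set A : Unit → Fin p × Fin p → Unit → (Lk D l → G) → ℂ := fun _ q _ U =>
    (fun h : Fin 1 → G => (ρ (h 0) : Mat p) q.1 q.2) (fun s => hol (W s) U) with hA
  have hAC : ∀ i q c, C1 L (A i q c) := fun i q c => (hrep q.1 q.2).comp_hol W
  have hAe : ∀ i, Equi sr tg R0 (RR ρ x ρ y) (A i) := by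
    intro i γ U
    ext ⟨a, b⟩ c
    have h1 : (R0 (G := G) γ)ᴴ = 1 := by
      unfold R0
      rw [Matrix.conjTranspose_one]
    rw [h1, Matrix.mul_one, Matrix.mul_apply, Fintype.sum_prod_type]
    show (ρ (hol w (gt sr tg γ U)) : Mat p) a b = ∑ k, ∑ k', (ρ (γ x) : Mat p) a k *
      (starRingEnd ℂ) ((ρ (γ y) : Mat p) b k') * (ρ (hol w U) : Mat p) k k'
    rw [hol_gt hw, map_mul, map_mul, map_inv]
    show (((ρ (γ x) : Mat p) * (ρ (hol w U) : Mat p)) * (ρ (γ y) : Mat p)ᴴ) a b = _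
    rw [Matrix.mul_apply]
    simp only [Matrix.mul_apply, Finset.sum_mul]
    rw [Finset.sum_comm]
    refine Finset.sum_congr rfl fun k _ => Finset.sum_congr rfl fun k' _ => ?_
    rw [Matrix.conjTranspose_apply]
    show _ * _ * (starRingEnd ℂ) _ = _
    ring
  have hfrob : ∀ U, ∑ q : Fin p × Fin p, ‖(ρ (hol w U) : Mat p) q.1 q.2‖ ^ 2 = p := by
    intro U
    have h1 := unit_mul' (ρ (hol w U))
    rw [Fintype.sum_prod_type]
    have h2 : ∀ a : Fin p, ∑ b : Fin p, ‖(ρ (hol w U) : Mat p) a b‖ ^ 2 = 1 := by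
      intro a
      have h3 := congrFun (congrFun h1 a) a
      rw [Matrix.mul_apply, Matrix.one_apply_eq] at h3
      have h4 := congrArg Complex.re h3
      rw [Complex.re_sum, Complex.one_re] at h4
      rw [← h4]
      refine Finset.sum_congr rfl fun b _ => ?_
      rw [Matrix.conjTranspose_apply]
      show _ = (_ * (starRingEnd ℂ) _).re
      rw [Complex.mul_conj, Complex.ofReal_re, Complex.normSq_eq_norm_sq]
    simp only [h2]
    simp
  -- near minimiser of the trivial sector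
  set E1 := ES L μ (sr (D := D) (l := l)) tg g (mag L) R0 with hE1
  have hE1' : E0 L μ D l g = E1 := rfl
  have hE10 : 0 ≤ E1 := ES_nonneg μ (mag_nonneg L)
  set MMv := MM g c0 c1 E1 (Fintype.card (Lk D l)) n with hMMv
  have hMM0 : 0 ≤ MMv := MM_nonneg hE10 _ _
  obtain ⟨ψ, hψ, hn, hen⟩ := ES_approx (g := g) (mg := mag L) μ (NE0 L μ (D := D) (l := l))
    (η := 1 / (MMv + 1)) (by positivity)
  have hη1 : 1 / (MMv + 1) ≤ 1 := by
    rw [div_le_one (by positivity)]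
    linarith
  have hg2 : 0 < g ^ 2 := by positivity
  have hkT := kin_region L μ g R0_unit hψ hn (ι := {e // e ∈ T}) (e := Subtype.val)
    Subtype.val_injective
  have hkT2 : ∑ e ∈ T, kin L μ e ψ ≤ 2 / g ^ 2 * (1 + 1 / g ^ 2 * (8 * N * D)) * (1 + d) := by
    have h0 : ∑ s : {e // e ∈ T}, kin L μ s.1 ψ = ∑ e ∈ T, kin L μ e ψ :=
      Finset.sum_coe_sort T fun e => kin L μ e ψ
    rw [h0, Fintype.card_coe] at hkT
    have h1 : g ^ 2 / 2 * ∑ e ∈ T, kin L μ e ψ ≤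
        g ^ 2 / 2 * (2 / g ^ 2 * (1 + 1 / g ^ 2 * (8 * N * D)) * (1 + d)) := by
      refine hkT.trans ?_
      have h2 : g ^ 2 / 2 * (2 / g ^ 2 * (1 + 1 / g ^ 2 * (8 * N * D)) * (1 + d)) =
          (1 + 1 / g ^ 2 * (8 * N * D)) * (1 + d) := by
        field_simp
      rw [h2]
      have h3 : 1 / g ^ 2 * (8 * N * D * (T.card : ℝ)) ≤ 1 / g ^ 2 * (8 * N * D * d) := by
        refine mul_le_mul_of_nonneg_left ?_ (by positivity)
        exact mul_le_mul_of_nonneg_left hTcard (by positivity)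
      have h4 : en L μ g (mag L) ψ - E0 L μ D l g ≤ 1 := by
        rw [hE1']
        linarith
      have h5 : (0:ℝ) ≤ 1 / g ^ 2 * (8 * N * D) := by positivity
      nlinarith
    exact le_of_mul_le_mul_left h1 (by positivity)
  have h0 : ∀ U, ∑ i, ∑ q, ∑ c, ‖A i q c U‖ ^ 2 ≤ c0 ^ 2 := by
    intro U
    rw [hc0s, ← hfrob U]
    simp [hA, hW]
  have h1 : ∀ e ∈ T, ∀ c U, ∑ i, ∑ q, ∑ k, ‖dl L e c (A i q k) U‖ ^ 2 ≤ c1 ^ 2 := by
    intro e _ c U
    rw [hc1s]
    simp only [Finset.univ_unique, Finset.sum_singleton]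
    rw [Fintype.sum_prod_type]
    refine Finset.sum_le_sum fun a _ => Finset.sum_le_sum fun b _ =>
      pow_le_pow_left₀ (norm_nonneg _) ?_ 2
    exact hΛ a b (Lk D l) W e D (fun s => hwc e) c U
  have h2 : ∀ e ∉ T, ∀ c U i q k, dl L e c (A i q k) U = 0 := by
    intro e he c U i q k
    exact dl_hol_zero (fun h : Fin 1 → G => (ρ (h 0) : Mat p) q.1 q.2) W
      (fun s => cnt_eq_zero fun h => he (List.mem_toFinset.2 h)) c U
  have hmain := coreA μ (mag_cont L) (mag_nonneg L) R0_unit (RR_unit ρ x ρ y) hAC hAe hc00 hc10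
    one_pos T h0 h1 h2 hψ hn hen
  have hnrm : nrm μ (app (fam A) ψ) = p := by
    have h3 : ∀ q : Unit × (Fin p × Fin p), ∀ U, app (fam A) ψ q U =
        (ρ (hol w U) : Mat p) q.2.1 q.2.2 * ψ () U := by
      intro q U
      show ∑ κ : Unit, A q.1 q.2 κ U * ψ κ U = _
      rw [Finset.univ_unique, Finset.sum_singleton]
    have h4 : nrm μ (app (fam A) ψ) = ∫ U, ∑ q : Unit × (Fin p × Fin p),
        ‖app (fam A) ψ q U‖ ^ 2 ∂(ME μ (Lk D l)) := by
      unfold nrm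
      rw [integral_finsetSum]
      intro q _
      exact int_cont μ ((app_C1 (fun (q : Unit × (Fin p × Fin p)) κ => hAC q.1 q.2 κ)
        hψ.c1 q).cont.norm.pow 2)
    rw [h4]
    have h5 : ∀ U, ∑ q : Unit × (Fin p × Fin p), ‖app (fam A) ψ q U‖ ^ 2 = p * ‖ψ () U‖ ^ 2 := by
      intro U
      simp only [h3, norm_mul, mul_pow]
      rw [← Finset.sum_mul, Fintype.sum_prod_type, Finset.univ_unique, Finset.sum_singleton,
        hfrob U]
    simp only [h5]
    rw [integral_const_mul]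
    have h6 : ∫ U, ‖ψ () U‖ ^ 2 ∂(ME μ (Lk D l)) = 1 := by
      rw [← hn]
      unfold nrm
      rw [Finset.univ_unique, Finset.sum_singleton]
    rw [h6, mul_one]
  refine ⟨?_, ?_⟩
  · refine ⟨app (A ()) ψ, hψ.app (hAC ()) (hAe ()) R0_unit, ?_⟩
    have h3 := fam_nrm μ A ψ
    rw [Finset.univ_unique, Finset.sum_singleton, hnrm] at h3
    show 0 < nrm μ (app (A ()) ψ)
    rw [show nrm μ (app (A ()) ψ) = (p:ℝ) from h3.symm]
    exact hp
  · rw [hnrm] at hmain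
    rw [hE1']
    have h3 : g ^ 2 / 2 * (T.card * (n * (c1 ^ 2 + c1 * c0 * 1)) +
        c1 * c0 / 1 * ∑ e ∈ T, kin L μ e ψ) ≤
        g ^ 2 / 2 * (n * (c1 ^ 2 + c1 * c0) +
          c1 * c0 * (2 / g ^ 2 * (1 + 1 / g ^ 2 * (8 * N * D)))) * (1 + d) := by
      rw [mul_one, div_one]
      have h4 : (T.card : ℝ) * (n * (c1 ^ 2 + c1 * c0)) ≤ (n * (c1 ^ 2 + c1 * c0)) * (1 + d) := by
        rw [mul_comm]
        exact mul_le_mul_of_nonneg_left (by linarith) (by positivity)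
      have h5 : c1 * c0 * ∑ e ∈ T, kin L μ e ψ ≤
          c1 * c0 * (2 / g ^ 2 * (1 + 1 / g ^ 2 * (8 * N * D)) * (1 + d)) :=
        mul_le_mul_of_nonneg_left hkT2 (by positivity)
      have h6 := mul_le_mul_of_nonneg_left (add_le_add h4 h5) (by positivity : 0 ≤ g ^ 2 / 2)
      refine h6.trans (le_of_eq ?_)
      ring
    have h7 : (ES L μ sr tg g (mag L) (RR ρ x ρ y) - E1) * p ≤ C * (1 + d) := by
      refine hmain.trans ?_
      rw [hC]
      have : (1:ℝ) ≤ 1 + d := by linarith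
      linarith
    rw [div_mul_eq_mul_div, le_div_iff₀ hp]
    exact h7

/-- exchange of the sources -/
def swp {K₁ K₂ E : Type} (ψ : K₁ × K₂ → (E → G) → ℂ) : K₂ × K₁ → (E → G) → ℂ :=
  fun q U => (starRingEnd ℂ) (ψ (q.2, q.1) U)

lemma swap_sec {p r l : ℕ} [NeZero l] {ρ : G →* UU p} {σ : G →* UU r} {x y : Fin D → ZMod l}
    {ψ : Fin p × Fin r → (Lk D l → G) → ℂ} (hψ : Sec L sr tg (RR ρ x σ y) ψ) :
    Sec L sr tg (RR σ y ρ x) (swp ψ) := by
  refine ⟨fun q => (hψ.c1 _).conj, fun γ U => ?_⟩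
  funext ⟨b, a⟩
  have h1 := congrFun (hψ.eq γ U) (a, b)
  show (starRingEnd ℂ) (ψ (a, b) (gt sr tg γ U)) =
    ∑ q : Fin r × Fin p, (σ (γ y) : Mat r) b q.1 * (starRingEnd ℂ) ((ρ (γ x) : Mat p) a q.2) *
      (starRingEnd ℂ) (ψ (q.2, q.1) U)
  have h2 : ψ (a, b) (gt sr tg γ U) = ∑ q : Fin p × Fin r, (ρ (γ x) : Mat p) a q.1 *
      (starRingEnd ℂ) ((σ (γ y) : Mat r) b q.2) * ψ q U := h1
  rw [h2, map_sum, Fintype.sum_prod_type, Fintype.sum_prod_type, Finset.sum_comm]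
  refine Finset.sum_congr rfl fun k _ => Finset.sum_congr rfl fun k' _ => ?_
  rw [map_mul, map_mul, Complex.conj_conj]
  ring

lemma swap_nrm {K₁ K₂ E : Type} [Fintype K₁] [Fintype K₂] [Fintype E]
    (ψ : K₁ × K₂ → (E → G) → ℂ) : nrm μ (swp ψ) = nrm μ ψ := by
  unfold nrm swp
  rw [Fintype.sum_prod_type, Fintype.sum_prod_type, Finset.sum_comm]
  simp only [Complex.norm_conj]

lemma swap_en {K₁ K₂ E : Type} [Fintype K₁] [Fintype K₂] [Fintype E] [DecidableEq E]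
    (g : ℝ) (mg : (E → G) → ℝ) {ψ : K₁ × K₂ → (E → G) → ℂ} (hψ : ∀ q, C1 L (ψ q)) :
    en L μ g mg (swp ψ) = en L μ g mg ψ := by
  have hk : ∀ e, kin L μ e (swp ψ) = kin L μ e ψ := by
    intro e
    unfold kin
    refine Finset.sum_congr rfl fun a _ => ?_
    rw [Fintype.sum_prod_type, Fintype.sum_prod_type, Finset.sum_comm]
    refine Finset.sum_congr rfl fun k _ => Finset.sum_congr rfl fun k' _ => ?_
    have h1 : ∀ U, dl L e a (swp ψ (k', k)) U = (starRingEnd ℂ) (dl L e a (ψ (k, k')) U) :=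
      fun U => dl_conj (hψ (k, k')) e a U
    simp only [h1, Complex.norm_conj]
  have hp : pot μ mg (swp ψ) = pot μ mg ψ := by
    unfold pot
    refine integral_congr_ae (Eventually.of_forall fun U => ?_)
    show mg U * ∑ q, ‖swp ψ q U‖ ^ 2 = mg U * ∑ q, ‖ψ q U‖ ^ 2
    congr 1
    rw [Fintype.sum_prod_type, Fintype.sum_prod_type, Finset.sum_comm]
    refine Finset.sum_congr rfl fun k _ => Finset.sum_congr rfl fun k' _ => ?_
    show ‖(starRingEnd ℂ) (ψ (k, k') U)‖ ^ 2 = _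
    rw [Complex.norm_conj]
  unfold en
  rw [hp, Finset.sum_congr rfl fun e _ => hk e]

lemma swap_NE {p r l : ℕ} [NeZero l] {ρ : G →* UU p} {σ : G →* UU r} {x y : Fin D → ZMod l}
    (h : NE L μ sr tg (RR ρ x σ y)) : NE L μ sr tg (RR σ y ρ x) := by
  obtain ⟨ψ, hψ, h0⟩ := h
  exact ⟨swp ψ, swap_sec L hψ, by rw [swap_nrm]; exact h0⟩

lemma swap_ES {p r l : ℕ} [NeZero l] (ρ : G →* UU p) (σ : G →* UU r) (x y : Fin D → ZMod l)
    (g : ℝ) : ES L μ sr tg g (mag L) (RR σ y ρ x) = ES L μ sr tg g (mag L) (RR ρ x σ y) := by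
  unfold ES
  congr 1
  ext e
  constructor
  · rintro ⟨ψ, hψ, hn, rfl⟩
    exact ⟨swp ψ, swap_sec L hψ, by rw [swap_nrm]; exact hn, swap_en L μ g _ hψ.c1⟩
  · rintro ⟨ψ, hψ, hn, rfl⟩
    exact ⟨swp ψ, swap_sec L hψ, by rw [swap_nrm]; exact hn, swap_en L μ g _ hψ.c1⟩

end

end Pool.Agent.X168.NA
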