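import Mathlib
import Pool.Agent.X168.NA.Path

/-!
# Comparison of the static potentials of two representations
-/

open MeasureTheory Matrix Filter Topology
open scoped Matrix.Norms.Frobenius ContDiff Kronecker

namespace Pool.Agent.X168.NA

set_option linter.unusedSectionVars false

noncomputable section

/-! ### elementary inequalities -/

lemma pow_aux {V a m : ℝ} (hV : 0 ≤ V) (ha : 0 ≤ a) (hm0 : 0 ≤ m) (hm : m ≤ a * √(1 + V)) :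
    m * √m ≤ a * √a * (1 + V) ^ (3 / 4 : ℝ) := by
  have hW : (0:ℝ) ≤ 1 + V := by linarith
  have h1 : (1 + V) ^ (3 / 4 : ℝ) = √(1 + V) * √(√(1 + V)) := by
    rw [Real.sqrt_eq_rpow, Real.sqrt_eq_rpow, ← Real.rpow_mul hW,
      ← Real.rpow_add_of_nonneg hW (by norm_num) (by norm_num)]
    norm_num
  have h2 : √m ≤ √a * √(√(1 + V)) := by
    rw [← Real.sqrt_mul ha]
    exact Real.sqrt_le_sqrt hm
  calc m * √m ≤ (a * √(1 + V)) * (√a * √(√(1 + V))) :=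
        mul_le_mul hm h2 (Real.sqrt_nonneg _) (by positivity)
    _ = _ := by rw [h1]; ring

lemma choose_m {V : ℝ} (hV : 0 ≤ V) :
    ∃ m : ℕ, 1 ≤ m ∧ V + 1 ≤ (m:ℝ) ^ 2 ∧ (m:ℝ) ≤ 2 * √(1 + V) := by
  have h0 : 1 ≤ √(1 + V) := by
    rw [Real.one_le_sqrt]
    linarith
  refine ⟨⌈√(1 + V)⌉₊, ?_, ?_, ?_⟩
  · rw [Nat.one_le_ceil_iff]
    linarith
  · have h1 := Nat.le_ceil (√(1 + V))
    have h2 : √(1 + V) ^ 2 = 1 + V := Real.sq_sqrt (by linarith)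
    have h3 := pow_le_pow_left₀ (Real.sqrt_nonneg _) h1 2
    linarith
  · have h1 := Nat.ceil_lt_add_one (Real.sqrt_nonneg (1 + V))
    linarith

lemma fits {V a A : ℝ} (hV : 0 ≤ V) (ha : 0 ≤ a) {m k l : ℕ} (hm1 : 1 ≤ m)
    (hm : (m:ℝ) ≤ a * √(1 + V)) (hl : 1 ≤ l) (hVl : 1 + V ≤ A * l)
    (hlA : a ^ 2 * (k + 1) ^ 2 * A < l) : m ≤ l ∧ m * k < l := by
  have hl0 : (0:ℝ) < l := by exact_mod_cast hl
  have h1 : ((m:ℝ) * (k + 1)) ^ 2 < (l:ℝ) ^ 2 := by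
    have h2 : ((m:ℝ) * (k + 1)) ^ 2 ≤ (a * √(1 + V) * (k + 1)) ^ 2 :=
      pow_le_pow_left₀ (by positivity) (mul_le_mul_of_nonneg_right hm (by positivity)) 2
    have h3 : (a * √(1 + V) * (k + 1)) ^ 2 = a ^ 2 * (k + 1) ^ 2 * (1 + V) := by
      rw [mul_pow, mul_pow, Real.sq_sqrt (by linarith)]
      ring
    rw [h3] at h2
    have h4 : a ^ 2 * (k + 1) ^ 2 * (1 + V) ≤ a ^ 2 * (k + 1) ^ 2 * (A * l) :=
      mul_le_mul_of_nonneg_left hVl (by positivity)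
    have h5 : a ^ 2 * (k + 1) ^ 2 * (A * l) < l * l := by
      have := mul_lt_mul_of_pos_right hlA hl0
      linarith
    nlinarith
  have h6 : (m:ℝ) * (k + 1) < l := lt_of_pow_lt_pow_left₀ 2 hl0.le h1
  have h7 : m * (k + 1) < l := by exact_mod_cast h6
  constructor
  · nlinarith
  · nlinarith

variable {G : Type} [Group G]
variable [TopologicalSpace G] {N n : ℕ} (L : GD G N n)
  [IsTopologicalGroup G] [CompactSpace G] [SecondCountableTopology G] [T2Space G]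
  [MeasurableSpace G] [BorelSpace G] (μ : Measure G) [IsProbabilityMeasure μ] [μ.IsHaarMeasure]
  [μ.IsMulRightInvariant] [μ.IsInvInvariant] {D : ℕ}

/-- the static potential -/
def VV {p l : ℕ} [NeZero l] (g : ℝ) (ρ : G →* UU p) (x y : Fin D → ZMod l) : ℝ :=
  ES L μ sr tg g (mag L) (RR ρ x ρ y) - E0 L μ D l g

lemma dist_le {l : ℕ} [NeZero l] (x y : Fin D → ZMod l) :
    ∑ i, ((y i - x i).val : ℝ) ≤ D * l := by
  refine (Finset.sum_le_card_nsmul _ _ (l:ℝ) fun i _ => ?_).trans (le_of_eq ?_)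
  · exact_mod_cast (ZMod.val_lt (y i - x i)).le
  · simp

variable [PreconnectedSpace G]

theorem half {p p' : ℕ} [NeZero p] [NeZero p'] {ρ : G →* UU p} {ρ' : G →* UU p'}
    (h₁ : Continuous ρ) (h₂ : Continuous ρ')
    (hcen : ∀ z ∈ Subgroup.center G, ∃ c : ℂ, (ρ z : Mat p) = c • 1 ∧ (ρ' z : Mat p') = c • 1)
    (hD : 2 ≤ D) {g : ℝ} (hg : 0 < g) :
    ∃ (C : ℝ) (L₀ : ℕ), 0 ≤ C ∧ ∀ (l : ℕ) [NeZero l], L₀ ≤ l → ∀ x y : Fin D → ZMod l,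
      VV L μ g ρ' x y ≤ VV L μ g ρ x y + C * (1 + VV L μ g ρ x y) ^ (3 / 4 : ℝ) := by
  obtain ⟨a, b, hab⟩ : ∃ a b : Fin D, a ≠ b :=
    ⟨⟨0, by omega⟩, ⟨1, by omega⟩, by simp⟩
  obtain ⟨Cp, hCp0, hCp⟩ := path_bound L μ (D := D) h₁ hg
  obtain ⟨C1, hC10, hC1⟩ := left_step L μ (D := D) ρ h₁ h₂ hcen hab hg
  obtain ⟨C2, hC20, hC2⟩ := left_step L μ (D := D) ρ' h₁ h₂ hcen hab hg
  set B1 : ℝ := C1 * (2 * √2) with hB1
  have hB10 : 0 ≤ B1 := by positivity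
  set a2 : ℝ := 2 * √(1 + B1) with ha2
  have ha20 : 0 ≤ a2 := by positivity
  set A : ℝ := 1 + Cp * (1 + D) with hA
  set A' : ℝ := (1 + B1) * A with hA'
  have hA0 : 0 ≤ A := by positivity
  have hA'0 : 0 ≤ A' := by positivity
  set L₀ : ℕ := ⌈(2:ℝ) ^ 2 * (((N * N : ℕ) : ℝ) + 1) ^ 2 * A⌉₊ +
    ⌈(2:ℝ) ^ 2 * (((N * N : ℕ) : ℝ) + 1) ^ 2 * A'⌉₊ + 1 with hL₀
  refine ⟨B1 + C2 * (a2 * √a2), L₀, by positivity, ?_⟩
  intro l _ hl x y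
  have hl1 : 1 ≤ l := by omega
  have hlr : (1:ℝ) ≤ l := by exact_mod_cast hl1
  have hlA : (2:ℝ) ^ 2 * (((N * N : ℕ) : ℝ) + 1) ^ 2 * A < l := by
    have h1 := Nat.le_ceil ((2:ℝ) ^ 2 * (((N * N : ℕ) : ℝ) + 1) ^ 2 * A)
    have h2 : ⌈(2:ℝ) ^ 2 * (((N * N : ℕ) : ℝ) + 1) ^ 2 * A⌉₊ < l := by omega
    have h3 : ((⌈(2:ℝ) ^ 2 * (((N * N : ℕ) : ℝ) + 1) ^ 2 * A⌉₊ : ℕ) : ℝ) < l := by
      exact_mod_cast h2
    linarith
  have hlA' : (2:ℝ) ^ 2 * (((N * N : ℕ) : ℝ) + 1) ^ 2 * A' < l := by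
    have h1 := Nat.le_ceil ((2:ℝ) ^ 2 * (((N * N : ℕ) : ℝ) + 1) ^ 2 * A')
    have h2 : ⌈(2:ℝ) ^ 2 * (((N * N : ℕ) : ℝ) + 1) ^ 2 * A'⌉₊ < l := by omega
    have h3 : ((⌈(2:ℝ) ^ 2 * (((N * N : ℕ) : ℝ) + 1) ^ 2 * A'⌉₊ : ℕ) : ℝ) < l := by
      exact_mod_cast h2
    linarith
  obtain ⟨hNE, hVp⟩ := hCp l x y
  set V : ℝ := VV L μ g ρ x y with hV
  have hV' : ES L μ sr tg g (mag L) (RR ρ x ρ y) - E0 L μ D l g = V := rfl
  have hV0 : 0 ≤ V := by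
    rw [← hV']
    linarith [ground_le L μ g (RR_unit ρ x ρ y) hNE]
  rw [hV'] at hVp
  have hVl : 1 + V ≤ A * l := by
    have h1 := dist_le x y
    have h2 : V ≤ Cp * (1 + D * l) :=
      hVp.trans (mul_le_mul_of_nonneg_left (by linarith) hCp0)
    have h3 : Cp ≤ Cp * l := le_mul_of_one_le_right hCp0 hlr
    rw [hA]
    nlinarith
  -- first step
  obtain ⟨m, hm1, hmV, hm2⟩ := choose_m hV0
  obtain ⟨hml, hmk⟩ := fits hV0 zero_le_two hm1 hm2 hl1 hVl hlA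
  obtain ⟨hNE1, hE1⟩ := hC1 l x y m hm1 hml hmk hNE (by rw [hV']; exact hmV)
  have hp1 : C1 * ((m:ℝ) * √m) ≤ B1 * (1 + V) ^ (3 / 4 : ℝ) := by
    have := mul_le_mul_of_nonneg_left (pow_aux hV0 zero_le_two (Nat.cast_nonneg m) hm2) hC10
    rw [hB1]
    linarith
  -- second step
  have hNE2 := swap_NE L μ hNE1
  set V2 : ℝ := ES L μ sr tg g (mag L) (RR ρ y ρ' x) - E0 L μ D l g with hV2
  have hV20 : 0 ≤ V2 := by
    rw [hV2]
    linarith [ground_le L μ g (RR_unit ρ y ρ' x) hNE2]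
  have hV2le : V2 ≤ V + B1 * (1 + V) ^ (3 / 4 : ℝ) := by
    rw [hV2, swap_ES L μ ρ' ρ x y g]
    linarith
  have hpow1 : (1 + V) ^ (3 / 4 : ℝ) ≤ 1 + V := by
    have := Real.rpow_le_rpow_of_exponent_le (by linarith : (1:ℝ) ≤ 1 + V)
      (by norm_num : (3 / 4 : ℝ) ≤ 1)
    rwa [Real.rpow_one] at this
  have hV2le2 : 1 + V2 ≤ (1 + B1) * (1 + V) := by
    have := mul_le_mul_of_nonneg_left hpow1 hB10
    nlinarith
  obtain ⟨m', hm1', hmV', hm2'⟩ := choose_m hV20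
  have hm2'' : (m' : ℝ) ≤ a2 * √(1 + V) := by
    refine hm2'.trans ?_
    rw [ha2, mul_assoc, ← Real.sqrt_mul (by linarith)]
    exact mul_le_mul_of_nonneg_left (Real.sqrt_le_sqrt hV2le2) zero_le_two
  have hVl' : 1 + V2 ≤ A' * l := by
    rw [hA', mul_assoc]
    exact hV2le2.trans (mul_le_mul_of_nonneg_left hVl (by linarith))
  obtain ⟨hml', hmk'⟩ := fits hV20 zero_le_two hm1' hm2' hl1 hVl' hlA'
  obtain ⟨hNE3, hE2⟩ := hC2 l y x m' hm1' hml' hmk' hNE2 (by rw [← hV2]; exact hmV')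
  have hp2 : C2 * ((m':ℝ) * √m') ≤ C2 * (a2 * √a2) * (1 + V) ^ (3 / 4 : ℝ) := by
    have := mul_le_mul_of_nonneg_left (pow_aux hV0 ha20 (Nat.cast_nonneg m') hm2'') hC20
    linarith
  have hfin : VV L μ g ρ' x y = ES L μ sr tg g (mag L) (RR ρ' y ρ' x) - E0 L μ D l g := by
    unfold VV
    rw [swap_ES L μ ρ' ρ' x y g]
  rw [hfin]
  linarith

/-- **Comparison.** -/
theorem comparison {p p' : ℕ} [NeZero p] [NeZero p'] {ρ : G →* UU p} {ρ' : G →* UU p'}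
    (h₁ : Continuous ρ) (h₂ : Continuous ρ')
    (hcen : ∀ z ∈ Subgroup.center G, ∃ c : ℂ, (ρ z : Mat p) = c • 1 ∧ (ρ' z : Mat p') = c • 1)
    (hD : 2 ≤ D) {g : ℝ} (hg : 0 < g) :
    ∃ (C : ℝ) (L₀ : ℕ), 0 ≤ C ∧ ∀ (l : ℕ) [NeZero l], L₀ ≤ l → ∀ x y : Fin D → ZMod l,
      |VV L μ g ρ x y - VV L μ g ρ' x y| ≤
        C * (1 + min (VV L μ g ρ x y) (VV L μ g ρ' x y)) ^ (3 / 4 : ℝ) := by
  obtain ⟨C, L₀, hC0, hC⟩ := half L μ h₁ h₂ hcen hD hg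
  obtain ⟨C', L₀', hC0', hC'⟩ := half L μ h₂ h₁ (fun z hz => by
    obtain ⟨c, hc1, hc2⟩ := hcen z hz
    exact ⟨c, hc2, hc1⟩) hD hg
  refine ⟨C + C', L₀ + L₀', by positivity, ?_⟩
  intro l _ hl x y
  have h1 := hC l (by omega) x y
  have h2 := hC' l (by omega) x y
  obtain ⟨Cp, hCp0, hCp⟩ := path_bound L μ (D := D) h₁ hg
  obtain ⟨Cp', hCp0', hCp'⟩ := path_bound L μ (D := D) h₂ hg
  have hV0 : 0 ≤ VV L μ g ρ x y := by
    unfold VV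
    linarith [ground_le L μ g (RR_unit ρ x ρ y) (hCp l x y).1]
  have hV0' : 0 ≤ VV L μ g ρ' x y := by
    unfold VV
    linarith [ground_le L μ g (RR_unit ρ' x ρ' y) (hCp' l x y).1]
  rcases le_total (VV L μ g ρ x y) (VV L μ g ρ' x y) with h | h
  · rw [min_eq_left h, abs_sub_comm, abs_of_nonneg (by linarith)]
    have h3 : 0 ≤ C' * (1 + VV L μ g ρ x y) ^ (3 / 4 : ℝ) := by positivity
    linarith
  · rw [min_eq_right h, abs_of_nonneg (by linarith)]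
    have h3 : 0 ≤ C * (1 + VV L μ g ρ' x y) ^ (3 / 4 : ℝ) := by positivity
    linarith

lemma VV_nonneg {p l : ℕ} [NeZero p] [NeZero l] {ρ : G →* UU p} (hρ : Continuous ρ) {g : ℝ}
    (hg : 0 < g) (x y : Fin D → ZMod l) : 0 ≤ VV L μ g ρ x y := by
  obtain ⟨Cp, hCp0, hCp⟩ := path_bound L μ (D := D) hρ hg
  unfold VV
  linarith [ground_le L μ g (RR_unit ρ x ρ y) (hCp l x y).1]

/-- the trivial representation -/
lemma triv_le {l : ℕ} [NeZero l] (g : ℝ) (x y : Fin D → ZMod l) :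
    VV L μ g (1 : G →* UU 1) x y ≤ 0 := by
  unfold VV E0
  rw [sub_nonpos]
  obtain ⟨ψ₀, hψ₀, h₀⟩ := NE0 L μ (D := D) (l := l)
  obtain ⟨ψ₁, hψ₁, hn₁, -⟩ := ES_approx (g := g) (mg := mag L) μ (NE0 L μ (D := D) (l := l)) one_pos
  refine le_csInf ⟨_, ψ₁, hψ₁, hn₁, rfl⟩ ?_
  rintro e ⟨ψ, hψ, hn, rfl⟩
  set φ : Fin 1 × Fin 1 → (Lk D l → G) → ℂ := fun _ => ψ () with hφ
  have hφS : Sec L sr tg (RR (1 : G →* UU 1) x (1 : G →* UU 1) y) φ := by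
    refine ⟨fun _ => hψ.c1 (), fun γ U => ?_⟩
    have h1 : RR (1 : G →* UU 1) x (1 : G →* UU 1) y γ = 1 := by
      unfold RR
      rw [MonoidHom.one_apply, MonoidHom.one_apply]
      ext ⟨a, b⟩ ⟨c, d⟩
      have ha : a = 0 := Subsingleton.elim _ _
      have hb : b = 0 := Subsingleton.elim _ _
      have hc : c = 0 := Subsingleton.elim _ _
      have hd : d = 0 := Subsingleton.elim _ _
      subst ha; subst hb; subst hc; subst hd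
      rw [Matrix.kronecker_apply, Matrix.map_apply]
      simp
    rw [h1, Matrix.one_mulVec]
    funext _
    have h2 := congrFun (hψ.eq γ U) ()
    unfold R0 at h2
    rw [Matrix.one_mulVec] at h2
    exact h2
  have hsum : ∀ f : Fin 1 × Fin 1 → ℝ, ∑ q, f q = f (0, 0) := by
    intro f
    rw [Fintype.sum_prod_type]
    simp
  have hnφ : nrm μ φ = 1 := by
    rw [← hn]
    unfold nrm
    rw [hsum, Finset.univ_unique, Finset.sum_singleton]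
  have heφ : en L μ g (mag L) φ = en L μ g (mag L) ψ := by
    unfold en kin pot
    simp only [hsum, Finset.univ_unique, Finset.sum_singleton, hφ]
  rw [← heφ]
  exact csInf_le (ES_bdd μ (mag_nonneg L)) ⟨φ, hφS, hnφ, rfl⟩

/-- **Screening of sources of trivial N-ality.** -/
theorem screening {p : ℕ} [NeZero p] {ρ : G →* UU p} (h₁ : Continuous ρ)
    (hcen : ∀ z ∈ Subgroup.center G, ρ z = 1) (hD : 2 ≤ D) {g : ℝ} (hg : 0 < g) :
    ∃ (C : ℝ) (L₀ : ℕ), 0 ≤ C ∧ ∀ (l : ℕ) [NeZero l], L₀ ≤ l → ∀ x y : Fin D → ZMod l,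
      VV L μ g ρ x y ≤ C := by
  obtain ⟨C, L₀, hC0, hC⟩ := half L μ (ρ := (1 : G →* UU 1)) (ρ' := ρ) continuous_const h₁
    (fun z hz => ⟨1, by rw [one_smul]; rfl, by rw [one_smul, hcen z hz]; rfl⟩) hD hg
  refine ⟨C, L₀, hC0, ?_⟩
  intro l _ hl x y
  have h1 := hC l hl x y
  have h2 : VV L μ g (1 : G →* UU 1) x y = 0 :=
    le_antisymm (triv_le L μ g x y) (VV_nonneg L μ continuous_const hg x y)
  rw [h2] at h1
  simpa using h1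

/-- string tension -/
def Ten (D : ℕ) {p : ℕ} (g : ℝ) (ρ : G →* UU p) (κ : ℝ) : Prop :=
  ∀ ε : ℝ, 0 < ε → ∃ R₀ : ℕ, ∀ R : ℕ, R₀ ≤ R → ∃ l₀ : ℕ, ∀ (l : ℕ) [NeZero l], l₀ ≤ l →
    ∀ (x : Fin D → ZMod l) (i : Fin D),
      |VV L μ g ρ x (x + Pi.single i (R : ZMod l)) - κ * R| ≤ ε * R

lemma dist_single {l : ℕ} [NeZero l] (x : Fin D → ZMod l) (i : Fin D) (R : ℕ)
    {z : Fin D → ZMod l} (hz : z = x + Pi.single i (R : ZMod l)) :
    ∑ j, ((z j - x j).val : ℝ) ≤ R := by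
  have h1 : ∀ j, z j - x j = (Pi.single i (R : ZMod l) : Fin D → ZMod l) j := by
    intro j
    rw [hz, Pi.add_apply]
    ring
  simp only [h1]
  rw [Finset.sum_eq_single i]
  · rw [Pi.single_eq_same, ZMod.val_natCast]
    exact_mod_cast Nat.mod_le _ _
  · intro j _ hj
    rw [Pi.single_eq_of_ne hj, ZMod.val_zero, Nat.cast_zero]
  · simp

theorem ten_of {p p' : ℕ} [NeZero p] [NeZero p'] {ρ : G →* UU p} {ρ' : G →* UU p'}
    (h₁ : Continuous ρ) (h₂ : Continuous ρ')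
    (hcen : ∀ z ∈ Subgroup.center G, ∃ c : ℂ, (ρ z : Mat p) = c • 1 ∧ (ρ' z : Mat p') = c • 1)
    (hD : 2 ≤ D) {g : ℝ} (hg : 0 < g) {κ : ℝ} (h : Ten L μ D g ρ κ) : Ten L μ D g ρ' κ := by
  obtain ⟨C, L₀, hC0, hC⟩ := comparison L μ h₁ h₂ hcen hD hg
  obtain ⟨Cp, hCp0, hCp⟩ := path_bound L μ (D := D) h₁ hg
  intro ε hε
  obtain ⟨R₀, hR₀⟩ := h (ε / 2) (by positivity)
  -- the error is small
  set B : ℝ := C * (1 + 2 * Cp) ^ (3 / 4 : ℝ) with hB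
  have hB0 : 0 ≤ B := by positivity
  obtain ⟨R₁, hR₁⟩ := ((tendsto_rpow_atTop (by norm_num : (0:ℝ) < 1 / 4)).comp
    tendsto_natCast_atTop_atTop).eventually_ge_atTop (2 * B / ε) |>.exists_forall_of_atTop
  refine ⟨max (max R₀ R₁) 1, fun R hR => ?_⟩
  obtain ⟨l₀, hl₀⟩ := hR₀ R (by omega)
  refine ⟨max l₀ L₀, ?_⟩
  intro l _ hl x i
  have h3 := hl₀ l (by omega) x i
  obtain ⟨z, hz⟩ : ∃ z : Fin D → ZMod l, z = x + Pi.single i (R : ZMod l) := ⟨_, rfl⟩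
  rw [← hz] at h3 ⊢
  have h4 := hC l (by omega) x z
  have hRr : (1:ℝ) ≤ R := by
    have : 1 ≤ R := by omega
    exact_mod_cast this
  have hV0 := VV_nonneg L μ h₁ hg x z
  have hV0' := VV_nonneg L μ h₂ hg x z
  have h5 : VV L μ g ρ x z ≤ Cp * (1 + R) := by
    refine (hCp l x z).2.trans (mul_le_mul_of_nonneg_left ?_ hCp0)
    linarith [dist_single x i R hz]
  obtain ⟨v, hv⟩ : ∃ v : ℝ, v = VV L μ g ρ x z := ⟨_, rfl⟩
  obtain ⟨v', hv'⟩ : ∃ v' : ℝ, v' = VV L μ g ρ' x z := ⟨_, rfl⟩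
  rw [← hv, ← hv'] at h4
  rw [← hv] at h3 hV0 h5
  rw [← hv'] at hV0' ⊢
  have h6 : 1 + min v v' ≤ (1 + 2 * Cp) * R := by
    have := min_le_left v v'
    have h7 : Cp ≤ Cp * R := le_mul_of_one_le_right hCp0 hRr
    nlinarith
  have h7 : 0 ≤ 1 + min v v' := by
    have := le_min hV0 hV0'
    linarith
  have h8 : C * (1 + min v v') ^ (3 / 4 : ℝ) ≤ B * (R:ℝ) ^ (3 / 4 : ℝ) := by
    rw [hB, mul_assoc, ← Real.mul_rpow (by positivity) (by positivity)]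
    exact mul_le_mul_of_nonneg_left (Real.rpow_le_rpow h7 h6 (by norm_num)) hC0
  have h9 : 2 * B / ε ≤ (R:ℝ) ^ (1 / 4 : ℝ) := hR₁ R (by omega)
  have h10 : B * (R:ℝ) ^ (3 / 4 : ℝ) ≤ ε / 2 * R := by
    have h11 : (R:ℝ) = (R:ℝ) ^ (1 / 4 : ℝ) * (R:ℝ) ^ (3 / 4 : ℝ) := by
      rw [← Real.rpow_add_of_nonneg (by positivity) (by norm_num) (by norm_num)]
      norm_num
    have h12 : B ≤ ε / 2 * (R:ℝ) ^ (1 / 4 : ℝ) := by
      rw [div_le_iff₀ hε] at h9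
      linarith
    calc B * (R:ℝ) ^ (3 / 4 : ℝ) ≤ ε / 2 * (R:ℝ) ^ (1 / 4 : ℝ) * (R:ℝ) ^ (3 / 4 : ℝ) :=
          mul_le_mul_of_nonneg_right h12 (by positivity)
      _ = ε / 2 * ((R:ℝ) ^ (1 / 4 : ℝ) * (R:ℝ) ^ (3 / 4 : ℝ)) := by ring
      _ = ε / 2 * R := by rw [← h11]
  have h13 := h4.trans (h8.trans h10)
  have h14 := abs_sub_le v' v (κ * R)
  rw [abs_sub_comm v' v] at h14
  linarith

end

end Pool.Agent.X168.NA
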