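import Mathlib
import Pool.Agent.X168.NA.Base

/-!
# The data of a closed subgroup of the unitary group
-/

open MeasureTheory Matrix Filter Topology
open scoped Matrix.Norms.Frobenius ContDiff

namespace Pool.Agent.X168.NA

set_option linter.unusedSectionVars false

noncomputable section

variable {N n : ℕ} {G : Subgroup (UU N)}

/-- exponential coordinates near the identity -/
lemma nb_of (hG : IsClosed (G : Set (UU N))) (X : Fin n → Mat N)
    (orth : ∀ a b, (trace ((X a)ᴴ * X b)).re = if a = b then 1 else 0)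
    (full : ∀ Y : Mat N, (∀ t : ℝ, ∃ g : G, ((g : UU N) : Mat N) = NormedSpace.exp (t • Y)) →
      Y ∈ Submodule.span ℝ (Set.range X)) (δ : ℝ) (hδ : 0 < δ) :
    ∀ᶠ g in 𝓝 (1 : G), ∃ (c : Fin n → ℝ) (γ : ℝ → G), (∀ a, |c a| ≤ δ) ∧
      (∀ t, (((γ t : G) : UU N) : Mat N) = NormedSpace.exp (t • ∑ a, c a • X a)) ∧ γ 1 = g := by
  have hcst := Pool.LatH472.CST2 Pool.LatH472.CST1
  set V : Set (Mat N) := {Y | ∀ a, |(trace ((X a)ᴴ * Y)).re| < δ} with hV
  have hVo : IsOpen V := by
    have h1 : V = ⋂ a, {Y : Mat N | |(trace ((X a)ᴴ * Y)).re| < δ} := by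
      ext Y
      simp [hV]
    rw [h1]
    refine isOpen_iInter_of_finite fun a => isOpen_lt ?_ continuous_const
    exact (Complex.continuous_re.comp
      ((continuous_const.matrix_mul continuous_id).matrix_trace)).abs
  have hV0 : V ∈ nhds (0 : Mat N) := by
    refine hVo.mem_nhds ?_
    intro a
    rw [Matrix.mul_zero, Matrix.trace_zero, Complex.zero_re, abs_zero]
    exact hδ
  obtain ⟨O, hO, hOX⟩ := hcst (Fin N) G hG V hV0
  have hcont : Continuous fun g : G => (g : UU N) := continuous_subtype_val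
  have hO' : (fun g : G => (g : UU N)) ⁻¹' O ∈ 𝓝 (1 : G) := by
    refine hcont.continuousAt.preimage_mem_nhds ?_
    exact hO
  filter_upwards [hO'] with g hg
  obtain ⟨Y, ⟨hYs, hYt⟩, hYV, hYe⟩ := hOX (g : UU N) g.2 hg
  have hYt' : ∀ t : ℝ, ∃ g : G, ((g : UU N) : Mat N) = NormedSpace.exp (t • Y) := by
    intro t
    obtain ⟨u, hu, hue⟩ := hYt t
    exact ⟨⟨u, hu⟩, hue⟩
  choose γ hγ using hYt'
  obtain ⟨c, hc⟩ := (Submodule.mem_span_range_iff_exists_fun ℝ).1 (full Y fun t => ⟨γ t, hγ t⟩)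
  have hca : ∀ a, (trace ((X a)ᴴ * Y)).re = c a := by
    intro a
    rw [← hc, Finset.mul_sum, trace_sum, Complex.re_sum]
    have h2 : ∀ b, (trace ((X a)ᴴ * (c b • X b))).re = if a = b then c b else 0 := by
      intro b
      rw [Matrix.mul_smul, trace_smul, Complex.smul_re, orth, smul_eq_mul, mul_ite, mul_one,
        mul_zero]
    simp only [h2]
    simp
  refine ⟨c, γ, fun a => ?_, fun t => ?_, ?_⟩
  · rw [← hca]
    exact (hYV a).le
  · rw [hγ t, hc]
  · apply Subtype.ext
    apply Subtype.ext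
    rw [hγ 1, one_smul]
    exact hYe

/-- the data of a closed subgroup -/
def gd (hG : IsClosed (G : Set (UU N))) (X : Fin n → Mat N) (ex : Fin n → ℝ → G)
    (ex_eq : ∀ a t, (((ex a t : G) : UU N) : Mat N) = NormedSpace.exp (t • X a))
    (orth : ∀ a b, (trace ((X a)ᴴ * X b)).re = if a = b then 1 else 0)
    (full : ∀ Y : Mat N, (∀ t : ℝ, ∃ g : G, ((g : UU N) : Mat N) = NormedSpace.exp (t • Y)) →
      Y ∈ Submodule.span ℝ (Set.range X)) : GD G N n where
  rho := G.subtype
  cont := continuous_subtype_val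
  inj := Subtype.val_injective
  X := X
  ex := ex
  ex_eq := ex_eq
  nb := nb_of hG X orth full

end

end Pool.Agent.X168.NA
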